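import Pool.Agent.Lib.MP_e2d58b_nt.VR.Two
import Pool.Agent.Lib.MP_391708_nt.QPA.Bt

/-!
# Brun-Titchmarsh and the trivial upper bound
-/

set_option autoImplicit false

namespace Pool.Agent.Lib.MP_e2d58b_nt.VR

open Finset

/-- the primes in `(X, X+Y)` -/
noncomputable def PR (X Y : ℝ) : Finset ℕ :=
  (Finset.range (⌈X + Y⌉₊ + 1)).filter (fun p : ℕ => Nat.Prime p ∧ X < (p : ℝ) ∧ (p : ℝ) < X + Y)

lemma mem_PR {X Y : ℝ} {p : ℕ} : p ∈ PR X Y ↔ Nat.Prime p ∧ X < (p : ℝ) ∧ (p : ℝ) < X + Y := by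
  unfold PR
  rw [mem_filter, mem_range]
  constructor
  · exact fun h => h.2
  · intro h
    refine ⟨?_, h⟩
    have h1 : (p : ℝ) ≤ (⌈X + Y⌉₊ : ℝ) := h.2.2.le.trans (Nat.le_ceil _)
    have h2 : p ≤ ⌈X + Y⌉₊ := by exact_mod_cast h1
    omega

/-- the weight -/
noncomputable def lw (p : ℕ) : ℝ := Real.log p

theorem bt_count : ∃ C Y0 : ℝ, 0 < C ∧ 2 ≤ Y0 ∧ ∀ X Y : ℝ, Y0 ≤ Y → Y ≤ X → ∀ q : ℕ, 1 ≤ q →
    (q : ℝ) ^ 2 ≤ Y → ∀ a : ℕ,
    (((PR X Y).filter (fun p => p ≡ a [MOD q])).card : ℝ) ≤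
      C * Y / ((q.totient : ℝ) * Real.log Y) := by
  classical
  obtain ⟨C, hC, h⟩ := Pool.Agent.Lib.MP391708.QPA.specBT
    Pool.Agent.Lib.MP391708.QPA.specSELB
  refine ⟨20 * C, 2 ^ 8, by positivity, by norm_num, fun X Y hY hYX q hq hqY a => ?_⟩
  have hY1 : (1 : ℝ) < Y := by linarith
  have hY0 : (0 : ℝ) < Y := by linarith
  have hX0 : (0 : ℝ) < X := by linarith
  set y : ℝ := Y ^ ((1 : ℝ) / 8) with hy
  have hy2 : 2 ≤ y := by
    have h1 : ((2 : ℝ) ^ 8) ^ ((1 : ℝ) / 8) ≤ y := Real.rpow_le_rpow (by norm_num) hY (by norm_num)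
    have h2 : ((2 : ℝ) ^ 8) ^ ((1 : ℝ) / 8) = 2 := by
      rw [← Real.rpow_natCast, ← Real.rpow_mul (by norm_num)]
      norm_num
    linarith
  have hyY : y < Y := by
    have h1 : Y ^ ((1 : ℝ) / 8) < Y ^ (1 : ℝ) := Real.rpow_lt_rpow_of_exponent_lt hY1 (by norm_num)
    rwa [Real.rpow_one] at h1
  have hlogy : Real.log y = Real.log Y / 8 := by
    rw [hy, Real.log_rpow hY0]; ring
  have hlogY : 0 < Real.log Y := Real.log_pos hY1
  have hφ : (0 : ℝ) < q.totient := by exact_mod_cast Nat.totient_pos.2 hq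
  have h1 := h y Y q (a % q) ⌊X⌋₊ (⌈Y⌉₊ + 1) hy2 hyY hq
  have hsub : (PR X Y).filter (fun p => p ≡ a [MOD q]) ⊆
      (Ioc ⌊X⌋₊ (⌊X⌋₊ + (⌈Y⌉₊ + 1))).filter
        (fun u => u % q = a % q ∧ Pool.Agent.Lib.MP391708.QPA.Rough Y u) := by
    intro p hp
    rw [mem_filter, mem_PR] at hp
    obtain ⟨⟨hp1, hp2, hp3⟩, hp4⟩ := hp
    rw [mem_filter, mem_Ioc]
    refine ⟨⟨?_, ?_⟩, hp4, ?_⟩
    · have h2 : (⌊X⌋₊ : ℝ) < p := (Nat.floor_le hX0.le).trans_lt hp2
      exact_mod_cast h2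
    · have h2 : (p : ℝ) < ((⌊X⌋₊ + (⌈Y⌉₊ + 1) : ℕ) : ℝ) := by
        push_cast
        have h3 := Nat.lt_floor_add_one X
        have h4 := Nat.le_ceil Y
        linarith
      have : p < ⌊X⌋₊ + (⌈Y⌉₊ + 1) := by exact_mod_cast h2
      omega
    · intro l hl hlp
      have : l = p := (Nat.prime_dvd_prime_iff_eq hl hp1).1 hlp
      rw [this]
      linarith
  have h2 : (((PR X Y).filter (fun p => p ≡ a [MOD q])).card : ℝ) ≤
      C * ((⌈Y⌉₊ + 1 : ℕ) : ℝ) / ((q.totient : ℝ) * Real.log y) + C * y ^ 2 := by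
    refine le_trans ?_ h1
    exact_mod_cast Finset.card_le_card hsub
  refine h2.trans ?_
  have hH : ((⌈Y⌉₊ + 1 : ℕ) : ℝ) ≤ 2 * Y := by
    push_cast
    have := (Nat.ceil_lt_add_one hY0.le).le
    linarith
  have hA : C * ((⌈Y⌉₊ + 1 : ℕ) : ℝ) / ((q.totient : ℝ) * Real.log y) ≤
      16 * (C * Y / ((q.totient : ℝ) * Real.log Y)) := by
    rw [hlogy]
    calc C * ((⌈Y⌉₊ + 1 : ℕ) : ℝ) / ((q.totient : ℝ) * (Real.log Y / 8))
        ≤ C * (2 * Y) / ((q.totient : ℝ) * (Real.log Y / 8)) := by gcongr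
      _ = 16 * (C * Y / ((q.totient : ℝ) * Real.log Y)) := by
          field_simp
          norm_num
  have hB : y ^ 2 ≤ 4 * (Y / ((q.totient : ℝ) * Real.log Y)) := by
    have e1 : y ^ 2 = Y ^ ((1 : ℝ) / 4) := by
      rw [hy, ← Real.rpow_natCast, ← Real.rpow_mul hY0.le]
      norm_num
    have h3 : Real.log Y ≤ Y ^ ((1 : ℝ) / 4) / (1 / 4) :=
      Real.log_le_rpow_div hY0.le (by norm_num)
    have h4 : (q.totient : ℝ) ≤ Y ^ ((1 : ℝ) / 2) := by
      have h5 : (q.totient : ℝ) ≤ q := by exact_mod_cast Nat.totient_le q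
      refine h5.trans ?_
      rw [← Real.sqrt_eq_rpow]
      exact Real.le_sqrt_of_sq_le hqY
    rw [e1]
    have h5 : Y ^ ((1 : ℝ) / 4) * ((q.totient : ℝ) * Real.log Y) ≤ 4 * Y := by
      have e2 : Y = Y ^ ((1 : ℝ) / 4) * (Y ^ ((1 : ℝ) / 2) * Y ^ ((1 : ℝ) / 4)) := by
        rw [← Real.rpow_add hY0, ← Real.rpow_add hY0]
        norm_num
      have h6 : (q.totient : ℝ) * Real.log Y ≤ Y ^ ((1 : ℝ) / 2) * (Y ^ ((1 : ℝ) / 4) / (1 / 4)) :=
        mul_le_mul h4 h3 hlogY.le (by positivity)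
      calc Y ^ ((1 : ℝ) / 4) * ((q.totient : ℝ) * Real.log Y)
          ≤ Y ^ ((1 : ℝ) / 4) * (Y ^ ((1 : ℝ) / 2) * (Y ^ ((1 : ℝ) / 4) / (1 / 4))) := by gcongr
        _ = 4 * (Y ^ ((1 : ℝ) / 4) * (Y ^ ((1 : ℝ) / 2) * Y ^ ((1 : ℝ) / 4))) := by ring
        _ = 4 * Y := by rw [← e2]
    rw [← mul_div_assoc, le_div_iff₀ (by positivity)]
    exact h5
  have hB' : C * y ^ 2 ≤ 4 * (C * Y / ((q.totient : ℝ) * Real.log Y)) := by
    calc C * y ^ 2 ≤ C * (4 * (Y / ((q.totient : ℝ) * Real.log Y))) := by gcongr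
      _ = _ := by ring
  calc C * ((⌈Y⌉₊ + 1 : ℕ) : ℝ) / ((q.totient : ℝ) * Real.log y) + C * y ^ 2
      ≤ 16 * (C * Y / ((q.totient : ℝ) * Real.log Y)) + 4 * (C * Y / ((q.totient : ℝ) * Real.log Y)) :=
        add_le_add hA hB'
    _ = 20 * C * Y / ((q.totient : ℝ) * Real.log Y) := by ring

lemma lw_nonneg (p : ℕ) : 0 ≤ lw p := Real.log_natCast_nonneg p

/-- Brun-Titchmarsh for the weighted count -/
theorem bt_th (η : ℝ) (hη : 0 < η) : ∃ B X0 : ℝ, 1 ≤ B ∧ 2 ≤ X0 ∧ ∀ X Y : ℝ, X0 ≤ X → X ^ η ≤ Y →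
    Y ≤ X → ∀ q : ℕ, 1 ≤ q → (q : ℝ) ^ 2 ≤ Y → ∀ a : ℕ,
    th (PR X Y) lw q a ≤ B * Y / (q.totient : ℝ) := by
  obtain ⟨C, Y0, hC, hY0, h⟩ := bt_count
  refine ⟨max 1 (2 * C / η), max 2 (Y0 ^ (1 / η)), le_max_left _ _, le_max_left _ _,
    fun X Y hX hY hYX q hq hqY a => ?_⟩
  have hX2 : 2 ≤ X := le_trans (le_max_left _ _) hX
  have hX0 : 0 < X := by linarith
  have hYY0 : Y0 ≤ Y := by
    have h1 : (Y0 ^ (1 / η)) ^ η ≤ X ^ η :=
      Real.rpow_le_rpow (by positivity) (le_trans (le_max_right _ _) hX) hη.le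
    rw [← Real.rpow_mul (by linarith), one_div_mul_cancel hη.ne', Real.rpow_one] at h1
    linarith
  have hY1 : 1 < Y := by linarith
  have hlogX : 0 < Real.log X := Real.log_pos (by linarith)
  have hlogY : 0 < Real.log Y := Real.log_pos hY1
  have hlogXY : η * Real.log X ≤ Real.log Y := by
    have h1 := Real.log_le_log (by positivity) hY
    rwa [Real.log_rpow hX0] at h1
  have hφ : (0 : ℝ) < q.totient := by exact_mod_cast Nat.totient_pos.2 hq
  have h1 : th (PR X Y) lw q a ≤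
      (((PR X Y).filter (fun p => p ≡ a [MOD q])).card : ℝ) * (2 * Real.log X) := by
    unfold th
    rw [← nsmul_eq_mul]
    apply Finset.sum_le_card_nsmul
    intro p hp
    rw [mem_filter, mem_PR] at hp
    unfold lw
    have hp0 : (0 : ℝ) < p := by exact_mod_cast hp.1.1.pos
    have h2 : (p : ℝ) ≤ X ^ 2 := by nlinarith [hp.1.2.2]
    have h3 := Real.log_le_log hp0 h2
    rw [Real.log_pow] at h3
    exact_mod_cast h3
  have h2 := h X Y hYY0 hYX q hq hqY a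
  calc th (PR X Y) lw q a
      ≤ (((PR X Y).filter (fun p => p ≡ a [MOD q])).card : ℝ) * (2 * Real.log X) := h1
    _ ≤ (C * Y / ((q.totient : ℝ) * Real.log Y)) * (2 * (Real.log Y / η)) := by
        apply mul_le_mul h2 _ (by positivity) (by positivity)
        have : Real.log X ≤ Real.log Y / η := by rw [le_div_iff₀ hη]; linarith
        linarith
    _ = (2 * C / η) * Y / (q.totient : ℝ) := by
        field_simp
    _ ≤ max 1 (2 * C / η) * Y / (q.totient : ℝ) := by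
        gcongr
        exact le_max_right _ _

lemma sum_inv_phi (Q : ℕ) (hQ : 0 < Q) :
    ∑ q ∈ Icc 1 Q, 1 / (q.totient : ℝ) ≤ 9 * (1 + Real.log Q) := by
  have h1 : ∀ q ∈ Icc 1 Q, 1 / (q.totient : ℝ) = ∑ r ∈ q.divisors,
      (1 / ((q / r : ℕ) : ℝ)) * ((1 / (r : ℝ)) * (if Squarefree r then 1 / (r.totient : ℝ) else 0)) := by
    intro q hq
    rw [mem_Icc] at hq
    have hq0 : (0 : ℝ) < q := by
      have : 0 < q := by omega
      exact_mod_cast this
    have h4 : ∑ k ∈ q.divisors.filter Squarefree, (1 / (k.totient : ℝ)) =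
      (q : ℝ) / (q.totient : ℝ) := Pool.Agent.Lib.MP391708.QPA.SELB.sum_sqf q (by omega)
    have h5 : 1 / (q.totient : ℝ) = (1 / (q : ℝ)) * ((q : ℝ) / (q.totient : ℝ)) := by
      field_simp
    rw [h5, ← h4, Finset.sum_filter, Finset.mul_sum]
    refine Finset.sum_congr rfl fun r hr => ?_
    rw [Nat.mem_divisors] at hr
    obtain ⟨d, hd⟩ := hr.1
    have hr0 : 0 < r := Nat.pos_of_ne_zero (by rintro rfl; simp at hd; omega)
    rw [hd, Nat.mul_div_cancel_left d hr0, ← mul_assoc]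
    congr 1
    rw [one_div_mul_one_div]
    push_cast
    rw [mul_comm (d : ℝ)]
  rw [Finset.sum_congr rfl h1, sum_hyp Q (fun r m => (1 / (m : ℝ)) * ((1 / (r : ℝ)) *
    (if Squarefree r then 1 / (r.totient : ℝ) else 0)))]
  have h2 : ∀ m ∈ Icc 1 Q, ∑ r ∈ Icc 1 (Q / m), (1 / (m : ℝ)) * ((1 / (r : ℝ)) *
    (if Squarefree r then 1 / (r.totient : ℝ) else 0)) ≤ 9 * (1 / (m : ℝ)) := by
    intro m _
    rw [← Finset.mul_sum, mul_comm]
    apply mul_le_mul_of_nonneg_right _ (by positivity)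
    have h3 : ∑ r ∈ Icc 1 (Q / m), (1 / (r : ℝ)) * (if Squarefree r then 1 / (r.totient : ℝ) else 0) ≤
        ∑ r ∈ Icc 1 (1 + Q), (1 / (r : ℝ)) * (1 / (r.totient : ℝ)) := by
      have h3a : ∑ r ∈ Icc 1 (Q / m), (1 / (r : ℝ)) *
          (if Squarefree r then 1 / (r.totient : ℝ) else 0) ≤
          ∑ r ∈ Icc 1 (Q / m), (1 / (r : ℝ)) * (1 / (r.totient : ℝ)) := by
        refine Finset.sum_le_sum fun r _ => ?_
        have : (if Squarefree r then 1 / (r.totient : ℝ) else 0) ≤ 1 / (r.totient : ℝ) := by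
          split_ifs
          · exact le_rfl
          · positivity
        gcongr
      refine h3a.trans ?_
      apply Finset.sum_le_sum_of_subset_of_nonneg
      · intro x hx
        rw [mem_Icc] at hx ⊢
        have := Nat.div_le_self Q m
        omega
      · intro r _ _
        positivity
    refine h3.trans ?_
    have h4 : Icc 1 (1 + Q) = insert 1 (Ioc 1 (1 + Q)) := by
      ext x; rw [mem_insert, mem_Icc, mem_Ioc]; omega
    rw [h4, Finset.sum_insert (by rw [mem_Ioc]; omega)]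
    have h5 : ∑ r ∈ Ioc 1 (1 + Q), (1 / (r : ℝ)) * (1 / (r.totient : ℝ)) ≤
        4 * ∑ r ∈ Ioc 1 (1 + Q), 1 / ((r : ℝ) * Real.sqrt r) := by
      rw [Finset.mul_sum]
      refine Finset.sum_le_sum fun r hr => ?_
      rw [mem_Ioc] at hr
      have hr0 : 0 < r := by omega
      have hr0' : (0 : ℝ) < r := by exact_mod_cast hr0
      have hs0 : 0 < Real.sqrt (r : ℝ) := Real.sqrt_pos.2 hr0'
      have hc := totient_ge r hr0
      have hd : 1 / (r.totient : ℝ) ≤ 4 / Real.sqrt r := by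
        rw [div_le_div_iff₀ (by linarith) hs0]
        linarith
      calc (1 / (r : ℝ)) * (1 / (r.totient : ℝ)) ≤ (1 / (r : ℝ)) * (4 / Real.sqrt r) := by gcongr
        _ = _ := by field_simp
    have h6 := tail_sum 1 Q one_pos
    have h7 : 0 ≤ 2 / Real.sqrt ((1 + Q : ℕ) : ℝ) := by positivity
    simp only [Nat.cast_one, Real.sqrt_one, div_one, Nat.totient_one, mul_one] at h6 ⊢
    linarith
  refine (Finset.sum_le_sum h2).trans ?_
  rw [← Finset.mul_sum]
  have := harm_le Q hQ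
  linarith

/-- divisor switching -/
lemma div_switch (Q s p p' : ℕ) (hne : p ≠ p') (h1 : p < p' + (s + 1) ^ 2)
    (h2 : p' < p + (s + 1) ^ 2) :
    ((Icc 1 Q).filter (fun q => p' ≡ p [MOD q])).card ≤
      2 * ((Icc 1 s).filter (fun q => p' ≡ p [MOD q])).card := by
  classical
  set h : ℕ := ((p : ℤ) - p').natAbs with hh
  have h0 : 0 < h := by omega
  have hs : h < (s + 1) ^ 2 := by omega
  have hiff : ∀ q : ℕ, p' ≡ p [MOD q] ↔ q ∣ h := by
    intro q
    rw [Nat.modEq_iff_dvd, hh, Int.natCast_dvd]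
  have e : ∀ t : ℕ, (Icc 1 t).filter (fun q => p' ≡ p [MOD q]) = (Icc 1 t).filter (fun q => q ∣ h) :=
    fun t => Finset.filter_congr fun q _ => hiff q
  rw [e Q, e s]
  have hsub : (Icc 1 Q).filter (fun q => q ∣ h) ⊆ (Icc 1 s).filter (fun q => q ∣ h) ∪
      ((Icc 1 s).filter (fun q => q ∣ h)).image (fun q => h / q) := by
    intro q hq
    rw [mem_filter, mem_Icc] at hq
    rw [mem_union, mem_filter, mem_Icc, mem_image]
    by_cases hqs : q ≤ s
    · left; exact ⟨⟨hq.1.1, hqs⟩, hq.2⟩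
    · right
      refine ⟨h / q, ?_, Nat.div_div_self hq.2 h0.ne'⟩
      rw [mem_filter, mem_Icc]
      refine ⟨⟨Nat.div_pos (Nat.le_of_dvd h0 hq.2) (by omega), ?_⟩, Nat.div_dvd_of_dvd hq.2⟩
      have h3 : h / q < s + 1 := by
        rw [Nat.div_lt_iff_lt_mul (by omega)]
        have : (s + 1) ^ 2 ≤ (s + 1) * q := by
          rw [pow_two]
          exact Nat.mul_le_mul_left _ (by omega)
        omega
      omega
  refine (Finset.card_le_card hsub).trans ((Finset.card_union_le _ _).trans ?_)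
  have := Finset.card_image_le (s := (Icc 1 s).filter (fun q => q ∣ h)) (f := fun q => h / q)
  omega

/-- the sum over all moduli by divisor switching -/
theorem switch (A : Finset ℕ) (w : ℕ → ℝ) (hw : ∀ p, 0 ≤ w p) (Q s : ℕ)
    (hA : ∀ p ∈ A, ∀ p' ∈ A, p < p' + (s + 1) ^ 2) :
    ∑ q ∈ Icc 1 Q, ∑ p ∈ A, w p * th A w q p ≤
      Q * ∑ p ∈ A, w p ^ 2 + 2 * ∑ q ∈ Icc 1 s, ∑ p ∈ A, w p * th A w q p := by
  have key : ∀ t : ℕ, ∑ q ∈ Icc 1 t, ∑ p ∈ A, w p * th A w q p =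
      ∑ p ∈ A, ∑ p' ∈ A, w p * w p' * (((Icc 1 t).filter (fun q => p' ≡ p [MOD q])).card : ℝ) := by
    intro t
    rw [Finset.sum_comm]
    refine Finset.sum_congr rfl fun p _ => ?_
    unfold th
    rw [← Finset.mul_sum]
    simp_rw [Finset.sum_filter]
    rw [Finset.sum_comm, Finset.mul_sum]
    refine Finset.sum_congr rfl fun p' _ => ?_
    rw [← Finset.sum_filter, Finset.sum_const, nsmul_eq_mul]
    ring
  rw [key Q, key s]
  have h1 : ∀ p ∈ A, ∑ p' ∈ A, w p * w p' * (((Icc 1 Q).filter (fun q => p' ≡ p [MOD q])).card : ℝ) ≤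
      Q * w p ^ 2 + 2 * ∑ p' ∈ A, w p * w p' *
        (((Icc 1 s).filter (fun q => p' ≡ p [MOD q])).card : ℝ) := by
    intro p hp
    have h2 : ∀ p' ∈ A, w p * w p' * (((Icc 1 Q).filter (fun q => p' ≡ p [MOD q])).card : ℝ) ≤
        (if p' = p then Q * w p ^ 2 else 0) + 2 * (w p * w p' *
          (((Icc 1 s).filter (fun q => p' ≡ p [MOD q])).card : ℝ)) := by
      intro p' hp'
      have hww : 0 ≤ w p * w p' := mul_nonneg (hw p) (hw p')
      by_cases h : p' = p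
      · rw [if_pos h, h]
        have h3 : (((Icc 1 Q).filter (fun q => p ≡ p [MOD q])).card : ℝ) ≤ Q := by
          have := Finset.card_filter_le (Icc 1 Q) (fun q => p ≡ p [MOD q])
          rw [Nat.card_Icc] at this
          exact_mod_cast this
        have h4 : 0 ≤ w p * w p := mul_nonneg (hw p) (hw p)
        have h5 : 0 ≤ 2 * (w p * w p * (((Icc 1 s).filter (fun q => p ≡ p [MOD q])).card : ℝ)) := by
          positivity
        nlinarith [mul_le_mul_of_nonneg_left h3 h4]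
      · rw [if_neg h, zero_add]
        have h3 := div_switch Q s p p' (Ne.symm h) (hA p hp p' hp') (hA p' hp' p hp)
        have h4 : (((Icc 1 Q).filter (fun q => p' ≡ p [MOD q])).card : ℝ) ≤
            2 * (((Icc 1 s).filter (fun q => p' ≡ p [MOD q])).card : ℝ) := by exact_mod_cast h3
        calc w p * w p' * (((Icc 1 Q).filter (fun q => p' ≡ p [MOD q])).card : ℝ)
            ≤ w p * w p' * (2 * (((Icc 1 s).filter (fun q => p' ≡ p [MOD q])).card : ℝ)) := by gcongr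
          _ = _ := by ring
    refine (Finset.sum_le_sum h2).trans ?_
    rw [Finset.sum_add_distrib, ← Finset.mul_sum, Finset.sum_ite_eq' A p, if_pos hp]
  refine (Finset.sum_le_sum h1).trans ?_
  rw [Finset.sum_add_distrib, ← Finset.mul_sum, ← Finset.mul_sum]

end Pool.Agent.Lib.MP_e2d58b_nt.VR
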