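import Pool.Agent.Lib.MP_e2d58b_nt.VR.Orth
import Pool.Agent.Lib.MP_391708_nt.QPA.WBa

/-!
# The variance modulo `q` in terms of the fractions with large reduced denominator
-/

set_option autoImplicit false

namespace Pool.Agent.Lib.MP_e2d58b_nt.VR

open Finset

lemma S_eq (A : Finset ℕ) (w : ℕ → ℝ) (N : ℕ) (hN : ∀ p ∈ A, p < N) (x : ℝ) :
    ∑ n ∈ range N, (if n ∈ A then (w n : ℂ) else 0) * Pool.Agent.Lib.MP_391708_nt.H20.ee (n * x)
      = S A w x := by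
  unfold S
  have h1 : A ⊆ range N := fun p hp => mem_range.2 (hN p hp)
  rw [← Finset.sum_subset h1 (f := fun n => (if n ∈ A then (w n : ℂ) else 0) *
    Pool.Agent.Lib.MP_391708_nt.H20.ee (n * x))]
  · refine Finset.sum_congr rfl fun p hp => ?_
    rw [if_pos hp]
    unfold Pool.Agent.Lib.MP_391708_nt.H20.ee
    congr 2
    push_cast
    ring
  · intro p _ hp
    rw [if_neg hp, zero_mul]

/-- Ramanujan sum and Cauchy-Schwarz -/
lemma ram (A : Finset ℕ) (w : ℕ → ℝ) (r : ℕ) (hr : Squarefree r) (hA : ∀ p ∈ A, p.Coprime r)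
    (α : ℝ) :
    ‖S A w α‖ ^ 2 ≤ (r.totient : ℝ) * ∑ a ∈ (range r).filter (fun a => a.Coprime r),
      ‖S A w (α + (a : ℝ) / (r : ℝ))‖ ^ 2 := by
  have hN : ∀ p ∈ A, p < A.sup id + 1 := fun p hp => Nat.lt_succ_of_le (Finset.le_sup (f := id) hp)
  have h := Pool.Agent.Lib.MP_391708_nt.H20.ram r hr (A.sup id + 1)
    (fun n => if n ∈ A then (w n : ℂ) else 0) (by
      intro n hn
      by_cases h : n ∈ A
      · exact hA n h
      · simp [h] at hn) α
  simp only [S_eq A w _ hN] at h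
  exact h

lemma S_zero (A : Finset ℕ) (w : ℕ → ℝ) : ‖S A w 0‖ ^ 2 = (∑ p ∈ A, w p) ^ 2 := by
  have : S A w 0 = ((∑ p ∈ A, w p : ℝ) : ℂ) := by
    unfold S
    push_cast
    simp
  rw [this, Complex.norm_real, Real.norm_eq_abs, sq_abs]

lemma T_ge (A : Finset ℕ) (w : ℕ → ℝ) (r : ℕ) (hr : Squarefree r) (hA : ∀ p ∈ A, p.Coprime r) :
    (∑ p ∈ A, w p) ^ 2 * (1 / (r.totient : ℝ)) ≤
      ∑ a ∈ (range r).filter (fun a => a.Coprime r), ‖S A w ((a : ℝ) / (r : ℝ))‖ ^ 2 := by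
  have h := ram A w r hr hA 0
  rw [S_zero] at h
  simp only [zero_add] at h
  have hpos : (0 : ℝ) < r.totient := by
    exact_mod_cast Nat.totient_pos.2 (Nat.pos_of_ne_zero hr.ne_zero)
  rw [mul_one_div, div_le_iff₀ hpos]
  linarith

lemma frac_red (b q : ℕ) (hq : 0 < q) :
    ((b / Nat.gcd b q : ℕ) : ℝ) / ((q / Nat.gcd b q : ℕ) : ℝ) = (b : ℝ) / (q : ℝ) := by
  have hg : 0 < Nat.gcd b q := Nat.gcd_pos_of_pos_right _ hq
  have hg' : ((Nat.gcd b q : ℕ) : ℝ) ≠ 0 := by exact_mod_cast hg.ne'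
  rw [Nat.cast_div (Nat.gcd_dvd_left b q) hg', Nat.cast_div (Nat.gcd_dvd_right b q) hg']
  exact div_div_div_cancel_right₀ hg' _ _

/-- the variance modulo `q` -/
theorem var_q (A : Finset ℕ) (w : ℕ → ℝ) (q : ℕ) (hq : 0 < q) (hA : ∀ p ∈ A, p.Coprime q)
    (R0 : ℕ) :
    (1 / (q : ℝ)) * ∑ b ∈ (range q).filter (fun b => R0 < q / Nat.gcd b q),
        ‖S A w ((b : ℝ) / (q : ℝ))‖ ^ 2
      - (∑ p ∈ A, w p) ^ 2 * ((1 / (q : ℝ)) * ∑ r ∈ q.divisors.filter (fun r => R0 < r),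
          1 / (r.totient : ℝ))
      ≤ ∑ p ∈ A, w p * th A w q p - (∑ p ∈ A, w p) ^ 2 / (q.totient : ℝ) := by
  have hq0 : (0 : ℝ) < q := by exact_mod_cast hq
  set θ : ℝ := ∑ p ∈ A, w p with hθ
  set G : ℕ → ℕ → ℝ := fun r a => if r ≤ R0 then ‖S A w ((a : ℝ) / (r : ℝ))‖ ^ 2 else 0 with hG
  have h0 := sum_range_split q hq G
  -- left side of h0
  have h1 : ∑ b ∈ range q, G (q / Nat.gcd b q) (b / Nat.gcd b q) =
      ∑ b ∈ (range q).filter (fun b => ¬ R0 < q / Nat.gcd b q), ‖S A w ((b : ℝ) / (q : ℝ))‖ ^ 2 := by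
    rw [Finset.sum_filter]
    refine Finset.sum_congr rfl fun b _ => ?_
    simp only [hG]
    rw [frac_red b q hq]
    by_cases h : q / Nat.gcd b q ≤ R0
    · rw [if_pos h, if_pos (by omega)]
    · rw [if_neg h, if_neg (by omega)]
  -- right side of h0
  have h2 : ∀ r ∈ q.divisors, (if r ≤ R0 ∧ Squarefree r then θ ^ 2 * (1 / (r.totient : ℝ)) else 0) ≤
      ∑ a ∈ (range r).filter (fun a => a.Coprime r), G r a := by
    intro r hr
    rw [Nat.mem_divisors] at hr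
    have hnn : 0 ≤ ∑ a ∈ (range r).filter (fun a => a.Coprime r), G r a := by
      apply Finset.sum_nonneg
      intro a _
      simp only [hG]
      split_ifs <;> positivity
    split_ifs with h
    · refine (T_ge A w r h.2 (fun p hp => (hA p hp).coprime_dvd_right hr.1)).trans (le_of_eq ?_)
      refine Finset.sum_congr rfl fun a _ => ?_
      simp only [hG, if_pos h.1]
    · exact hnn
  have h3 := Finset.sum_le_sum h2
  rw [← h0, h1] at h3
  have h4 : ∑ k ∈ q.divisors.filter Squarefree, (1 / (k.totient : ℝ)) = (q : ℝ) / (q.totient : ℝ) :=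
    Pool.Agent.Lib.MP391708.QPA.SELB.sum_sqf q hq
  have h5 : θ ^ 2 * ((q : ℝ) / (q.totient : ℝ)) - θ ^ 2 * ∑ r ∈ q.divisors.filter (fun r => R0 < r),
          1 / (r.totient : ℝ) ≤
      ∑ r ∈ q.divisors, (if r ≤ R0 ∧ Squarefree r then θ ^ 2 * (1 / (r.totient : ℝ)) else 0) := by
    rw [← h4, ← mul_sub, Finset.sum_filter, Finset.sum_filter, ← Finset.sum_sub_distrib,
      Finset.mul_sum]
    refine Finset.sum_le_sum fun r _ => ?_
    have hp : (0 : ℝ) ≤ 1 / (r.totient : ℝ) := by positivity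
    have hθ2 : 0 ≤ θ ^ 2 := sq_nonneg _
    by_cases ha : Squarefree r
    · by_cases hb : r ≤ R0
      · rw [if_pos ha, if_neg (by omega), if_pos ⟨hb, ha⟩, sub_zero]
      · rw [if_pos ha, if_pos (by omega), if_neg (by tauto), sub_self, mul_zero]
    · have hn : ¬ (r ≤ R0 ∧ Squarefree r) := fun h => ha h.2
      rw [if_neg ha, if_neg hn]
      split_ifs
      · nlinarith [mul_nonneg hθ2 hp]
      · simp
  have h6 := sum_norm_sq A w q hq
  rw [← Finset.sum_filter_add_sum_filter_not (range q) (fun b => R0 < q / Nat.gcd b q)] at h6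
  set B1 := ∑ b ∈ (range q).filter (fun b => R0 < q / Nat.gcd b q), ‖S A w ((b : ℝ) / (q : ℝ))‖ ^ 2
  set B2 := ∑ b ∈ (range q).filter (fun b => ¬ R0 < q / Nat.gcd b q),
    ‖S A w ((b : ℝ) / (q : ℝ))‖ ^ 2
  set D := ∑ r ∈ q.divisors.filter (fun r => R0 < r), 1 / (r.totient : ℝ)
  set V := ∑ p ∈ A, w p * th A w q p
  have h7 : θ ^ 2 * ((q : ℝ) / (q.totient : ℝ)) - θ ^ 2 * D ≤ B2 := h5.trans h3
  have h8 : V = (1 / (q : ℝ)) * (B1 + B2) := by
    rw [h6]
    field_simp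
  rw [h8]
  have h9 : θ ^ 2 / (q.totient : ℝ) = (1 / (q : ℝ)) * (θ ^ 2 * ((q : ℝ) / (q.totient : ℝ))) := by
    field_simp
  rw [h9]
  have h10 : 0 < 1 / (q : ℝ) := by positivity
  nlinarith [mul_le_mul_of_nonneg_left h7 h10.le]

lemma var_q_nonneg (A : Finset ℕ) (w : ℕ → ℝ) (q : ℕ) (hq : 0 < q) (hA : ∀ p ∈ A, p.Coprime q) :
    0 ≤ ∑ p ∈ A, w p * th A w q p - (∑ p ∈ A, w p) ^ 2 / (q.totient : ℝ) := by
  have h := var_q A w q hq hA q
  have h1 : (range q).filter (fun b => q < q / Nat.gcd b q) = ∅ := by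
    apply Finset.filter_eq_empty_iff.2
    intro b _
    have := Nat.div_le_self q (Nat.gcd b q)
    omega
  have h2 : q.divisors.filter (fun r => q < r) = ∅ := by
    apply Finset.filter_eq_empty_iff.2
    intro r hr
    have := Nat.divisor_le hr
    omega
  rw [h1, h2] at h
  simpa using h

/-- a crude lower bound for the totient function -/
lemma totient_ge (r : ℕ) (hr : 0 < r) : Real.sqrt r / 4 ≤ (r.totient : ℝ) := by
  have h := Pool.Agent.Lib.MP391708.QPA.WB.ratio_le r hr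
  have hr0 : (0 : ℝ) < r := by exact_mod_cast hr
  have hpos : (0 : ℝ) < r.totient := by exact_mod_cast Nat.totient_pos.2 hr
  have hs : ∀ n : ℕ, ∑ k ∈ Icc 1 n, 1 / Real.sqrt (k : ℝ) ≤ 2 * Real.sqrt n := by
    intro n
    induction n with
    | zero => simp
    | succ n ih =>
      rw [Finset.sum_Icc_succ_top (by omega)]
      have h1 : 1 / Real.sqrt ((n + 1 : ℕ) : ℝ) ≤ 2 * (Real.sqrt ((n + 1 : ℕ) : ℝ) - Real.sqrt n) := by
        have ha : 0 < Real.sqrt ((n + 1 : ℕ) : ℝ) := Real.sqrt_pos.2 (by positivity)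
        have hb : 0 ≤ Real.sqrt (n : ℝ) := Real.sqrt_nonneg _
        have hc : Real.sqrt ((n + 1 : ℕ) : ℝ) ^ 2 = n + 1 := by
          rw [Real.sq_sqrt (by positivity)]; push_cast; ring
        have hd : Real.sqrt (n : ℝ) ^ 2 = n := Real.sq_sqrt (by positivity)
        rw [div_le_iff₀ ha]
        nlinarith [sq_nonneg (Real.sqrt ((n + 1 : ℕ) : ℝ) - Real.sqrt n)]
      linarith
  have h1 : ∑ k ∈ r.divisors, 1 / Real.sqrt (k : ℝ) ≤ 2 * Real.sqrt r := by
    refine le_trans ?_ (hs r)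
    apply Finset.sum_le_sum_of_subset_of_nonneg
    · intro k hk
      rw [mem_Icc]
      exact ⟨Nat.pos_of_mem_divisors hk, Nat.divisor_le hk⟩
    · intro k _ _
      positivity
  have h2 : (r : ℝ) / (r.totient : ℝ) ≤ 4 * Real.sqrt r := by linarith
  rw [div_le_iff₀ hpos] at h2
  have h3 : Real.sqrt r * Real.sqrt r = r := Real.mul_self_sqrt hr0.le
  have h4 : 0 < Real.sqrt r := Real.sqrt_pos.2 hr0
  have h5 : Real.sqrt r * Real.sqrt r ≤ Real.sqrt r * (4 * (r.totient : ℝ)) := by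
    rw [h3]; linarith
  have h6 := le_of_mul_le_mul_left h5 h4
  linarith

lemma tail_sum (R0 n : ℕ) (hR : 0 < R0) :
    ∑ r ∈ Ioc R0 (R0 + n), 1 / ((r : ℝ) * Real.sqrt r) ≤
      2 / Real.sqrt R0 - 2 / Real.sqrt ((R0 + n : ℕ) : ℝ) := by
  induction n with
  | zero => simp
  | succ n ih =>
    rw [show R0 + (n + 1) = (R0 + n) + 1 by ring, Finset.sum_Ioc_succ_top (by omega)]
    set m := R0 + n with hm
    have hm0 : 0 < m := by omega
    have ha : 0 < Real.sqrt ((m + 1 : ℕ) : ℝ) := Real.sqrt_pos.2 (by positivity)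
    have hb : 0 < Real.sqrt (m : ℝ) := Real.sqrt_pos.2 (by exact_mod_cast hm0)
    have hc : Real.sqrt ((m + 1 : ℕ) : ℝ) ^ 2 = m + 1 := by
      rw [Real.sq_sqrt (by positivity)]; push_cast; ring
    have hd : Real.sqrt (m : ℝ) ^ 2 = m := Real.sq_sqrt (by positivity)
    set a := Real.sqrt ((m + 1 : ℕ) : ℝ)
    set b := Real.sqrt (m : ℝ)
    have hba : b ≤ a := by
      nlinarith
    have h1 : 1 / (((m + 1 : ℕ) : ℝ) * a) ≤ 2 / b - 2 / a := by
      have e : (((m + 1 : ℕ) : ℝ)) = a ^ 2 := by rw [hc]; push_cast; ring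
      rw [e, div_sub_div _ _ hb.ne' ha.ne', div_le_div_iff₀ (by positivity) (by positivity)]
      have h2 : (a - b) * (a + b) = 1 := by nlinarith
      have h3 : 1 ≤ (a - b) * (2 * a) := by nlinarith
      nlinarith [mul_pos ha hb, mul_pos (mul_pos ha ha) ha, mul_le_mul_of_nonneg_left h3
        (mul_pos ha ha).le]
    linarith

/-- the total error -/
lemma err_sum (Q R0 : ℕ) (hQ : 0 < Q) (hR : 0 < R0) :
    ∑ q ∈ Ioc (Q / 2) Q, (1 / (q : ℝ)) * ∑ r ∈ q.divisors.filter (fun r => R0 < r),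
      1 / (r.totient : ℝ) ≤ 16 / Real.sqrt R0 := by
  have hQ0 : (0 : ℝ) < Q := by exact_mod_cast hQ
  have h1 : ∀ q ∈ Ioc (Q / 2) Q, (1 / (q : ℝ)) * ∑ r ∈ q.divisors.filter (fun r => R0 < r),
      1 / (r.totient : ℝ) ≤ (2 / (Q : ℝ)) * ∑ r ∈ (Ioc R0 (R0 + Q)).filter (fun r => r ∣ q),
        1 / (r.totient : ℝ) := by
    intro q hq
    rw [mem_Ioc] at hq
    have hq0 : 0 < q := by omega
    have hq0' : (0 : ℝ) < q := by exact_mod_cast hq0
    have ha : 1 / (q : ℝ) ≤ 2 / (Q : ℝ) := by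
      rw [div_le_div_iff₀ hq0' hQ0]
      have : Q ≤ 2 * q := by omega
      have : (Q : ℝ) ≤ 2 * q := by exact_mod_cast this
      linarith
    have hb : q.divisors.filter (fun r => R0 < r) ⊆ (Ioc R0 (R0 + Q)).filter (fun r => r ∣ q) := by
      intro r hr
      rw [mem_filter, Nat.mem_divisors] at hr
      rw [mem_filter, mem_Ioc]
      have := Nat.le_of_dvd hq0 hr.1.1
      exact ⟨⟨hr.2, by omega⟩, hr.1.1⟩
    have hc := Finset.sum_le_sum_of_subset_of_nonneg hb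
      (f := fun r : ℕ => 1 / (r.totient : ℝ)) (fun r _ _ => by positivity)
    have hd : 0 ≤ ∑ r ∈ q.divisors.filter (fun r => R0 < r), 1 / (r.totient : ℝ) :=
      Finset.sum_nonneg fun r _ => by positivity
    exact mul_le_mul ha hc hd (by positivity)
  refine (Finset.sum_le_sum h1).trans ?_
  rw [← Finset.mul_sum]
  simp_rw [Finset.sum_filter]
  rw [Finset.sum_comm]
  have h2 : ∀ r ∈ Ioc R0 (R0 + Q), ∑ q ∈ Ioc (Q / 2) Q, (if r ∣ q then 1 / (r.totient : ℝ) else 0)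
      ≤ 4 * Q * (1 / ((r : ℝ) * Real.sqrt r)) := by
    intro r hr
    rw [mem_Ioc] at hr
    have hr0 : 0 < r := by omega
    have hr0' : (0 : ℝ) < r := by exact_mod_cast hr0
    rw [← Finset.sum_filter, Finset.sum_const, nsmul_eq_mul]
    have ha : ((Ioc (Q / 2) Q).filter (fun q => r ∣ q)).card ≤ Q / r := by
      have hs : (Ioc (Q / 2) Q).filter (fun q => r ∣ q) ⊆ (Ioc 0 Q).filter (fun q => r ∣ q) := by
        apply Finset.filter_subset_filter
        intro x hx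
        rw [mem_Ioc] at hx ⊢
        omega
      refine (Finset.card_le_card hs).trans (le_of_eq ?_)
      exact Nat.Ioc_filter_dvd_card_eq_div Q r
    have hb : (((Ioc (Q / 2) Q).filter (fun q => r ∣ q)).card : ℝ) ≤ (Q : ℝ) / r := by
      refine le_trans (by exact_mod_cast ha) Nat.cast_div_le
    have hc := totient_ge r hr0
    have hs0 : 0 < Real.sqrt (r : ℝ) := Real.sqrt_pos.2 hr0'
    have hd : 1 / (r.totient : ℝ) ≤ 4 / Real.sqrt r := by
      rw [div_le_div_iff₀ (by linarith) hs0]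
      linarith
    calc (((Ioc (Q / 2) Q).filter (fun q => r ∣ q)).card : ℝ) * (1 / (r.totient : ℝ))
        ≤ ((Q : ℝ) / r) * (4 / Real.sqrt r) := by
          apply mul_le_mul hb hd (by positivity) (by positivity)
      _ = 4 * Q * (1 / ((r : ℝ) * Real.sqrt r)) := by
          field_simp
  have h3 := Finset.sum_le_sum h2
  rw [← Finset.mul_sum] at h3
  have h4 := tail_sum R0 Q hR
  have h5 : 0 ≤ 2 / Real.sqrt ((R0 + Q : ℕ) : ℝ) := by positivity
  have h6 : ∑ r ∈ Ioc R0 (R0 + Q), 1 / ((r : ℝ) * Real.sqrt r) ≤ 2 / Real.sqrt R0 := by linarith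
  calc (2 / (Q : ℝ)) * ∑ r ∈ Ioc R0 (R0 + Q), ∑ q ∈ Ioc (Q / 2) Q,
        (if r ∣ q then 1 / (r.totient : ℝ) else 0)
      ≤ (2 / (Q : ℝ)) * (4 * Q * (2 / Real.sqrt R0)) := by
        apply mul_le_mul_of_nonneg_left _ (by positivity)
        exact h3.trans (mul_le_mul_of_nonneg_left h6 (by positivity))
    _ = 16 / Real.sqrt R0 := by
        field_simp
        ring

/-- the fractions with denominator in `(Q/2,Q]` and reduced denominator `> R0` -/
noncomputable def IS (A : Finset ℕ) (w : ℕ → ℝ) (Q R0 : ℕ) : ℝ :=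
  ∑ q ∈ Ioc (Q / 2) Q, ∑ b ∈ (range q).filter (fun b => R0 < q / Nat.gcd b q),
    ‖S A w ((b : ℝ) / (q : ℝ))‖ ^ 2

/-- the sum of the variances over all moduli -/
theorem var_total (A : Finset ℕ) (w : ℕ → ℝ) (Q R0 : ℕ) (hQ : 0 < Q) (hR : 0 < R0)
    (hA : ∀ q ∈ Icc 1 Q, ∀ p ∈ A, p.Coprime q) :
    (1 / (Q : ℝ)) * IS A w Q R0 - (∑ p ∈ A, w p) ^ 2 * (16 / Real.sqrt R0) ≤
      ∑ q ∈ Icc 1 Q, (∑ p ∈ A, w p * th A w q p - (∑ p ∈ A, w p) ^ 2 / (q.totient : ℝ)) := by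
  have hQ0 : (0 : ℝ) < Q := by exact_mod_cast hQ
  have h1 : ∑ q ∈ Ioc (Q / 2) Q, (∑ p ∈ A, w p * th A w q p - (∑ p ∈ A, w p) ^ 2 / (q.totient : ℝ))
      ≤ ∑ q ∈ Icc 1 Q, (∑ p ∈ A, w p * th A w q p - (∑ p ∈ A, w p) ^ 2 / (q.totient : ℝ)) := by
    apply Finset.sum_le_sum_of_subset_of_nonneg
    · intro q hq
      rw [mem_Ioc] at hq
      rw [mem_Icc]
      omega
    · intro q hq _
      exact var_q_nonneg A w q (by rw [mem_Icc] at hq; omega) (hA q hq)
  refine le_trans ?_ h1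
  have h2 := err_sum Q R0 hQ hR
  have h3 : ∀ q ∈ Ioc (Q / 2) Q,
      (1 / (Q : ℝ)) * ∑ b ∈ (range q).filter (fun b => R0 < q / Nat.gcd b q),
        ‖S A w ((b : ℝ) / (q : ℝ))‖ ^ 2
      - (∑ p ∈ A, w p) ^ 2 * ((1 / (q : ℝ)) * ∑ r ∈ q.divisors.filter (fun r => R0 < r),
          1 / (r.totient : ℝ)) ≤
      ∑ p ∈ A, w p * th A w q p - (∑ p ∈ A, w p) ^ 2 / (q.totient : ℝ) := by
    intro q hq
    rw [mem_Ioc] at hq
    have hq0 : 0 < q := by omega
    have hq0' : (0 : ℝ) < q := by exact_mod_cast hq0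
    refine le_trans ?_ (var_q A w q hq0 (hA q (by rw [mem_Icc]; omega)) R0)
    have h4 : 1 / (Q : ℝ) ≤ 1 / (q : ℝ) := by
      apply one_div_le_one_div_of_le hq0'
      exact_mod_cast hq.2
    have h5 : 0 ≤ ∑ b ∈ (range q).filter (fun b => R0 < q / Nat.gcd b q),
        ‖S A w ((b : ℝ) / (q : ℝ))‖ ^ 2 := Finset.sum_nonneg fun b _ => by positivity
    have := mul_le_mul_of_nonneg_right h4 h5
    linarith
  have h4 := Finset.sum_le_sum h3
  rw [Finset.sum_sub_distrib, ← Finset.mul_sum, ← Finset.mul_sum] at h4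
  have h5 : 0 ≤ (∑ p ∈ A, w p) ^ 2 := sq_nonneg _
  have h6 := mul_le_mul_of_nonneg_left h2 h5
  unfold IS
  linarith

end Pool.Agent.Lib.MP_e2d58b_nt.VR
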