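import Pool.Agent.Lib.MP_e2d58b_nt.VR.Arith

/-!
# Minor points are close to many fractions
-/

set_option autoImplicit false

namespace Pool.Agent.Lib.MP_e2d58b_nt.VR

open Finset

/-- the fractions `b/q` with `Q/2 < q ≤ Q` and reduced denominator `> R0` -/
def Idx (Q R0 : ℕ) : Finset ((_ : ℕ) × ℕ) :=
  (Ioc (Q / 2) Q).sigma (fun q => (range q).filter (fun b => R0 < q / Nat.gcd b q))

lemma IS_eq (A : Finset ℕ) (w : ℕ → ℝ) (Q R0 : ℕ) :
    IS A w Q R0 = ∑ x ∈ Idx Q R0, ‖S A w ((x.2 : ℝ) / (x.1 : ℝ))‖ ^ 2 := by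
  unfold IS Idx
  rw [Finset.sum_sigma]

/-- the radius of the major arcs -/
noncomputable def rad (Q : ℕ) : ℝ := 1 / (((Q / 8 : ℕ) : ℝ) + 1)

lemma rad_pos (Q : ℕ) : 0 < rad Q := by unfold rad; positivity

lemma rad_ge (Q : ℕ) (hQ : 8 ≤ Q) : 4 / (Q : ℝ) ≤ rad Q := by
  unfold rad
  have hQ0 : (0 : ℝ) < Q := by
    have : 0 < Q := by omega
    exact_mod_cast this
  rw [div_le_div_iff₀ hQ0 (by positivity)]
  have h1 : 8 * (Q / 8) ≤ Q := Nat.mul_div_le Q 8
  have h2 : (8 : ℝ) * ((Q / 8 : ℕ) : ℝ) ≤ Q := by exact_mod_cast h1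
  have h3 : (8 : ℝ) ≤ Q := by exact_mod_cast hQ
  linarith

lemma rad_le (Q : ℕ) (hQ : 0 < Q) : rad Q ≤ 8 / (Q : ℝ) := by
  unfold rad
  have hQ0 : (0 : ℝ) < Q := by exact_mod_cast hQ
  rw [div_le_div_iff₀ (by positivity) hQ0]
  have h1 : Q < 8 * (Q / 8 + 1) := by omega
  have h2 : (Q : ℝ) < 8 * (((Q / 8 : ℕ) : ℝ) + 1) := by exact_mod_cast h1
  linarith

/-- `α` is not close to a fraction with small denominator -/
def Minor (Q R0 : ℕ) (α : ℝ) : Prop :=
  ∀ r : ℕ, 1 ≤ r → r ≤ R0 → ∀ b : ℤ, rad Q < |α - (b : ℝ) / (r : ℝ)|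

theorem count (Q R0 : ℕ) (κ α : ℝ) (hκ : 0 < κ) (hκ1 : κ ≤ 1) (hQ : 16 ≤ Q)
    (hR : 12 / κ ≤ (R0 : ℝ)) (h0 : 0 ≤ α) (h1 : α ≤ 1) (hα : Minor Q R0 α) :
    κ * Q / 24 ≤ (((Idx Q R0).filter
      (fun x => |α - (x.2 : ℝ) / (x.1 : ℝ)| ≤ 2 * κ / Q)).card : ℝ) := by
  classical
  have hQ0 : 0 < Q := by omega
  have hQR : (16 : ℝ) ≤ Q := by exact_mod_cast hQ
  have hQR0 : (0 : ℝ) < Q := by linarith
  set T : ℕ := Q / 8 with hT
  have hT1 : 1 ≤ T := by omega
  have hR12 : (12 : ℝ) ≤ R0 := by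
    refine le_trans ?_ hR
    rw [le_div_iff₀ hκ]; linarith
  have hR0 : (0 : ℝ) < R0 := by linarith
  have hR1 : 1 ≤ R0 := by exact_mod_cast (by linarith : (1 : ℝ) ≤ R0)
  have hradge : 2 * κ / Q < rad Q := by
    refine lt_of_lt_of_le ?_ (rad_ge Q (by omega))
    apply div_lt_div_of_pos_right _ hQR0
    linarith
  -- Dirichlet
  obtain ⟨j, k, hk0, hkT, hjk⟩ := Real.exists_int_int_abs_mul_sub_le α (n := T) (by omega)
  obtain ⟨r, rfl⟩ : ∃ r : ℕ, k = (r : ℤ) := ⟨k.toNat, (Int.toNat_of_nonneg hk0.le).symm⟩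
  have hr0 : 0 < r := by exact_mod_cast hk0
  have hrT : r ≤ T := by exact_mod_cast hkT
  have hr0' : (0 : ℝ) < r := by exact_mod_cast hr0
  have hr1' : (1 : ℝ) ≤ r := by exact_mod_cast hr0
  have hjk' : |(r : ℝ) * α - j| ≤ 1 / ((T : ℝ) + 1) := by simpa using hjk
  have hT0 : (0 : ℝ) < (T : ℝ) + 1 := by positivity
  have hrR : R0 < r := by
    by_contra hc
    have h2 := hα r hr0 (by omega) j
    have h3 : |α - (j : ℝ) / (r : ℝ)| ≤ rad Q := by
      have e : α - (j : ℝ) / (r : ℝ) = ((r : ℝ) * α - j) / r := by field_simp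
      rw [e, abs_div, abs_of_pos hr0', div_le_iff₀ hr0']
      refine hjk'.trans ?_
      unfold rad
      rw [← hT]
      have : 0 < 1 / ((T : ℝ) + 1) := by positivity
      nlinarith
    linarith
  set m : ℕ := 3 * Q / 4 with hm
  set k0 : ℕ := m / r with hk0'
  set q1 : ℕ := k0 * r with hq1
  have hq1m : q1 ≤ m := Nat.div_mul_le_self m r
  have hq1g : m < q1 + r := by
    have := Nat.lt_div_mul_add (a := m) hr0
    rw [hq1, hk0']
    exact this
  have hk0R : (k0 : ℝ) ≤ (3 * Q / 4) / R0 := by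
    have ha : (k0 : ℝ) ≤ (m : ℝ) / r := Nat.cast_div_le
    have hb : (m : ℝ) ≤ 3 * Q / 4 := by
      have : 4 * m ≤ 3 * Q := by omega
      have : (4 : ℝ) * m ≤ 3 * Q := by exact_mod_cast this
      linarith
    have hc : (R0 : ℝ) ≤ r := by exact_mod_cast hrR.le
    refine ha.trans ?_
    calc (m : ℝ) / r ≤ (3 * Q / 4) / r := by gcongr
      _ ≤ (3 * Q / 4) / R0 := by gcongr
  have hq1α : |(q1 : ℝ) * α - ((k0 : ℤ) * j : ℤ)| ≤ κ / 2 := by
    have e : (q1 : ℝ) * α - ((k0 : ℤ) * j : ℤ) = k0 * ((r : ℝ) * α - j) := by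
      rw [hq1]; push_cast; ring
    rw [e, abs_mul, abs_of_nonneg (by positivity)]
    have hTQ : (Q : ℝ) / 8 ≤ (T : ℝ) + 1 := by
      have : Q ≤ 8 * (T + 1) := by omega
      have : (Q : ℝ) ≤ 8 * ((T : ℝ) + 1) := by exact_mod_cast this
      linarith
    calc (k0 : ℝ) * |(r : ℝ) * α - j| ≤ ((3 * Q / 4) / R0) * (1 / ((T : ℝ) + 1)) := by
          apply mul_le_mul hk0R hjk' (abs_nonneg _) (by positivity)
      _ ≤ ((3 * Q / 4) / R0) * (1 / ((Q : ℝ) / 8)) := by
          gcongr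
      _ = 6 / R0 := by field_simp; norm_num
      _ ≤ κ / 2 := by
          rw [div_le_iff₀ hκ] at hR
          rw [div_le_iff₀ hR0]
          linarith
  -- pigeonhole
  set M : ℕ := ⌈2 / κ⌉₊ with hM
  have hM2 : 2 / κ ≤ M := Nat.le_ceil _
  have hM0 : (0 : ℝ) < M := lt_of_lt_of_le (by positivity) hM2
  have hM0' : 0 < M := by exact_mod_cast hM0
  have hM3 : (M : ℝ) ≤ 3 / κ := by
    have ha := (Nat.ceil_lt_add_one (a := 2 / κ) (by positivity)).le
    refine ha.trans ?_
    have hb : 1 ≤ 1 / κ := by rw [le_div_iff₀ hκ]; linarith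
    have hc : 3 / κ = 2 / κ + 1 / κ := by ring
    linarith
  have hMi : 1 / (M : ℝ) ≤ κ / 2 := by
    rw [div_le_iff₀ hκ] at hM2
    rw [div_le_iff₀ hM0]
    linarith
  set f : ℕ → ℕ := fun h => ⌊(M : ℝ) * Int.fract ((h : ℝ) * α)⌋₊ with hf
  have hmaps : ∀ h ∈ range (Q / 4), f h ∈ range M := by
    intro h _
    rw [mem_range, hf]
    simp only
    rw [Nat.floor_lt (by positivity [Int.fract_nonneg ((h : ℝ) * α)])]
    have := Int.fract_lt_one ((h : ℝ) * α)
    nlinarith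
  obtain ⟨y, -, hy⟩ := Finset.exists_le_card_fiber_of_nsmul_le_card_of_maps_to
    (M := ℝ) (b := κ * Q / 24) hmaps ⟨0, mem_range.2 hM0'⟩ (by
      rw [card_range, card_range, nsmul_eq_mul]
      have ha : (Q : ℝ) / 8 ≤ ((Q / 4 : ℕ) : ℝ) := by
        have : Q ≤ 8 * (Q / 4) := by omega
        have : (Q : ℝ) ≤ 8 * ((Q / 4 : ℕ) : ℝ) := by exact_mod_cast this
        linarith
      refine le_trans ?_ ha
      calc (M : ℝ) * (κ * Q / 24) ≤ (3 / κ) * (κ * Q / 24) := by gcongr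
        _ = Q / 8 := by field_simp; norm_num)
  set Fb := (range (Q / 4)).filter (fun h => f h = y) with hFb
  refine hy.trans ?_
  have hFbne : Fb.Nonempty := by
    rw [← Finset.card_pos]
    have : (0 : ℝ) < Fb.card := lt_of_lt_of_le (by positivity) hy
    exact_mod_cast this
  set h₀ := Fb.min' hFbne with hh₀
  have hh₀m : h₀ ∈ Fb := Finset.min'_mem _ _
  have hcast : (Fb.card : ℝ) ≤ (((Idx Q R0).filter
      (fun x => |α - (x.2 : ℝ) / (x.1 : ℝ)| ≤ 2 * κ / Q)).card : ℝ) := by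
    norm_cast
    refine Finset.card_le_card_of_injOn
      (fun h => (⟨q1 + (h - h₀), ((k0 : ℤ) * j + ⌊(h : ℝ) * α⌋ - ⌊(h₀ : ℝ) * α⌋).toNat⟩ :
        (_ : ℕ) × ℕ)) ?_ ?_
    · intro h hh
      have hh' : h ∈ Fb := hh
      have hle : h₀ ≤ h := Finset.min'_le _ _ hh'
      have hh1 := hh'
      rw [hFb, mem_filter, mem_range] at hh1
      have hh2 := hh₀m
      rw [hFb, mem_filter, mem_range] at hh2
      set q : ℕ := q1 + (h - h₀) with hq
      set b : ℤ := (k0 : ℤ) * j + ⌊(h : ℝ) * α⌋ - ⌊(h₀ : ℝ) * α⌋ with hb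
      have hqQ : q ≤ Q := by omega
      have hqQ2 : Q / 2 < q := by omega
      have hq0 : 0 < q := by omega
      have hq0' : (0 : ℝ) < q := by exact_mod_cast hq0
      have hqb : |(q : ℝ) * α - b| ≤ κ := by
        have e : (q : ℝ) * α - b = ((q1 : ℝ) * α - ((k0 : ℤ) * j : ℤ)) +
            (Int.fract ((h : ℝ) * α) - Int.fract ((h₀ : ℝ) * α)) := by
          rw [hq, hb]
          unfold Int.fract
          push_cast [Nat.cast_sub hle]
          ring
        have h3 : |Int.fract ((h : ℝ) * α) - Int.fract ((h₀ : ℝ) * α)| ≤ κ / 2 := by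
          refine le_trans ?_ hMi
          have ha : f h = f h₀ := by rw [hh1.2, hh2.2]
          simp only [hf] at ha
          have hb1 := Nat.floor_le (a := (M : ℝ) * Int.fract ((h : ℝ) * α))
            (by positivity [Int.fract_nonneg ((h : ℝ) * α)])
          have hb2 := Nat.lt_floor_add_one ((M : ℝ) * Int.fract ((h : ℝ) * α))
          have hc1 := Nat.floor_le (a := (M : ℝ) * Int.fract ((h₀ : ℝ) * α))
            (by positivity [Int.fract_nonneg ((h₀ : ℝ) * α)])
          have hc2 := Nat.lt_floor_add_one ((M : ℝ) * Int.fract ((h₀ : ℝ) * α))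
          rw [ha] at hb1 hb2
          rw [abs_le, ← neg_div, div_le_iff₀ hM0, le_div_iff₀ hM0]
          constructor <;> nlinarith
        rw [e]
        refine (abs_add_le _ _).trans ?_
        linarith
      have hclose : |α - (b : ℝ) / q| ≤ 2 * κ / Q := by
        have e : α - (b : ℝ) / q = ((q : ℝ) * α - b) / q := by field_simp
        rw [e, abs_div, abs_of_pos hq0', div_le_div_iff₀ hq0' hQR0]
        have : (Q : ℝ) ≤ 2 * q := by
          have : Q ≤ 2 * q := by omega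
          exact_mod_cast this
        nlinarith [abs_nonneg ((q : ℝ) * α - b)]
      have hlt : |α - (b : ℝ) / q| < rad Q := lt_of_le_of_lt hclose hradge
      have hbpos : 0 < b := by
        by_contra hc
        push Not at hc
        have h3 := hα 1 le_rfl hR1 0
        have h4 : (b : ℝ) / q ≤ 0 := by
          apply div_nonpos_of_nonpos_of_nonneg _ hq0'.le
          exact_mod_cast hc
        simp only [Int.cast_zero, Nat.cast_one, div_one, sub_zero] at h3
        rw [abs_of_nonneg h0] at h3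
        rw [abs_of_nonneg (by linarith)] at hlt
        linarith
      have hbq : b < q := by
        by_contra hc
        push Not at hc
        have h3 := hα 1 le_rfl hR1 1
        have h4 : 1 ≤ (b : ℝ) / q := by
          rw [le_div_iff₀ hq0', one_mul]
          exact_mod_cast hc
        simp only [Int.cast_one, Nat.cast_one, div_one] at h3
        rw [abs_of_nonpos (by linarith)] at h3
        rw [abs_of_nonpos (by linarith)] at hlt
        linarith
      obtain ⟨b', hb'⟩ : ∃ b' : ℕ, b = (b' : ℤ) := ⟨b.toNat, (Int.toNat_of_nonneg hbpos.le).symm⟩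
      have hb'r : (b : ℝ) = (b' : ℝ) := by rw [hb']; simp
      have hb'q : b' < q := by
        have := hbq
        rw [hb'] at this
        exact_mod_cast this
      have htn : b.toNat = b' := by rw [hb']; simp
      simp only [Finset.coe_filter, Set.mem_ofPred_eq]
      rw [htn]
      refine ⟨?_, ?_⟩
      · unfold Idx
        rw [mem_sigma, mem_Ioc, mem_filter, mem_range]
        refine ⟨⟨hqQ2, hqQ⟩, hb'q, ?_⟩
        by_contra hc
        push Not at hc
        have hg : 0 < Nat.gcd b' q := Nat.gcd_pos_of_pos_right _ hq0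
        have h5 : 1 ≤ q / Nat.gcd b' q := Nat.div_pos (Nat.le_of_dvd hq0 (Nat.gcd_dvd_right _ _)) hg
        have h3 := hα (q / Nat.gcd b' q) h5 hc ((b' / Nat.gcd b' q : ℕ) : ℤ)
        have h4 := frac_red b' q hq0
        rw [Int.cast_natCast, h4, ← hb'r] at h3
        linarith
      · rw [← hb'r]
        exact hclose
    · intro h hh h' hh' heq
      have hle : h₀ ≤ h := Finset.min'_le _ _ hh
      have hle' : h₀ ≤ h' := Finset.min'_le _ _ hh'
      simp only [Sigma.mk.injEq] at heq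
      have := heq.1
      omega
  exact hcast

end Pool.Agent.Lib.MP_e2d58b_nt.VR
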