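import Pool.Agent.Lib.MP_cb27ba_nt.H71.LS
import Pool.Agent.Lib.MP_391708_nt.H20.Ram
import Pool.Agent.Lib.MP_391708_nt.QPA.Selb

/-!
# Sums over the residues modulo `q`, arranged by the reduced denominator; orthogonality
-/

set_option autoImplicit false

namespace Pool.Agent.Lib.MP_e2d58b_nt.VR

open Finset

/-- sum over the residues mod `q`, arranged by the reduced denominator -/
lemma sum_range_split (q : ℕ) (hq : 0 < q) (f : ℕ → ℕ → ℝ) :
    ∑ b ∈ range q, f (q / Nat.gcd b q) (b / Nat.gcd b q) =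
      ∑ r ∈ q.divisors, ∑ a ∈ (range r).filter (fun a => a.Coprime r), f r a := by
  rw [Finset.sum_sigma']
  refine Finset.sum_bij' (fun b _ => (⟨q / Nat.gcd b q, b / Nat.gcd b q⟩ : (_ : ℕ) × ℕ))
    (fun x _ => x.2 * (q / x.1)) ?_ ?_ ?_ ?_ ?_
  · intro b hb
    rw [mem_range] at hb
    have hg : 0 < Nat.gcd b q := Nat.gcd_pos_of_pos_right _ hq
    rw [mem_sigma, mem_filter, mem_range, Nat.mem_divisors]
    refine ⟨⟨Nat.div_dvd_of_dvd (Nat.gcd_dvd_right b q), hq.ne'⟩, ?_, ?_⟩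
    · exact Nat.div_lt_div_of_lt_of_dvd (Nat.gcd_dvd_right b q) hb
    · exact Nat.coprime_div_gcd_div_gcd hg
  · rintro ⟨r, a⟩ hx
    rw [mem_sigma, mem_filter, mem_range, Nat.mem_divisors] at hx
    obtain ⟨⟨hr, -⟩, ha, hc⟩ := hx
    simp only at hr ha hc ⊢
    obtain ⟨d, rfl⟩ := hr
    have hr0 : 0 < r := Nat.pos_of_ne_zero (by rintro rfl; simp at ha)
    have hd0 : 0 < d := Nat.pos_of_ne_zero (by rintro rfl; simp at hq)
    rw [mem_range, Nat.mul_div_cancel_left d hr0]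
    exact Nat.mul_lt_mul_of_pos_right ha hd0
  · intro b hb
    simp only
    have hg : 0 < Nat.gcd b q := Nat.gcd_pos_of_pos_right _ hq
    rw [Nat.div_div_self (Nat.gcd_dvd_right b q) hq.ne']
    exact Nat.div_mul_cancel (Nat.gcd_dvd_left b q)
  · rintro ⟨r, a⟩ hx
    rw [mem_sigma, mem_filter, mem_range, Nat.mem_divisors] at hx
    obtain ⟨⟨hr, -⟩, ha, hc⟩ := hx
    simp only at hr ha hc ⊢
    obtain ⟨d, rfl⟩ := hr
    have hr0 : 0 < r := Nat.pos_of_ne_zero (by rintro rfl; simp at ha)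
    have hd0 : 0 < d := Nat.pos_of_ne_zero (by rintro rfl; simp at hq)
    rw [Nat.mul_div_cancel_left d hr0]
    have h1 : Nat.gcd (a * d) (r * d) = d := by
      rw [Nat.gcd_mul_right, Nat.Coprime.gcd_eq_one hc, one_mul]
    rw [h1, Nat.mul_div_cancel _ hd0, Nat.mul_div_cancel _ hd0]
  · intro b hb
    rfl

/-- the exponential sum -/
noncomputable def S (A : Finset ℕ) (w : ℕ → ℝ) (x : ℝ) : ℂ :=
  ∑ p ∈ A, (w p : ℂ) * Complex.exp (2 * Real.pi * Complex.I * p * x)

lemma geom_zero (q : ℕ) (hq : 0 < q) (k : ℤ) :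
    ∑ b ∈ range q, Complex.exp (2 * Real.pi * Complex.I * k * ((b : ℝ) / (q : ℝ) : ℝ)) =
      if (q : ℤ) ∣ k then (q : ℂ) else 0 := by
  have hq0 : (q : ℂ) ≠ 0 := by exact_mod_cast hq.ne'
  set z : ℂ := Complex.exp (2 * Real.pi * Complex.I * k / q) with hz
  have h1 : ∀ b ∈ range q, Complex.exp (2 * Real.pi * Complex.I * k * ((b : ℝ) / (q : ℝ) : ℝ))
      = z ^ b := by
    intro b _
    rw [hz, ← Complex.exp_nat_mul]
    congr 1
    push_cast
    ring
  rw [Finset.sum_congr rfl h1]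
  have hpi : (2 * Real.pi * Complex.I : ℂ) ≠ 0 := Complex.two_pi_I_ne_zero
  split_ifs with h
  · obtain ⟨m, hm⟩ := h
    have : z = 1 := by
      rw [hz, Complex.exp_eq_one_iff]
      refine ⟨m, ?_⟩
      rw [hm]
      push_cast
      field_simp
    rw [this]
    simp
  · have hz1 : z ≠ 1 := by
      intro hh
      rw [hz, Complex.exp_eq_one_iff] at hh
      obtain ⟨m, hm⟩ := hh
      apply h
      refine ⟨m, ?_⟩
      have h2 : (k : ℂ) = q * m := by
        field_simp at hm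
        have h3 : (2 * Real.pi * Complex.I : ℂ) * k = (2 * Real.pi * Complex.I : ℂ) * (q * m) := by
          linear_combination (2 * Real.pi * Complex.I : ℂ) * hm
        exact mul_left_cancel₀ hpi h3
      exact_mod_cast h2
    have hzq : z ^ q = 1 := by
      rw [hz, ← Complex.exp_nat_mul, Complex.exp_eq_one_iff]
      refine ⟨k, ?_⟩
      field_simp
    rw [geom_sum_eq hz1, hzq]
    simp

end Pool.Agent.Lib.MP_e2d58b_nt.VR
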