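import Pool.Agent.Lib.MP_e2d58b_nt.VR.BtS

/-!
# The theorems for the primes in a short interval
-/

set_option autoImplicit false

namespace Pool.Agent.Lib.MP_e2d58b_nt.VR

open Finset

lemma dist_le {X Y : ℝ} (hY : 1 ≤ Y) (hYX : Y ≤ X) :
    ∀ p ∈ PR X Y, |(p : ℝ) - (⌊X⌋₊ : ℕ)| ≤ 2 * Y := by
  intro p hp
  rw [mem_PR] at hp
  have h1 := Nat.floor_le (show 0 ≤ X by linarith)
  have h2 := Nat.lt_floor_add_one X
  rw [abs_le]
  constructor <;> linarith [hp.2.1, hp.2.2]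

lemma cop {X Y : ℝ} (hYX : Y ≤ X) (Q : ℕ) (hQ : (Q : ℝ) ≤ Y) :
    ∀ q ∈ Icc 1 Q, ∀ p ∈ PR X Y, p.Coprime q := by
  intro q hq p hp
  rw [mem_PR] at hp
  rw [mem_Icc] at hq
  rw [Nat.Prime.coprime_iff_not_dvd hp.1]
  intro h
  have h1 := Nat.le_of_dvd (by omega) h
  have h2 : (p : ℝ) ≤ Q := by exact_mod_cast h1.trans hq.2
  linarith [hp.2.1]

lemma card_le {X Y : ℝ} (hY : 1 ≤ Y) (hYX : Y ≤ X) : ((PR X Y).card : ℝ) ≤ 4 * Y := by
  have hsub : PR X Y ⊆ Ioc ⌊X⌋₊ (⌊X⌋₊ + (⌈Y⌉₊ + 1)) := by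
    intro p hp
    rw [mem_PR] at hp
    rw [mem_Ioc]
    have hX0 : 0 ≤ X := by linarith
    refine ⟨?_, ?_⟩
    · have h2 : (⌊X⌋₊ : ℝ) < p := (Nat.floor_le hX0).trans_lt hp.2.1
      exact_mod_cast h2
    · have h2 : (p : ℝ) < ((⌊X⌋₊ + (⌈Y⌉₊ + 1) : ℕ) : ℝ) := by
        push_cast
        have h3 := Nat.lt_floor_add_one X
        have h4 := Nat.le_ceil Y
        linarith [hp.2.2]
      have : p < ⌊X⌋₊ + (⌈Y⌉₊ + 1) := by exact_mod_cast h2
      omega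
  have h1 := Finset.card_le_card hsub
  rw [Nat.card_Ioc] at h1
  have h2 : (PR X Y).card ≤ ⌈Y⌉₊ + 1 := by omega
  have h3 : ((PR X Y).card : ℝ) ≤ (⌈Y⌉₊ : ℝ) + 1 := by exact_mod_cast h2
  have := (Nat.ceil_lt_add_one (show 0 ≤ Y by linarith)).le
  linarith

lemma theta_sq {X Y : ℝ} (hY : 1 ≤ Y) (hYX : Y ≤ X) :
    (∑ p ∈ PR X Y, lw p) ^ 2 ≤ 2 * (2 * Y) * ∑ p ∈ PR X Y, lw p ^ 2 := by
  have h1 := sq_sum_le_card_mul_sum_sq (s := PR X Y) (f := lw)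
  have h2 := card_le hY hYX
  have h3 : 0 ≤ ∑ p ∈ PR X Y, lw p ^ 2 := Finset.sum_nonneg fun p _ => sq_nonneg _
  refine h1.trans ?_
  calc ((PR X Y).card : ℝ) * ∑ p ∈ PR X Y, lw p ^ 2 ≤ (4 * Y) * ∑ p ∈ PR X Y, lw p ^ 2 := by gcongr
    _ = _ := by ring

lemma M2_ge {X Y : ℝ} (hX : 1 ≤ X) :
    Real.log X * ∑ p ∈ PR X Y, lw p ≤ ∑ p ∈ PR X Y, lw p ^ 2 := by
  rw [Finset.mul_sum]
  refine Finset.sum_le_sum fun p hp => ?_
  rw [mem_PR] at hp
  rw [pow_two]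
  apply mul_le_mul_of_nonneg_right _ (lw_nonneg p)
  unfold lw
  exact Real.log_le_log (by linarith) hp.2.1.le

lemma M2_le {X Y : ℝ} (hX : 2 ≤ X) (hYX : Y ≤ X) :
    ∑ p ∈ PR X Y, lw p ^ 2 ≤ 2 * Real.log X * ∑ p ∈ PR X Y, lw p := by
  rw [Finset.mul_sum]
  refine Finset.sum_le_sum fun p hp => ?_
  rw [mem_PR] at hp
  rw [pow_two]
  apply mul_le_mul_of_nonneg_right _ (lw_nonneg p)
  unfold lw
  have hp0 : (0 : ℝ) < p := by exact_mod_cast hp.1.pos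
  have h2 : (p : ℝ) ≤ X ^ 2 := by nlinarith [hp.2.2]
  have h3 := Real.log_le_log hp0 h2
  rw [Real.log_pow] at h3
  exact_mod_cast h3

lemma th_one (A : Finset ℕ) (w : ℕ → ℝ) : th A w 1 1 = ∑ p ∈ A, w p := by
  unfold th
  congr 1
  exact Finset.filter_true_of_mem fun p _ => Nat.modEq_one

lemma local_expand (A : Finset ℕ) (w : ℕ → ℝ) (y : ℝ) (q : ℕ) (hq : 0 < q)
    (hA : ∀ p ∈ A, p.Coprime q) :
    ∑ a ∈ (Icc 1 q).filter (fun a => Nat.Coprime a q), (th A w q a - y / (q.totient : ℝ)) ^ 2 =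
      (∑ p ∈ A, w p * th A w q p - (∑ p ∈ A, w p) ^ 2 / (q.totient : ℝ)) +
      (∑ p ∈ A, w p - y) ^ 2 / (q.totient : ℝ) := by
  have hφ : (0 : ℝ) < q.totient := by exact_mod_cast Nat.totient_pos.2 hq
  have h1 : ∀ a, (th A w q a - y / (q.totient : ℝ)) ^ 2 =
      th A w q a ^ 2 - 2 * (y / q.totient) * th A w q a + (y / q.totient) ^ 2 := fun a => by ring
  simp_rw [h1]
  rw [Finset.sum_add_distrib, Finset.sum_sub_distrib, ← Finset.mul_sum,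
    sum_th_sq A w q _ (sys_cop A q hq hA), sum_th A w q _ (sys_cop A q hq hA), Finset.sum_const,
    nsmul_eq_mul, card_cop]
  field_simp
  ring

lemma floor_half {Q : ℝ} (hQ : 1 ≤ Q) : Q / 2 ≤ (⌊Q⌋₊ : ℝ) := by
  have h1 := Nat.lt_floor_add_one Q
  have h2 : (1 : ℝ) ≤ (⌊Q⌋₊ : ℝ) := by
    exact_mod_cast Nat.le_floor (by simpa using hQ)
  linarith

/-- choosing `X` large -/
lemma large_of {η : ℝ} (hη : 0 < η) (Y1 : ℝ) (hY1 : 0 ≤ Y1) {X Y : ℝ} (hX : Y1 ^ (1 / η) ≤ X)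
    (hY : X ^ η ≤ Y) : Y1 ≤ Y := by
  have h1 : (Y1 ^ (1 / η)) ^ η ≤ X ^ η := Real.rpow_le_rpow (by positivity) hX hη.le
  rw [← Real.rpow_mul hY1, one_div_mul_cancel hη.ne', Real.rpow_one] at h1
  linarith

/-- the lower bound -/
theorem lower (η : ℝ) (hη : 0 < η) (hη1 : η ≤ 1) : ∃ X0 : ℝ, 2 ≤ X0 ∧ ∀ X Y Q : ℝ, X0 ≤ X →
    X ^ η ≤ Y → Y ≤ X → Y ^ ((39 : ℝ) / 40) ≤ Q → Q ≤ Y →
    (η / 16000) * (Y * Q * Real.log X) ≤ V (PR X Y) lw Y ⌊Q⌋₊ := by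
  obtain ⟨N1, hN12, hN1⟩ := abs_lower
  set K : ℝ := N1 + 1 + 32 * 10 ^ 10 with hK
  have hN1R : (2 : ℝ) ≤ N1 := by exact_mod_cast hN12
  have hK0 : 1 ≤ K := by rw [hK]; linarith
  set Y1 : ℝ := (64 * K ^ 18) ^ ((40 : ℝ) / 3) with hY1
  have hY1pos : 0 ≤ Y1 := by positivity
  have hbase : (1 : ℝ) ≤ 64 * K ^ 18 := by
    have : (1 : ℝ) ≤ K ^ 18 := one_le_pow₀ hK0
    linarith
  have hY1ge : 64 * K ^ 18 ≤ Y1 := by
    rw [hY1]
    have h := Real.rpow_le_rpow_of_exponent_le hbase (show (1 : ℝ) ≤ 40 / 3 by norm_num)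
    rwa [Real.rpow_one] at h
  refine ⟨max 2 (Y1 ^ (1 / η)), le_max_left _ _, fun X Y Q hX hY hYX hYQ hQY => ?_⟩
  have hX2 : 2 ≤ X := le_trans (le_max_left _ _) hX
  have hYY1 : Y1 ≤ Y := large_of hη Y1 hY1pos (le_trans (le_max_right _ _) hX) hY
  have hK18 : (1 : ℝ) ≤ K ^ 18 := one_le_pow₀ hK0
  have hY64 : 64 ≤ Y := by linarith
  have hY0 : 0 < Y := by linarith
  have hX0 : 0 < X := by linarith
  have hlogX : 0 < Real.log X := Real.log_pos (by linarith)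
  have hlogXY : η * Real.log X ≤ Real.log Y := by
    have h1 := Real.log_le_log (by positivity) hY
    rwa [Real.log_rpow hX0] at h1
  -- size of Q
  have hQbig : 64 * K ^ 18 * Y ^ ((9 : ℝ) / 10) ≤ Q := by
    have h1 : 64 * K ^ 18 ≤ Y ^ ((3 : ℝ) / 40) := by
      have h2 : Y1 ^ ((3 : ℝ) / 40) ≤ Y ^ ((3 : ℝ) / 40) := Real.rpow_le_rpow hY1pos hYY1 (by norm_num)
      rw [hY1, ← Real.rpow_mul (by positivity)] at h2
      norm_num at h2
      exact h2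
    calc 64 * K ^ 18 * Y ^ ((9 : ℝ) / 10) ≤ Y ^ ((3 : ℝ) / 40) * Y ^ ((9 : ℝ) / 10) := by gcongr
      _ = Y ^ ((39 : ℝ) / 40) := by rw [← Real.rpow_add hY0]; norm_num
      _ ≤ Q := hYQ
  have hYp : (1 : ℝ) ≤ Y ^ ((9 : ℝ) / 10) := Real.one_le_rpow (by linarith) (by norm_num)
  have hQ64 : 64 ≤ Q := by nlinarith
  have hQ0 : 0 < Q := by linarith
  set Qn : ℕ := ⌊Q⌋₊ with hQn
  have hQnQ : (Qn : ℝ) ≤ Q := Nat.floor_le hQ0.le
  have hQn2 : Q / 2 ≤ (Qn : ℝ) := floor_half (by linarith)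
  have hQn16 : 16 ≤ Qn := by
    have : (16 : ℝ) ≤ Qn := by linarith
    exact_mod_cast this
  have hQn0 : (0 : ℝ) < Qn := by linarith
  have hcop := cop hYX Qn (hQnQ.trans hQY)
  set A := PR X Y with hA
  set θ : ℝ := ∑ p ∈ A, lw p with hθ
  have hθ0 : 0 ≤ θ := Finset.sum_nonneg fun p _ => lw_nonneg p
  have hVexp : V A lw Y Qn = ∑ q ∈ Icc 1 Qn, (∑ p ∈ A, lw p * th A lw q p - θ ^ 2 / (q.totient : ℝ)) +
      ∑ q ∈ Icc 1 Qn, (θ - Y) ^ 2 / (q.totient : ℝ) := by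
    unfold V
    rw [← Finset.sum_add_distrib]
    refine Finset.sum_congr rfl fun q hq => ?_
    exact local_expand A lw Y q (by rw [mem_Icc] at hq; omega) (hcop q hq)
  have hpart1 : 0 ≤ ∑ q ∈ Icc 1 Qn, (∑ p ∈ A, lw p * th A lw q p - θ ^ 2 / (q.totient : ℝ)) :=
    Finset.sum_nonneg fun q hq => var_q_nonneg A lw q (by rw [mem_Icc] at hq; omega) (hcop q hq)
  have hpart2 : 0 ≤ ∑ q ∈ Icc 1 Qn, (θ - Y) ^ 2 / (q.totient : ℝ) :=
    Finset.sum_nonneg fun q _ => by positivity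
  have hYQL : 0 ≤ Y * Q * Real.log X := by positivity
  rcases le_or_gt (Y / 2) θ with hc | hc
  · -- many primes
    set ρ : ℝ := 2 * Y / Qn with hρ
    set R0 : ℕ := max N1 ⌈2 * 10 ^ 10 * ρ ^ 2⌉₊ with hR0
    have hρ0 : 0 < ρ := by positivity
    have hR0c : (R0 : ℝ) ≤ K * Y ^ ((1 : ℝ) / 20) := by
      have h1 : ρ ≤ 4 * Y ^ ((1 : ℝ) / 40) := by
        rw [hρ, div_le_iff₀ hQn0]
        have h2 : Y = Y ^ ((1 : ℝ) / 40) * Y ^ ((39 : ℝ) / 40) := by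
          rw [← Real.rpow_add hY0]; norm_num
        have h3 : 0 < Y ^ ((1 : ℝ) / 40) := by positivity
        calc 2 * Y = 2 * (Y ^ ((1 : ℝ) / 40) * Y ^ ((39 : ℝ) / 40)) := by rw [← h2]
          _ ≤ 2 * (Y ^ ((1 : ℝ) / 40) * (2 * Qn)) := by
              gcongr
              linarith
          _ = _ := by ring
      have h2 : ρ ^ 2 ≤ 16 * Y ^ ((1 : ℝ) / 20) := by
        calc ρ ^ 2 ≤ (4 * Y ^ ((1 : ℝ) / 40)) ^ 2 := by gcongr
          _ = 16 * Y ^ ((1 : ℝ) / 20) := by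
              rw [mul_pow, ← Real.rpow_natCast (Y ^ ((1 : ℝ) / 40)), ← Real.rpow_mul hY0.le]
              norm_num
      have h3 : (1 : ℝ) ≤ Y ^ ((1 : ℝ) / 20) := Real.one_le_rpow (by linarith) (by norm_num)
      have h4 : (⌈2 * 10 ^ 10 * ρ ^ 2⌉₊ : ℝ) ≤ 2 * 10 ^ 10 * ρ ^ 2 + 1 :=
        (Nat.ceil_lt_add_one (by positivity)).le
      rw [hR0]
      push_cast
      have h5 : K ≤ K * Y ^ ((1 : ℝ) / 20) := le_mul_of_one_le_right (by linarith) h3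
      apply max_le
      · linarith
      · have h6 : (1 + 32 * 10 ^ 10) * Y ^ ((1 : ℝ) / 20) ≤ K * Y ^ ((1 : ℝ) / 20) := by
          apply mul_le_mul_of_nonneg_right _ (by linarith)
          linarith
        have h7 : 2 * 10 ^ 10 * ρ ^ 2 ≤ 2 * 10 ^ 10 * (16 * Y ^ ((1 : ℝ) / 20)) := by gcongr
        refine h4.trans ?_
        refine le_trans ?_ h6
        have h8 : 2 * 10 ^ 10 * ρ ^ 2 + 1 ≤
            2 * 10 ^ 10 * (16 * Y ^ ((1 : ℝ) / 20)) + Y ^ ((1 : ℝ) / 20) := add_le_add h7 h3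
        refine h8.trans (le_of_eq ?_)
        ring
    have hR18 : 16 * R0 ^ 18 < Qn := by
      have h1 : (R0 : ℝ) ^ 18 ≤ K ^ 18 * Y ^ ((9 : ℝ) / 10) := by
        calc (R0 : ℝ) ^ 18 ≤ (K * Y ^ ((1 : ℝ) / 20)) ^ 18 := by gcongr
          _ = K ^ 18 * Y ^ ((9 : ℝ) / 10) := by
              rw [mul_pow, ← Real.rpow_natCast (Y ^ ((1 : ℝ) / 20)), ← Real.rpow_mul hY0.le]
              norm_num
      have h2 : (16 : ℝ) * (R0 : ℝ) ^ 18 < Qn := by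
        have h3 : 0 < K ^ 18 * Y ^ ((9 : ℝ) / 10) := by positivity
        nlinarith
      exact_mod_cast h2
    have h1 := hN1 A lw ⌊X⌋₊ (2 * Y) Qn R0 (dist_le (by linarith) hYX) hcop hQn16 (by linarith)
      (le_max_left _ _) (by
        rw [← hρ, hR0]
        push_cast
        exact le_trans (Nat.le_ceil _) (le_max_right _ _)) hR18 (theta_sq (by linarith) hYX)
    have h2 := M2_ge (X := X) (Y := Y) (by linarith)
    rw [← hA, ← hθ] at h2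
    rw [hVexp]
    have h3 : Real.log X * (Y / 2) ≤ ∑ p ∈ A, lw p ^ 2 := by
      refine le_trans ?_ h2
      gcongr
    have h4 : (Qn : ℝ) / 4000 * (Real.log X * (Y / 2)) ≤ (Qn : ℝ) / 4000 * ∑ p ∈ A, lw p ^ 2 := by
      gcongr
    have h5 : 1 / 16000 * (Y * Q * Real.log X) ≤ (Qn : ℝ) / 4000 * (Real.log X * (Y / 2)) := by
      calc 1 / 16000 * (Y * Q * Real.log X) = (Q / 2) / 4000 * (Real.log X * (Y / 2)) := by ring
        _ ≤ (Qn : ℝ) / 4000 * (Real.log X * (Y / 2)) := by gcongr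
    have h6 : (η / 16000) * (Y * Q * Real.log X) ≤ 1 / 16000 * (Y * Q * Real.log X) := by
      apply mul_le_mul_of_nonneg_right _ hYQL
      linarith
    linarith
  · -- few primes
    rw [hVexp]
    have h1 : (Y / 2) ^ 2 ≤ (θ - Y) ^ 2 := by nlinarith
    have h2 : (Y / 2) ^ 2 * ∑ q ∈ Icc 1 Qn, 1 / (q : ℝ) ≤ ∑ q ∈ Icc 1 Qn, (θ - Y) ^ 2 / (q.totient : ℝ) := by
      rw [Finset.mul_sum]
      refine Finset.sum_le_sum fun q hq => ?_
      rw [mem_Icc] at hq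
      have hq0 : 0 < q := by omega
      have hφ : (0 : ℝ) < q.totient := by exact_mod_cast Nat.totient_pos.2 hq0
      have hφq : (q.totient : ℝ) ≤ q := by exact_mod_cast Nat.totient_le q
      rw [mul_one_div]
      gcongr
    have h3 := harm_ge Qn
    have h4 : Real.log Q ≤ Real.log ((Qn : ℝ) + 1) := by
      apply Real.log_le_log hQ0
      rw [hQn]
      exact (Nat.lt_floor_add_one Q).le
    have h5 : (39 / 40) * Real.log Y ≤ Real.log Q := by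
      have := Real.log_le_log (by positivity) hYQ
      rwa [Real.log_rpow hY0] at this
    have h6 : (39 / 40) * (η * Real.log X) ≤ ∑ q ∈ Icc 1 Qn, 1 / (q : ℝ) := by linarith
    have h7 : (Y / 2) ^ 2 * ((39 / 40) * (η * Real.log X)) ≤
        (Y / 2) ^ 2 * ∑ q ∈ Icc 1 Qn, 1 / (q : ℝ) := by gcongr
    have h8 : (η / 16000) * (Y * Q * Real.log X) ≤ (Y / 2) ^ 2 * ((39 / 40) * (η * Real.log X)) := by
      have h9 : (η / 16000) * (Y * Q * Real.log X) ≤ (η / 16000) * (Y * Y * Real.log X) := by gcongr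
      have h10 : 0 ≤ η * (Y * Y * Real.log X) := by positivity
      nlinarith
    linarith

/-- `M2 ≤ 2 B Y log X` -/
lemma M2_BY {X Y B : ℝ} (hX : 2 ≤ X) (hYX : Y ≤ X)
    (hB : ∀ q : ℕ, 1 ≤ q → (q : ℝ) ^ 2 ≤ Y → ∀ a : ℕ, th (PR X Y) lw q a ≤ B * Y / (q.totient : ℝ))
    (hY : 1 ≤ Y) : ∑ p ∈ PR X Y, lw p ^ 2 ≤ 2 * B * Y * Real.log X := by
  have h1 := hB 1 le_rfl (by simpa using hY) 1
  rw [th_one] at h1
  simp only [Nat.totient_one, Nat.cast_one, div_one] at h1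
  have hlogX : 0 < Real.log X := Real.log_pos (by linarith)
  refine (M2_le hX hYX).trans ?_
  calc 2 * Real.log X * ∑ p ∈ PR X Y, lw p ≤ 2 * Real.log X * (B * Y) := by gcongr
    _ = _ := by ring

lemma one_add_log {X Q : ℝ} (hX : Real.exp 1 ≤ X) (hQ : 1 ≤ Q) (hQX : Q ≤ X) :
    1 + Real.log (⌊Q⌋₊ : ℝ) ≤ 2 * Real.log X := by
  have h0 : 0 < Real.exp 1 := Real.exp_pos 1
  have h1 : 1 ≤ Real.log X := by
    have := Real.log_le_log h0 hX
    rwa [Real.log_exp] at this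
  have h2 : Real.log (⌊Q⌋₊ : ℝ) ≤ Real.log X := by
    apply Real.log_le_log
    · have : 1 ≤ ⌊Q⌋₊ := Nat.le_floor (by simpa using hQ)
      exact_mod_cast this
    · exact (Nat.floor_le (by linarith)).trans hQX
  linarith

/-- the upper bounds -/
theorem upper (η : ℝ) (hη : 0 < η) : ∃ C X0 : ℝ, 1 ≤ C ∧ 3 ≤ X0 ∧ ∀ X Y Q : ℝ, X0 ≤ X →
    X ^ η ≤ Y → Y ≤ X → 1 ≤ Q → Q ≤ Y →
    V (PR X Y) lw Y ⌊Q⌋₊ ≤ C * (Y * Q * Real.log X +
      Real.log X * Mj (PR X Y) lw Y ⌊Y / Q * Real.log X⌋₊) ∧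
    V (PR X Y) lw Y ⌊Q⌋₊ ≤ C * Y ^ 2 * Real.log X ∧
    ∀ z : ℝ, Y / Q * Real.log X ≤ z → ∀ QQ : Finset ℕ, QQ ⊆ Icc 1 ⌊Q⌋₊ →
      (∀ q ∈ QQ, ∀ p : ℕ, p.Prime → p ∣ q → z < (p : ℝ)) →
      ∑ q ∈ QQ, ∑ a ∈ (Icc 1 q).filter (fun a => Nat.Coprime a q),
        (th (PR X Y) lw q a - (∑ p ∈ PR X Y, lw p) / (q.totient : ℝ)) ^ 2 ≤
        C * (Y * Q * Real.log X) := by
  obtain ⟨B, X1, hB1, hX12, hB⟩ := bt_th η hη
  refine ⟨264 * B ^ 2, max X1 3, by nlinarith, le_max_right _ _,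
    fun X Y Q hX hY hYX hQ1 hQY => ?_⟩
  have hXX1 : X1 ≤ X := le_trans (le_max_left _ _) hX
  have hX3 : 3 ≤ X := le_trans (le_max_right _ _) hX
  have hX0 : 0 < X := by linarith
  have hexp : Real.exp 1 ≤ X := by
    have := Real.exp_one_lt_d9
    linarith
  have hlogX : 1 ≤ Real.log X := by
    have := Real.log_le_log (Real.exp_pos 1) hexp
    rwa [Real.log_exp] at this
  have hY1 : 1 ≤ Y := le_trans (Real.one_le_rpow (by linarith) hη.le) hY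
  have hY0 : 0 < Y := by linarith
  have hQ0 : 0 < Q := by linarith
  have hBB := hB X Y hXX1 hY hYX
  set A := PR X Y with hA
  have hM2 : ∑ p ∈ A, lw p ^ 2 ≤ 2 * B * Y * Real.log X := M2_BY (by linarith) hYX hBB hY1
  have hM20 : 0 ≤ ∑ p ∈ A, lw p ^ 2 := Finset.sum_nonneg fun p _ => sq_nonneg _
  set Qn : ℕ := ⌊Q⌋₊ with hQn
  have hQnQ : (Qn : ℝ) ≤ Q := Nat.floor_le hQ0.le
  have hQn1 : 1 ≤ Qn := Nat.le_floor (by simpa using hQ1)
  have hcop := cop hYX Qn (hQnQ.trans hQY)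
  have hlog := one_add_log hexp hQ1 (hQY.trans hYX)
  rw [← hQn] at hlog
  have hlogQ0 : 0 ≤ Real.log (Qn : ℝ) := Real.log_natCast_nonneg Qn
  have hBB2 : B ≤ B ^ 2 := by nlinarith
  -- the bound for large denominators
  have hbig : ∀ z : ℝ, Y / Q * Real.log X ≤ z → 0 < ⌊z⌋₊ ∧
      (4 * (Qn : ℝ) + (16 * (2 * Y) / (⌊z⌋₊ : ℝ)) * (1 + Real.log Qn)) * ∑ p ∈ A, lw p ^ 2 ≤
        264 * B * (Y * Q * Real.log X) := by
    intro z hz
    have hYQ1 : 1 ≤ Y / Q := by rw [le_div_iff₀ hQ0]; linarith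
    have hz1 : 1 ≤ z := by nlinarith
    have hz2 := floor_half hz1
    have hzn : 0 < ⌊z⌋₊ := Nat.lt_of_lt_of_le Nat.zero_lt_one (Nat.le_floor (by simpa using hz1))
    have hzn' : (0 : ℝ) < (⌊z⌋₊ : ℝ) := by exact_mod_cast hzn
    refine ⟨hzn, ?_⟩
    have h1 : 16 * (2 * Y) / (⌊z⌋₊ : ℝ) ≤ 64 * Q / Real.log X := by
      rw [div_le_div_iff₀ hzn' (by linarith)]
      have h2 : Y * Real.log X ≤ z * Q := by
        have : Y / Q * Real.log X * Q ≤ z * Q := by gcongr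
        have e : Y / Q * Real.log X * Q = Y * Real.log X := by field_simp
        linarith
      nlinarith
    have h2 : (16 * (2 * Y) / (⌊z⌋₊ : ℝ)) * (1 + Real.log Qn) ≤ 128 * Q := by
      calc (16 * (2 * Y) / (⌊z⌋₊ : ℝ)) * (1 + Real.log Qn)
          ≤ (64 * Q / Real.log X) * (2 * Real.log X) := by gcongr
        _ = 128 * Q := by field_simp; norm_num
    calc (4 * (Qn : ℝ) + (16 * (2 * Y) / (⌊z⌋₊ : ℝ)) * (1 + Real.log Qn)) * ∑ p ∈ A, lw p ^ 2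
        ≤ (4 * Q + 128 * Q) * (2 * B * Y * Real.log X) := by gcongr
      _ = _ := by ring
  have hYQL : 0 ≤ Y * Q * Real.log X := by positivity
  refine ⟨?_, ?_, ?_⟩
  · -- the two-sided formula, upper half
    obtain ⟨hR, h1⟩ := hbig _ le_rfl
    have h2 := V_le A lw Y ⌊X⌋₊ (2 * Y) (by linarith) (dist_le hY1 hYX) (theta_sq hY1 hYX)
      ⌊Y / Q * Real.log X⌋₊ Qn hR (by omega) hcop
    set M := Mj A lw Y ⌊Y / Q * Real.log X⌋₊ with hM
    have hM0 : 0 ≤ M := Mj_nonneg _ _ _ _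
    have h3 : 9 * (1 + Real.log Qn) * M ≤ 18 * Real.log X * M := by
      have : 9 * (1 + Real.log (Qn : ℝ)) ≤ 18 * Real.log X := by linarith
      gcongr
    have h4 : 18 * Real.log X * M ≤ 264 * B ^ 2 * (Real.log X * M) := by
      have h5 : 0 ≤ Real.log X * M := by positivity
      nlinarith
    have h6 : 264 * B * (Y * Q * Real.log X) ≤ 264 * B ^ 2 * (Y * Q * Real.log X) := by gcongr
    calc V A lw Y Qn ≤ 9 * (1 + Real.log Qn) * M + (4 * (Qn : ℝ) + (16 * (2 * Y) /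
          (⌊Y / Q * Real.log X⌋₊ : ℝ)) * (1 + Real.log Qn)) * ∑ p ∈ A, lw p ^ 2 := h2
      _ ≤ 264 * B ^ 2 * (Real.log X * M) + 264 * B ^ 2 * (Y * Q * Real.log X) := by linarith
      _ = _ := by ring
  · -- the trivial bound
    have hθB := hBB 1 le_rfl (by simpa using hY1) 1
    rw [th_one] at hθB
    simp only [Nat.totient_one, Nat.cast_one, div_one] at hθB
    set θ : ℝ := ∑ p ∈ A, lw p with hθ
    have hθ0 : 0 ≤ θ := Finset.sum_nonneg fun p _ => lw_nonneg p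
    set s : ℕ := ⌊Real.sqrt Y⌋₊ with hs
    have hs1 : 1 ≤ s := Nat.le_floor (by simpa using Real.one_le_sqrt.2 hY1)
    have hsY : (s : ℝ) ≤ Real.sqrt Y := Nat.floor_le (Real.sqrt_nonneg _)
    have hsq : ∀ q ∈ Icc 1 s, (q : ℝ) ^ 2 ≤ Y := by
      intro q hq
      rw [mem_Icc] at hq
      have h1 : (q : ℝ) ≤ Real.sqrt Y := le_trans (by exact_mod_cast hq.2) hsY
      calc (q : ℝ) ^ 2 ≤ Real.sqrt Y ^ 2 := by gcongr
        _ = Y := Real.sq_sqrt hY0.le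
    have hsw := switch A lw lw_nonneg Qn s (by
      intro p hp p' hp'
      rw [hA, mem_PR] at hp hp'
      have h1 : Y < ((s : ℝ) + 1) ^ 2 := by
        have h2 := Nat.lt_floor_add_one (Real.sqrt Y)
        rw [← hs] at h2
        calc Y = Real.sqrt Y ^ 2 := (Real.sq_sqrt hY0.le).symm
          _ < ((s : ℝ) + 1) ^ 2 := by gcongr
      have h2 : (p : ℝ) < p' + ((s : ℝ) + 1) ^ 2 := by linarith [hp.2.2, hp'.2.1]
      exact_mod_cast h2)
    -- V ≤ Σ Σ + Y² Σ 1/φ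
    have h1 : V A lw Y Qn ≤ ∑ q ∈ Icc 1 Qn, ∑ p ∈ A, lw p * th A lw q p +
        Y ^ 2 * ∑ q ∈ Icc 1 Qn, 1 / (q.totient : ℝ) := by
      unfold V
      rw [Finset.mul_sum, ← Finset.sum_add_distrib]
      refine Finset.sum_le_sum fun q hq => ?_
      rw [local_expand A lw Y q (by rw [mem_Icc] at hq; omega) (hcop q hq), ← hθ]
      have hφ : (0 : ℝ) < q.totient := by
        rw [mem_Icc] at hq
        exact_mod_cast Nat.totient_pos.2 (by omega)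
      have e : (∑ p ∈ A, lw p * th A lw q p - θ ^ 2 / (q.totient : ℝ)) + (θ - Y) ^ 2 / (q.totient : ℝ) =
          ∑ p ∈ A, lw p * th A lw q p + Y ^ 2 * (1 / (q.totient : ℝ)) -
            2 * θ * Y / (q.totient : ℝ) := by
        field_simp
        ring
      rw [e]
      have : 0 ≤ 2 * θ * Y / (q.totient : ℝ) := by positivity
      linarith
    have h2 : ∑ q ∈ Icc 1 s, ∑ p ∈ A, lw p * th A lw q p ≤
        (B * Y) ^ 2 * ∑ q ∈ Icc 1 s, 1 / (q.totient : ℝ) := by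
      rw [Finset.mul_sum]
      refine Finset.sum_le_sum fun q hq => ?_
      have h3 : ∀ p ∈ A, lw p * th A lw q p ≤ lw p * (B * Y / (q.totient : ℝ)) := by
        intro p _
        apply mul_le_mul_of_nonneg_left _ (lw_nonneg p)
        exact hBB q (by rw [mem_Icc] at hq; omega) (hsq q hq) p
      refine (Finset.sum_le_sum h3).trans ?_
      rw [← Finset.sum_mul, ← hθ]
      calc θ * (B * Y / (q.totient : ℝ)) ≤ (B * Y) * (B * Y / (q.totient : ℝ)) := by gcongr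
        _ = _ := by ring
    have h3 := sum_inv_phi s (by omega)
    have h4 := sum_inv_phi Qn (by omega)
    have h5 : 1 + Real.log (s : ℝ) ≤ 2 * Real.log X := by
      rw [hs]
      apply one_add_log hexp (Real.one_le_sqrt.2 hY1)
      have : Real.sqrt Y ≤ Y := by
        rw [Real.sqrt_le_left hY0.le]
        nlinarith
      linarith
    have h6 : ∑ q ∈ Icc 1 s, 1 / (q.totient : ℝ) ≤ 18 * Real.log X := by linarith
    have h7 : ∑ q ∈ Icc 1 Qn, 1 / (q.totient : ℝ) ≤ 18 * Real.log X := by linarith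
    have h8 : (Qn : ℝ) * ∑ p ∈ A, lw p ^ 2 ≤ Y * (2 * B * Y * Real.log X) := by
      have : (Qn : ℝ) ≤ Y := hQnQ.trans hQY
      gcongr
    have h9 : (B * Y) ^ 2 * ∑ q ∈ Icc 1 s, 1 / (q.totient : ℝ) ≤ (B * Y) ^ 2 * (18 * Real.log X) := by
      gcongr
    have h10 : Y ^ 2 * ∑ q ∈ Icc 1 Qn, 1 / (q.totient : ℝ) ≤ Y ^ 2 * (18 * Real.log X) := by
      gcongr
    have h11 : V A lw Y Qn ≤ Y * (2 * B * Y * Real.log X) + 2 * ((B * Y) ^ 2 * (18 * Real.log X)) +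
        Y ^ 2 * (18 * Real.log X) := by linarith
    refine h11.trans ?_
    have h12 : 0 ≤ Y ^ 2 * Real.log X := by positivity
    have e : Y * (2 * B * Y * Real.log X) + 2 * ((B * Y) ^ 2 * (18 * Real.log X)) +
        Y ^ 2 * (18 * Real.log X) = (2 * B + 36 * B ^ 2 + 18) * (Y ^ 2 * Real.log X) := by ring
    rw [e, mul_assoc]
    apply mul_le_mul_of_nonneg_right _ h12
    nlinarith
  · -- rough moduli
    intro z hz QQ hQQ hrough
    obtain ⟨hR, h1⟩ := hbig z hz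
    have hz0 : 0 ≤ z := le_trans (by positivity) hz
    have h2 := rough A lw ⌊X⌋₊ (2 * Y) (by linarith) (dist_le hY1 hYX) (theta_sq hY1 hYX)
      ⌊z⌋₊ Qn hR (by omega) hcop QQ hQQ (by
        intro q hq p hp hpq
        have h3 := hrough q hq p hp hpq
        have h4 : (⌊z⌋₊ : ℝ) < p := (Nat.floor_le hz0).trans_lt h3
        exact_mod_cast h4)
    refine h2.trans (h1.trans ?_)
    gcongr

/-- the lower half of the two-sided formula -/
theorem two_lower (η : ℝ) (hη : 0 < η) (hη1 : η ≤ 1) : ∃ X0 : ℝ, 3 ≤ X0 ∧ ∀ X Y Q : ℝ, X0 ≤ X →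
    X ^ η ≤ Y → Y ≤ X → Y ^ ((39 : ℝ) / 40) ≤ Q → Q ≤ Y →
    (η / 32000) * (Y * Q * Real.log X + Real.log X * Mj (PR X Y) lw Y ⌊Y / Q * Real.log X⌋₊) ≤
      V (PR X Y) lw Y ⌊Q⌋₊ := by
  obtain ⟨X1, hX1, h⟩ := lower η hη hη1
  set Y1 : ℝ := (8 / η) ^ (5 : ℕ) with hY1
  have hY1pos : 0 ≤ Y1 := by positivity
  refine ⟨max 3 (max X1 (Y1 ^ (1 / η))), le_max_left _ _, fun X Y Q hX hY hYX hYQ hQY => ?_⟩
  have hX3 : 3 ≤ X := le_trans (le_max_left _ _) hX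
  have hXX1 : X1 ≤ X := le_trans (le_trans (le_max_left _ _) (le_max_right _ _)) hX
  have hXX2 : Y1 ^ (1 / η) ≤ X := le_trans (le_trans (le_max_right _ _) (le_max_right _ _)) hX
  have hYY1 : Y1 ≤ Y := large_of hη Y1 hY1pos hXX2 hY
  have hX0 : 0 < X := by linarith
  have hY1' : 1 ≤ Y := le_trans (Real.one_le_rpow (by linarith) hη.le) hY
  have hY0 : 0 < Y := by linarith
  have hQ1 : 1 ≤ Q := le_trans (Real.one_le_rpow hY1' (by norm_num)) hYQ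
  have hQ0 : 0 < Q := by linarith
  have hlogX : 1 ≤ Real.log X := by
    have hexp : Real.exp 1 ≤ X := by
      have := Real.exp_one_lt_d9
      linarith
    have := Real.log_le_log (Real.exp_pos 1) hexp
    rwa [Real.log_exp] at this
  have hlogXY : η * Real.log X ≤ Real.log Y := by
    have h1 := Real.log_le_log (by positivity) hY
    rwa [Real.log_rpow hX0] at h1
  have h1 := h X Y Q hXX1 hY hYX hYQ hQY
  set Qn : ℕ := ⌊Q⌋₊ with hQn
  have hQnQ : (Qn : ℝ) ≤ Q := Nat.floor_le hQ0.le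
  have hQn1 : 1 ≤ Qn := Nat.le_floor (by simpa using hQ1)
  have hQn2 : Q / 2 ≤ (Qn : ℝ) := floor_half hQ1
  have hcop := cop hYX Qn (hQnQ.trans hQY)
  set R : ℝ := Y / Q * Real.log X with hR
  have hYQ1 : 1 ≤ Y / Q := by rw [le_div_iff₀ hQ0]; linarith
  have hR1 : 1 ≤ R := by nlinarith
  have hRn : 0 < ⌊R⌋₊ := Nat.lt_of_lt_of_le Nat.zero_lt_one (Nat.le_floor (by simpa using hR1))
  have hRn' : (0 : ℝ) < (⌊R⌋₊ : ℝ) := by exact_mod_cast hRn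
  have hRnR : (⌊R⌋₊ : ℝ) ≤ R := Nat.floor_le (by linarith)
  have h2 := V_ge (PR X Y) lw Y ⌊R⌋₊ Qn hRn (by omega) hcop
  set M := Mj (PR X Y) lw Y ⌊R⌋₊ with hM
  have hM0 : 0 ≤ M := Mj_nonneg _ _ _ _
  have h3 : (1 / 2) * Real.log Y ≤ Real.log ((Qn : ℝ) / (⌊R⌋₊ : ℝ)) := by
    have h4 : Y ^ ((1 : ℝ) / 2) ≤ (Qn : ℝ) / (⌊R⌋₊ : ℝ) := by
      rw [le_div_iff₀ hRn']
      have h5 : Real.log X ≤ (4 / η) * Y ^ ((1 : ℝ) / 4) := by
        have h6 : Real.log Y ≤ Y ^ ((1 : ℝ) / 4) / (1 / 4) :=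
          Real.log_le_rpow_div hY0.le (by norm_num)
        have h7 : Real.log X ≤ Real.log Y / η := by rw [le_div_iff₀ hη]; linarith
        calc Real.log X ≤ Real.log Y / η := h7
          _ ≤ (Y ^ ((1 : ℝ) / 4) / (1 / 4)) / η := by gcongr
          _ = _ := by ring
      have h6 : 8 / η ≤ Y ^ ((1 : ℝ) / 5) := by
        have h7 : Y1 ^ ((1 : ℝ) / 5) ≤ Y ^ ((1 : ℝ) / 5) := Real.rpow_le_rpow hY1pos hYY1 (by norm_num)
        rw [hY1, ← Real.rpow_natCast, ← Real.rpow_mul (by positivity)] at h7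
        norm_num at h7
        exact h7
      have h8 : Y / Q ≤ Y ^ ((1 : ℝ) / 40) := by
        rw [div_le_iff₀ hQ0]
        have h9 : Y = Y ^ ((1 : ℝ) / 40) * Y ^ ((39 : ℝ) / 40) := by
          rw [← Real.rpow_add hY0]; norm_num
        calc Y = Y ^ ((1 : ℝ) / 40) * Y ^ ((39 : ℝ) / 40) := h9
          _ ≤ Y ^ ((1 : ℝ) / 40) * Q := by gcongr
      have h9 : 2 * R ≤ Y ^ ((19 : ℝ) / 40) := by
        calc 2 * R = 2 * (Y / Q * Real.log X) := by rw [hR]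
          _ ≤ 2 * (Y ^ ((1 : ℝ) / 40) * ((4 / η) * Y ^ ((1 : ℝ) / 4))) := by gcongr
          _ = (8 / η) * (Y ^ ((1 : ℝ) / 40) * Y ^ ((1 : ℝ) / 4)) := by ring
          _ ≤ Y ^ ((1 : ℝ) / 5) * (Y ^ ((1 : ℝ) / 40) * Y ^ ((1 : ℝ) / 4)) := by gcongr
          _ = Y ^ ((19 : ℝ) / 40) := by
              rw [← Real.rpow_add hY0, ← Real.rpow_add hY0]; norm_num
      calc Y ^ ((1 : ℝ) / 2) * (⌊R⌋₊ : ℝ) ≤ Y ^ ((1 : ℝ) / 2) * (Y ^ ((19 : ℝ) / 40) / 2) := by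
            gcongr
            linarith
        _ = Y ^ ((39 : ℝ) / 40) / 2 := by
            rw [← mul_div_assoc, ← Real.rpow_add hY0]; norm_num
        _ ≤ Qn := by linarith
    have h5 := Real.log_le_log (by positivity) h4
    rwa [Real.log_rpow hY0] at h5
  have h4 : (η / 2) * Real.log X * M ≤ V (PR X Y) lw Y Qn := by
    refine le_trans ?_ h2
    apply mul_le_mul_of_nonneg_right _ hM0
    linarith
  have h5 : (η / 32000) * (Real.log X * M) ≤ (1 / 2) * ((η / 2) * Real.log X * M) := by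
    have : 0 ≤ η * (Real.log X * M) := by positivity
    nlinarith
  have e : (η / 32000) * (Y * Q * Real.log X + Real.log X * M) =
      (1 / 2) * ((η / 16000) * (Y * Q * Real.log X)) + (η / 32000) * (Real.log X * M) := by ring
  rw [e]
  linarith

end Pool.Agent.Lib.MP_e2d58b_nt.VR
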