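import Pool.Agent.Lib.MP_e2d58b_nt.VR.Mer

/-!
# The exact identity for the variance and the large sieve
-/

set_option autoImplicit false

namespace Pool.Agent.Lib.MP_e2d58b_nt.VR

open Finset

/-- the sum of `|S|²` over the reduced fractions with denominator `r` -/
noncomputable def T (A : Finset ℕ) (w : ℕ → ℝ) (r : ℕ) : ℝ :=
  ∑ b ∈ (range r).filter (fun b => b.Coprime r), ‖S A w ((b : ℝ) / (r : ℝ))‖ ^ 2

/-- the local discrepancy -/
noncomputable def E (A : Finset ℕ) (w : ℕ → ℝ) (y : ℝ) (r : ℕ) : ℝ :=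
  ∑ b ∈ (range r).filter (fun b => b.Coprime r),
    ‖S A w ((b : ℝ) / (r : ℝ)) - (ArithmeticFunction.moebius r : ℂ) * y / (r.totient : ℂ)‖ ^ 2

lemma T_nonneg (A : Finset ℕ) (w : ℕ → ℝ) (r : ℕ) : 0 ≤ T A w r :=
  Finset.sum_nonneg fun _ _ => by positivity

lemma E_nonneg (A : Finset ℕ) (w : ℕ → ℝ) (y : ℝ) (r : ℕ) : 0 ≤ E A w y r :=
  Finset.sum_nonneg fun _ _ => by positivity

lemma card_red (r : ℕ) : (((range r).filter (fun b => b.Coprime r)).card : ℝ) = r.totient := by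
  rw [Nat.totient_eq_card_coprime]
  congr 2
  exact Finset.filter_congr fun a _ => Nat.coprime_comm

/-- Ramanujan sums -/
lemma sum_S (A : Finset ℕ) (w : ℕ → ℝ) (r : ℕ) (hr : 0 < r) (hA : ∀ p ∈ A, p.Coprime r) :
    ∑ b ∈ (range r).filter (fun b => b.Coprime r), S A w ((b : ℝ) / (r : ℝ)) =
      (ArithmeticFunction.moebius r : ℂ) * ((∑ p ∈ A, w p : ℝ) : ℂ) := by
  unfold S
  rw [Finset.sum_comm]
  push_cast
  rw [Finset.mul_sum]
  refine Finset.sum_congr rfl fun p hp => ?_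
  have h2 : ∀ b ∈ (range r).filter (fun b => b.Coprime r),
      (w p : ℂ) * Complex.exp (2 * Real.pi * Complex.I * p * (((b : ℝ) / (r : ℝ) : ℝ) : ℂ)) =
      (w p : ℂ) * (Pool.Agent.Lib.MP_391708_nt.H20.ee ((b : ℝ) / (r : ℝ))) ^ p := by
    intro b _
    congr 1
    unfold Pool.Agent.Lib.MP_391708_nt.H20.ee
    rw [← Complex.exp_nat_mul]
    congr 1
    ring
  have h4 : ∀ b ∈ (range r).filter (fun b => b.Coprime r),
      (w p : ℂ) * Complex.exp (2 * Real.pi * Complex.I * p * ((b : ℂ) / (r : ℂ))) =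
      (w p : ℂ) * (Pool.Agent.Lib.MP_391708_nt.H20.ee ((b : ℝ) / (r : ℝ))) ^ p := by
    intro b hb
    rw [← h2 b hb]
    push_cast
    rfl
  rw [Finset.sum_congr rfl h4, ← Finset.mul_sum]
  have h3 := Pool.Agent.Lib.MP_391708_nt.H20.sum_coprime_eq r hr (fun z => z ^ p)
  rw [h3, Pool.Agent.Lib.MP_391708_nt.H20.sum_primitiveRoots_pow hr (hA p hp),
    Pool.Agent.Lib.MP_391708_nt.H20.sum_primitiveRoots r hr]
  ring

lemma E_eq (A : Finset ℕ) (w : ℕ → ℝ) (y : ℝ) (r : ℕ) (hr : 0 < r) (hA : ∀ p ∈ A, p.Coprime r) :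
    E A w y r = T A w r + (if Squarefree r then (1 / (r.totient : ℝ)) else 0) *
      (y ^ 2 - 2 * y * ∑ p ∈ A, w p) := by
  set θ : ℝ := ∑ p ∈ A, w p with hθ
  set m : ℝ := ((ArithmeticFunction.moebius r : ℤ) : ℝ) with hm
  have hφ : (0 : ℝ) < r.totient := by exact_mod_cast Nat.totient_pos.2 hr
  set k : ℝ := m * y / r.totient with hk
  have hkC : (ArithmeticFunction.moebius r : ℂ) * y / (r.totient : ℂ) = (k : ℂ) := by
    rw [hk, hm]; push_cast; rfl
  have h1 : ∀ z : ℂ, ‖z - (k : ℂ)‖ ^ 2 = ‖z‖ ^ 2 - 2 * k * z.re + k ^ 2 := by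
    intro z
    rw [← Complex.normSq_eq_norm_sq, ← Complex.normSq_eq_norm_sq, Complex.normSq_apply,
      Complex.normSq_apply]
    simp only [Complex.sub_re, Complex.sub_im, Complex.ofReal_re, Complex.ofReal_im]
    ring
  have h2 : (∑ b ∈ (range r).filter (fun b => b.Coprime r), (S A w ((b : ℝ) / (r : ℝ))).re) =
      m * θ := by
    have h3 := congrArg Complex.re (sum_S A w r hr hA)
    rw [Complex.re_sum] at h3
    rw [h3, ← hθ]
    have : (ArithmeticFunction.moebius r : ℂ) * (θ : ℂ) = ((m * θ : ℝ) : ℂ) := by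
      rw [hm]; push_cast; rfl
    rw [this, Complex.ofReal_re]
  have hm2 : m ^ 2 = if Squarefree r then 1 else 0 := by
    rw [hm]
    split_ifs with h
    · rw [ArithmeticFunction.moebius_apply_of_squarefree h]
      push_cast
      rw [← pow_mul, mul_comm, pow_mul]
      norm_num
    · rw [ArithmeticFunction.moebius_eq_zero_of_not_squarefree h]
      simp
  unfold E T
  rw [hkC]
  simp_rw [h1]
  rw [Finset.sum_add_distrib, Finset.sum_sub_distrib, ← Finset.mul_sum, h2, Finset.sum_const,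
    nsmul_eq_mul, card_red]
  have h5 : (r.totient : ℝ) * k ^ 2 = m ^ 2 * y ^ 2 / r.totient := by
    rw [hk]; field_simp
  have h6 : 2 * k * (m * θ) = m ^ 2 * (2 * y * θ) / r.totient := by
    rw [hk]; ring
  rw [h5, h6, hm2]
  split_ifs <;> ring

lemma E_one (A : Finset ℕ) (w : ℕ → ℝ) (y : ℝ) : E A w y 1 = (∑ p ∈ A, w p - y) ^ 2 := by
  rw [E_eq A w y 1 one_pos (fun p _ => Nat.coprime_one_right p)]
  have h1 : T A w 1 = (∑ p ∈ A, w p) ^ 2 := by
    unfold T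
    have : (range 1).filter (fun b => b.Coprime 1) = {0} := by decide
    rw [this, Finset.sum_singleton]
    simp only [Nat.cast_zero, zero_div]
    exact S_zero A w
  rw [h1, if_pos squarefree_one]
  simp
  ring

lemma E_le (A : Finset ℕ) (w : ℕ → ℝ) (y : ℝ) (r : ℕ) (hr : 0 < r) (hA : ∀ p ∈ A, p.Coprime r) :
    E A w y r ≤ T A w r + (1 / (r.totient : ℝ)) * (∑ p ∈ A, w p - y) ^ 2 := by
  rw [E_eq A w y r hr hA]
  have hp : (0 : ℝ) ≤ 1 / (r.totient : ℝ) := by positivity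
  split_ifs
  · have : y ^ 2 - 2 * y * ∑ p ∈ A, w p ≤ (∑ p ∈ A, w p - y) ^ 2 := by
      nlinarith [sq_nonneg (∑ p ∈ A, w p)]
    nlinarith [mul_le_mul_of_nonneg_left this hp]
  · have := mul_nonneg hp (sq_nonneg (∑ p ∈ A, w p - y))
    linarith

/-- the local identity -/
theorem local_ident (A : Finset ℕ) (w : ℕ → ℝ) (y : ℝ) (q : ℕ) (hq : 0 < q)
    (hA : ∀ p ∈ A, p.Coprime q) :
    ∑ a ∈ (Icc 1 q).filter (fun a => Nat.Coprime a q), (th A w q a - y / (q.totient : ℝ)) ^ 2 =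
      (1 / (q : ℝ)) * ∑ r ∈ q.divisors, E A w y r := by
  have hq0 : (0 : ℝ) < q := by exact_mod_cast hq
  have hφ : (0 : ℝ) < q.totient := by exact_mod_cast Nat.totient_pos.2 hq
  set θ : ℝ := ∑ p ∈ A, w p with hθ
  have h1 : ∀ a, (th A w q a - y / (q.totient : ℝ)) ^ 2 =
      th A w q a ^ 2 - 2 * (y / q.totient) * th A w q a + (y / q.totient) ^ 2 := fun a => by ring
  simp_rw [h1]
  rw [Finset.sum_add_distrib, Finset.sum_sub_distrib, ← Finset.mul_sum,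
    sum_th_sq A w q _ (sys_cop A q hq hA), sum_th A w q _ (sys_cop A q hq hA), Finset.sum_const,
    nsmul_eq_mul, card_cop]
  have h2 : ∑ r ∈ q.divisors, E A w y r = ∑ r ∈ q.divisors, T A w r +
      ((q : ℝ) / q.totient) * (y ^ 2 - 2 * y * θ) := by
    rw [Finset.sum_congr rfl (fun r hr => E_eq A w y r (Nat.pos_of_mem_divisors hr)
      (fun p hp => (hA p hp).coprime_dvd_right (Nat.dvd_of_mem_divisors hr))),
      Finset.sum_add_distrib, ← Finset.sum_mul, ← Finset.sum_filter]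
    have h4 : ∑ k ∈ q.divisors.filter Squarefree, (1 / (k.totient : ℝ)) =
      (q : ℝ) / (q.totient : ℝ) := Pool.Agent.Lib.MP391708.QPA.SELB.sum_sqf q hq
    rw [h4]
  have h3 : ∑ r ∈ q.divisors, T A w r = q * ∑ p ∈ A, w p * th A w q p := by
    rw [← sum_norm_sq A w q hq]
    have h := sum_range_split q hq (fun r a => ‖S A w ((a : ℝ) / (r : ℝ))‖ ^ 2)
    unfold T
    rw [← h]
    refine Finset.sum_congr rfl fun b _ => ?_
    rw [frac_red b q hq]
  rw [h2, h3]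
  field_simp
  ring

/-- the hyperbola -/
lemma sum_hyp (Q : ℕ) (f : ℕ → ℕ → ℝ) :
    ∑ q ∈ Icc 1 Q, ∑ r ∈ q.divisors, f r (q / r) = ∑ m ∈ Icc 1 Q, ∑ r ∈ Icc 1 (Q / m), f r m := by
  rw [Finset.sum_sigma', Finset.sum_sigma']
  refine Finset.sum_bij' (fun x _ => (⟨x.1 / x.2, x.2⟩ : (_ : ℕ) × ℕ))
    (fun x _ => (⟨x.1 * x.2, x.2⟩ : (_ : ℕ) × ℕ)) ?_ ?_ ?_ ?_ ?_
  · rintro ⟨q, r⟩ hx
    rw [mem_sigma, mem_Icc, Nat.mem_divisors] at hx
    obtain ⟨⟨h1, h2⟩, h3, h4⟩ := hx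
    simp only at h1 h2 h3 h4 ⊢
    obtain ⟨d, rfl⟩ := h3
    have hr : 0 < r := Nat.pos_of_ne_zero (by rintro rfl; simp at h4)
    have hd : 0 < d := Nat.pos_of_ne_zero (by rintro rfl; simp at h4)
    rw [mem_sigma, mem_Icc, mem_Icc]
    simp only
    rw [Nat.mul_div_cancel_left d hr]
    refine ⟨⟨hd, ?_⟩, hr, ?_⟩
    · nlinarith
    · rw [Nat.le_div_iff_mul_le hd]
      exact h2
  · rintro ⟨m, r⟩ hx
    rw [mem_sigma, mem_Icc, mem_Icc] at hx
    obtain ⟨⟨h1, h2⟩, h3, h4⟩ := hx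
    simp only at h1 h2 h3 h4 ⊢
    rw [Nat.le_div_iff_mul_le (by omega)] at h4
    rw [mem_sigma, mem_Icc, Nat.mem_divisors]
    simp only
    refine ⟨⟨Nat.mul_pos h1 h3, by rw [mul_comm]; exact h4⟩, Dvd.intro_left m rfl, ?_⟩
    exact (Nat.mul_pos h1 h3).ne'
  · rintro ⟨q, r⟩ hx
    rw [mem_sigma, mem_Icc, Nat.mem_divisors] at hx
    obtain ⟨⟨h1, h2⟩, h3, h4⟩ := hx
    simp only at h1 h2 h3 h4 ⊢
    rw [Nat.div_mul_cancel h3]
  · rintro ⟨m, r⟩ hx
    rw [mem_sigma, mem_Icc, mem_Icc] at hx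
    obtain ⟨⟨h1, h2⟩, h3, h4⟩ := hx
    simp only at h1 h2 h3 h4 ⊢
    rw [Nat.mul_div_cancel _ (by omega)]
  · rintro ⟨q, r⟩ _
    rfl

/-- the exact identity -/
theorem ident (A : Finset ℕ) (w : ℕ → ℝ) (y : ℝ) (Q : ℕ) (hA : ∀ q ∈ Icc 1 Q, ∀ p ∈ A, p.Coprime q) :
    ∑ q ∈ Icc 1 Q, ∑ a ∈ (Icc 1 q).filter (fun a => Nat.Coprime a q),
      (th A w q a - y / (q.totient : ℝ)) ^ 2 =
      ∑ m ∈ Icc 1 Q, (1 / (m : ℝ)) * ∑ r ∈ Icc 1 (Q / m), (1 / (r : ℝ)) * E A w y r := by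
  have h1 : ∀ q ∈ Icc 1 Q, ∑ a ∈ (Icc 1 q).filter (fun a => Nat.Coprime a q),
      (th A w q a - y / (q.totient : ℝ)) ^ 2 =
      ∑ r ∈ q.divisors, (1 / ((q / r : ℕ) : ℝ)) * ((1 / (r : ℝ)) * E A w y r) := by
    intro q hq
    rw [mem_Icc] at hq
    rw [local_ident A w y q (by omega) (hA q (by rw [mem_Icc]; exact hq)), Finset.mul_sum]
    refine Finset.sum_congr rfl fun r hr => ?_
    rw [Nat.mem_divisors] at hr
    obtain ⟨d, rfl⟩ := hr.1
    have hr0 : 0 < r := Nat.pos_of_ne_zero (by rintro rfl; simp at hr)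
    rw [Nat.mul_div_cancel_left d hr0]
    push_cast
    rw [← mul_assoc]
    congr 1
    rw [one_div_mul_one_div, mul_comm (d : ℝ)]
  rw [Finset.sum_congr rfl h1, sum_hyp Q (fun r m => (1 / (m : ℝ)) * ((1 / (r : ℝ)) * E A w y r))]
  refine Finset.sum_congr rfl fun m _ => ?_
  rw [Finset.mul_sum]

/-- the large sieve for Farey fractions -/
theorem lsf (A : Finset ℕ) (w : ℕ → ℝ) (n0 : ℕ) (L : ℝ) (hL0 : 0 < L)
    (hL : ∀ p ∈ A, |(p : ℝ) - n0| ≤ L)
    (hθ : (∑ p ∈ A, w p) ^ 2 ≤ 2 * L * ∑ p ∈ A, w p ^ 2) (R : ℕ) :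
    ∑ r ∈ Icc 1 R, T A w r ≤ ((R : ℝ) ^ 2 + 16 * L) * ∑ p ∈ A, w p ^ 2 := by
  set M2 : ℝ := ∑ p ∈ A, w p ^ 2 with hM2
  have hM20 : 0 ≤ M2 := Finset.sum_nonneg fun p _ => sq_nonneg _
  rcases Nat.eq_zero_or_pos R with rfl | hR
  · simp only [Nat.lt_one_iff, Finset.Icc_eq_empty_of_lt, Finset.sum_empty, zero_lt_one]
    positivity
  have hR0 : (0 : ℝ) < R := by exact_mod_cast hR
  have hR1 : (1 : ℝ) ≤ R := by exact_mod_cast hR
  have h1 : Icc 1 R = insert 1 (Icc 2 R) := by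
    ext x; rw [mem_insert, mem_Icc, mem_Icc]; omega
  rw [h1, Finset.sum_insert (by rw [mem_Icc]; omega)]
  have hT1 : T A w 1 ≤ 2 * L * M2 := by
    have : T A w 1 = (∑ p ∈ A, w p) ^ 2 := by
      unfold T
      have : (range 1).filter (fun b => b.Coprime 1) = {0} := by decide
      rw [this, Finset.sum_singleton]
      simp only [Nat.cast_zero, zero_div]
      exact S_zero A w
    rw [this]; exact hθ
  have h2 := Pool.Agent.Lib.MP_cb27ba_nt.H71.large_sieve (cc w n0) (AA A n0) hL0 (by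
      intro n hn
      unfold AA at hn
      rw [mem_image] at hn
      obtain ⟨p, hp, rfl⟩ := hn
      push_cast
      exact hL p hp) ((Icc 2 R).sigma (fun r => (range r).filter (fun b => b.Coprime r)))
    (fun x => (x.2 : ℝ) / (x.1 : ℝ)) (δ := 1 / (R : ℝ) ^ 2) (by positivity) (by
      rintro ⟨r, b⟩ hx ⟨r', b'⟩ hy hne
      rw [mem_sigma, mem_Icc, mem_filter, mem_range] at hx hy
      simp only at hx hy ⊢
      have hr0 : 0 < r := by omega
      have hr0' : 0 < r' := by omega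
      have hrR : (0 : ℝ) < r := by exact_mod_cast hr0
      have hrR' : (0 : ℝ) < r' := by exact_mod_cast hr0'
      have hne2 : (b : ℤ) * r' - b' * r ≠ 0 := by
        intro h
        have h3 : b * r' = b' * r := by
          have : (b : ℤ) * r' = b' * r := by linarith
          exact_mod_cast this
        have h4 : r ∣ r' := by
          have : r ∣ b * r' := by rw [h3]; exact Dvd.intro_left b' rfl
          exact (Nat.Coprime.dvd_of_dvd_mul_left hx.2.2.symm this)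
        have h5 : r' ∣ r := by
          have : r' ∣ b' * r := by rw [← h3]; exact Dvd.intro_left b rfl
          exact (Nat.Coprime.dvd_of_dvd_mul_left hy.2.2.symm this)
        have h6 : r = r' := Nat.dvd_antisymm h4 h5
        subst h6
        have h7 : b = b' := Nat.eq_of_mul_eq_mul_right hr0 h3
        exact hne (by rw [h7])
      have h8 : (1 : ℝ) ≤ |(((b : ℤ) * r' - b' * r : ℤ) : ℝ)| := by
        rw [← Int.cast_abs]
        exact_mod_cast Int.one_le_abs hne2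
      have h9 : (b : ℝ) / r - (b' : ℝ) / r' = (((b : ℤ) * r' - b' * r : ℤ) : ℝ) / (r * r') := by
        push_cast
        field_simp
      rw [h9, abs_div, abs_of_pos (by positivity : (0 : ℝ) < r * r')]
      have h10 : (r : ℝ) * r' ≤ (R : ℝ) ^ 2 := by
        have ha : (r : ℝ) ≤ R := by exact_mod_cast hx.1.2
        have hb : (r' : ℝ) ≤ R := by exact_mod_cast hy.1.2
        nlinarith
      rw [div_le_div_iff₀ (by positivity) (by positivity)]
      nlinarith) (by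
      rintro ⟨r, b⟩ hx
      rw [mem_sigma, mem_Icc, mem_filter, mem_range] at hx
      simp only at hx ⊢
      have hr0 : 0 < r := by omega
      have hrR : (0 : ℝ) < r := by exact_mod_cast hr0
      have hb1 : 1 ≤ b := by
        by_contra h
        have : b = 0 := by omega
        subst this
        have := hx.2.2
        rw [Nat.coprime_zero_left] at this
        omega
      have hb2 : b + 1 ≤ r := hx.2.1
      have hb1' : (1 : ℝ) ≤ b := by exact_mod_cast hb1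
      have hb2' : (b : ℝ) + 1 ≤ r := by exact_mod_cast hb2
      have hrR2 : (r : ℝ) ≤ R := by exact_mod_cast hx.1.2
      have h3 : 1 / (R : ℝ) ^ 2 / 2 ≤ 1 / (r : ℝ) := by
        rw [div_div, div_le_div_iff₀ (by positivity) hrR]
        nlinarith
      constructor
      · refine h3.trans ?_
        gcongr
      · have h4 : (b : ℝ) / r ≤ 1 - 1 / r := by
          rw [div_le_iff₀ hrR]
          field_simp
          linarith
        linarith)
  rw [Finset.sum_sigma] at h2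
  have h3 : ∀ r ∈ Icc 2 R, ∑ b ∈ (range r).filter (fun b => b.Coprime r),
      ‖Pool.Agent.Lib.MP_cb27ba_nt.H71.F (cc w n0) (AA A n0) ((b : ℝ) / (r : ℝ))‖ ^ 2 = T A w r := by
    intro r _
    unfold T
    refine Finset.sum_congr rfl fun b _ => ?_
    rw [norm_F]
  simp only at h2
  rw [Finset.sum_congr rfl h3] at h2
  have h4 : ∑ n ∈ AA A n0, ‖cc w n0 n‖ ^ 2 = M2 := by
    rw [sum_AA]
    refine Finset.sum_congr rfl fun p _ => ?_
    unfold cc
    simp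
  rw [h4, one_div_one_div] at h2
  have hpi : 4 * Real.pi * L ≤ 14 * L := by
    have := Real.pi_lt_d2
    nlinarith
  have h5 : ((R : ℝ) ^ 2 + 4 * Real.pi * L) * M2 ≤ ((R : ℝ) ^ 2 + 14 * L) * M2 := by
    gcongr
  linarith

/-- partial summation -/
theorem tailT (A : Finset ℕ) (w : ℕ → ℝ) (n0 : ℕ) (L : ℝ) (hL0 : 0 < L)
    (hL : ∀ p ∈ A, |(p : ℝ) - n0| ≤ L)
    (hθ : (∑ p ∈ A, w p) ^ 2 ≤ 2 * L * ∑ p ∈ A, w p ^ 2) (R0 n : ℕ) (hR0 : 0 < R0) :
    ∑ r ∈ Ioc R0 (R0 + n), (1 / (r : ℝ)) * T A w r ≤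
      (2 * ((R0 + n : ℕ) : ℝ) + 16 * L / R0) * ∑ p ∈ A, w p ^ 2 := by
  set M2 : ℝ := ∑ p ∈ A, w p ^ 2 with hM2
  have hM20 : 0 ≤ M2 := Finset.sum_nonneg fun p _ => sq_nonneg _
  have hR0' : (0 : ℝ) < R0 := by exact_mod_cast hR0
  have key : ∀ n : ℕ, ∑ r ∈ Ioc R0 (R0 + n), (1 / (r : ℝ)) * T A w r ≤
      (∑ r ∈ Icc 1 (R0 + n), T A w r) / ((R0 + n : ℕ) : ℝ) +
      (16 * L * (1 / R0 - 1 / ((R0 + n : ℕ) : ℝ)) + n) * M2 := by
    intro n
    induction n with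
    | zero =>
      simp only [add_zero, Ioc_self, sum_empty, sub_self, mul_zero, Nat.cast_zero, zero_mul]
      exact div_nonneg (Finset.sum_nonneg fun r _ => T_nonneg A w r) hR0'.le
    | succ n ih =>
      rw [show R0 + (n + 1) = (R0 + n) + 1 by ring, Finset.sum_Ioc_succ_top (by omega),
        Finset.sum_Icc_succ_top (by omega)]
      set m := R0 + n with hm
      have hm0 : 0 < m := by omega
      have hm0' : (0 : ℝ) < m := by exact_mod_cast hm0
      have hB := lsf A w n0 L hL0 hL hθ m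
      rw [← hM2] at hB
      set B := ∑ r ∈ Icc 1 m, T A w r with hBdef
      have e1 : (B + T A w (m + 1)) / ((m + 1 : ℕ) : ℝ) =
          B / m + (1 / ((m + 1 : ℕ) : ℝ)) * T A w (m + 1) - B / (m * (m + 1)) := by
        push_cast
        field_simp
        ring
      have h1 : B / ((m : ℝ) * (m + 1)) ≤
          (16 * L * (1 / (m : ℝ) - 1 / ((m + 1 : ℕ) : ℝ)) + 1) * M2 := by
        have e2 : 1 / (m : ℝ) - 1 / ((m + 1 : ℕ) : ℝ) = 1 / ((m : ℝ) * (m + 1)) := by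
          push_cast
          field_simp
          ring
        rw [e2]
        calc B / ((m : ℝ) * (m + 1)) ≤ (((m : ℝ) ^ 2 + 16 * L) * M2) / ((m : ℝ) * (m + 1)) := by
              gcongr
          _ = (16 * L * (1 / ((m : ℝ) * (m + 1))) + (m : ℝ) / (m + 1)) * M2 := by
              field_simp
              ring
          _ ≤ (16 * L * (1 / ((m : ℝ) * (m + 1))) + 1) * M2 := by
              have : (m : ℝ) / (m + 1) ≤ 1 := by
                rw [div_le_one (by linarith)]; linarith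
              gcongr
      rw [e1]
      have e3 : (16 * L * (1 / (R0 : ℝ) - 1 / ((m + 1 : ℕ) : ℝ)) + ((n + 1 : ℕ) : ℝ)) * M2 =
          (16 * L * (1 / (R0 : ℝ) - 1 / (m : ℝ)) + n) * M2 +
          (16 * L * (1 / (m : ℝ) - 1 / ((m + 1 : ℕ) : ℝ)) + 1) * M2 := by
        push_cast
        ring
      rw [e3]
      linarith
  refine (key n).trans ?_
  have hB := lsf A w n0 L hL0 hL hθ (R0 + n)
  rw [← hM2] at hB
  have hm0' : (0 : ℝ) < ((R0 + n : ℕ) : ℝ) := by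
    have : 0 < R0 + n := by omega
    exact_mod_cast this
  have h1 : (∑ r ∈ Icc 1 (R0 + n), T A w r) / ((R0 + n : ℕ) : ℝ) ≤
      (((R0 + n : ℕ) : ℝ) + 16 * L * (1 / ((R0 + n : ℕ) : ℝ))) * M2 := by
    rw [div_le_iff₀ hm0']
    refine hB.trans (le_of_eq ?_)
    field_simp
  have h2 : (n : ℝ) ≤ ((R0 + n : ℕ) : ℝ) := by push_cast; linarith
  have h3 : (n : ℝ) * M2 ≤ ((R0 + n : ℕ) : ℝ) * M2 := by gcongr
  have e : 16 * L / (R0 : ℝ) = 16 * L * (1 / R0) := by ring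
  rw [e]
  linarith

lemma harm_le (Q : ℕ) (hQ : 0 < Q) : ∑ m ∈ Icc 1 Q, 1 / (m : ℝ) ≤ 1 + Real.log Q := by
  have h := harmonic_le_one_add_log Q
  rw [harmonic_eq_sum_Icc] at h
  push_cast at h
  simpa [one_div] using h

lemma harm_ge (n : ℕ) : Real.log ((n : ℝ) + 1) ≤ ∑ m ∈ Icc 1 n, 1 / (m : ℝ) := by
  have h := log_add_one_le_harmonic n
  rw [harmonic_eq_sum_Icc] at h
  push_cast at h
  simpa [one_div] using h

lemma sq_sum (n : ℕ) : ∑ m ∈ Icc 1 n, 1 / ((m : ℝ) * m) ≤ 2 := by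
  have h : ∀ n : ℕ, ∑ m ∈ Icc 1 (n + 1), 1 / ((m : ℝ) * m) ≤ 2 - 1 / ((n : ℝ) + 1) := by
    intro n
    induction n with
    | zero => norm_num
    | succ n ih =>
      rw [Finset.sum_Icc_succ_top (by omega)]
      have : 1 / ((((n + 1 + 1 : ℕ) : ℝ)) * ((n + 1 + 1 : ℕ) : ℝ)) ≤
          1 / ((n : ℝ) + 1) - 1 / (((n + 1 : ℕ) : ℝ) + 1) := by
        push_cast
        rw [div_sub_div _ _ (by positivity) (by positivity),
          div_le_div_iff₀ (by positivity) (by positivity)]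
        nlinarith
      linarith
  rcases n with _ | n
  · simp
  · have h1 := h n
    have : 0 ≤ 1 / ((n : ℝ) + 1) := by positivity
    linarith

/-- large denominators -/
theorem large_den (A : Finset ℕ) (w : ℕ → ℝ) (n0 : ℕ) (L : ℝ) (hL0 : 0 < L)
    (hL : ∀ p ∈ A, |(p : ℝ) - n0| ≤ L)
    (hθ : (∑ p ∈ A, w p) ^ 2 ≤ 2 * L * ∑ p ∈ A, w p ^ 2) (R0 Q : ℕ) (hR0 : 0 < R0) (hQ : 0 < Q) :
    ∑ m ∈ Icc 1 Q, (1 / (m : ℝ)) * ∑ r ∈ Ioc R0 (Q / m), (1 / (r : ℝ)) * T A w r ≤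
      (4 * Q + (16 * L / R0) * (1 + Real.log Q)) * ∑ p ∈ A, w p ^ 2 := by
  set M2 : ℝ := ∑ p ∈ A, w p ^ 2 with hM2
  have hM20 : 0 ≤ M2 := Finset.sum_nonneg fun p _ => sq_nonneg _
  have hR0' : (0 : ℝ) < R0 := by exact_mod_cast hR0
  have h1 : ∀ m ∈ Icc 1 Q, (1 / (m : ℝ)) * ∑ r ∈ Ioc R0 (Q / m), (1 / (r : ℝ)) * T A w r ≤
      2 * Q * M2 * (1 / ((m : ℝ) * m)) + (16 * L / R0) * M2 * (1 / (m : ℝ)) := by
    intro m hm
    rw [mem_Icc] at hm
    have hm0 : (0 : ℝ) < m := by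
      have : 0 < m := by omega
      exact_mod_cast this
    have h2 : ∑ r ∈ Ioc R0 (Q / m), (1 / (r : ℝ)) * T A w r ≤
        (2 * ((Q : ℝ) / m) + 16 * L / R0) * M2 := by
      rcases Nat.lt_or_ge R0 (Q / m) with h | h
      · obtain ⟨n, hn⟩ := Nat.exists_eq_add_of_le h.le
        rw [hn]
        refine (tailT A w n0 L hL0 hL hθ R0 n hR0).trans ?_
        rw [← hn, ← hM2]
        have : ((Q / m : ℕ) : ℝ) ≤ (Q : ℝ) / m := Nat.cast_div_le
        gcongr
      · rw [Finset.Ioc_eq_empty (by omega), Finset.sum_empty]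
        positivity
    calc (1 / (m : ℝ)) * ∑ r ∈ Ioc R0 (Q / m), (1 / (r : ℝ)) * T A w r
        ≤ (1 / (m : ℝ)) * ((2 * ((Q : ℝ) / m) + 16 * L / R0) * M2) := by gcongr
      _ = _ := by field_simp
  refine (Finset.sum_le_sum h1).trans ?_
  rw [Finset.sum_add_distrib, ← Finset.mul_sum, ← Finset.mul_sum]
  have h3 := sq_sum Q
  have h4 := harm_le Q hQ
  have h5 : 2 * (Q : ℝ) * M2 * ∑ m ∈ Icc 1 Q, 1 / ((m : ℝ) * m) ≤ 2 * Q * M2 * 2 := by gcongr
  have h6 : 16 * L / R0 * M2 * ∑ m ∈ Icc 1 Q, 1 / (m : ℝ) ≤ 16 * L / R0 * M2 * (1 + Real.log Q) := by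
    gcongr
  calc 2 * (Q : ℝ) * M2 * ∑ m ∈ Icc 1 Q, 1 / ((m : ℝ) * m) + 16 * L / R0 * M2 *
        ∑ m ∈ Icc 1 Q, 1 / (m : ℝ) ≤ 2 * Q * M2 * 2 + 16 * L / R0 * M2 * (1 + Real.log Q) := by
        linarith
    _ = _ := by ring

end Pool.Agent.Lib.MP_e2d58b_nt.VR
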