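import Pool.Agent.Lib.MP_e2d58b_nt.VR.Count

/-!
# The exponential sum as a function on the circle
-/

set_option autoImplicit false

namespace Pool.Agent.Lib.MP_e2d58b_nt.VR

open Finset MeasureTheory intervalIntegral
open Pool.Agent.Lib.MP_cb27ba_nt.H71 (F hasDerivAt_F continuous_F parsevalF)

/-- Cauchy-Schwarz on an interval -/
lemma cs_interval {u : ℝ → ℝ} (hu : Continuous u) {a b : ℝ} (hab : a ≤ b) :
    (∫ x in a..b, u x) ^ 2 ≤ (b - a) * ∫ x in a..b, u x ^ 2 := by
  rcases hab.eq_or_lt with rfl | h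
  · simp
  set I : ℝ := ∫ x in a..b, u x with hI
  have hba : 0 < b - a := sub_pos.2 h
  set c : ℝ := I / (b - a) with hc
  have h1 : 0 ≤ ∫ x in a..b, (u x - c) ^ 2 :=
    intervalIntegral.integral_nonneg hab (fun x _ => sq_nonneg _)
  have h2 : ∫ x in a..b, (u x - c) ^ 2 = (∫ x in a..b, u x ^ 2) - 2 * c * I + c ^ 2 * (b - a) := by
    have e : ∀ x, (u x - c) ^ 2 = (u x ^ 2 - 2 * c * u x) + c ^ 2 := fun x => by ring
    simp_rw [e]
    rw [intervalIntegral.integral_add, intervalIntegral.integral_sub,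
      intervalIntegral.integral_const_mul, intervalIntegral.integral_const, smul_eq_mul, ← hI]
    · ring
    · exact (hu.pow 2).intervalIntegrable _ _
    · exact (hu.const_mul _).intervalIntegrable _ _
    · exact ((hu.pow 2).sub (hu.const_mul _)).intervalIntegrable _ _
    · exact continuous_const.intervalIntegrable _ _
  rw [h2] at h1
  have h3 : c * (b - a) = I := by rw [hc]; field_simp
  have h4 : 0 ≤ (b - a) * ((∫ x in a..b, u x ^ 2) - 2 * c * I + c ^ 2 * (b - a)) :=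
    mul_nonneg hba.le h1
  nlinarith

/-- the local inequality -/
lemma loc_ineq {g g' : ℝ → ℂ} (hg : ∀ x, HasDerivAt g (g' x) x) (hc : Continuous g')
    {α x δ : ℝ} (hx : |α - x| ≤ δ) :
    ‖g α - g x‖ ^ 2 ≤ δ * ∫ y in (α - δ)..(α + δ), ‖g' y‖ ^ 2 := by
  have hδ : 0 ≤ δ := (abs_nonneg _).trans hx
  have key : ∀ a b : ℝ, a ≤ b → α - δ ≤ a → b ≤ α + δ → b - a ≤ δ →
      ‖g b - g a‖ ^ 2 ≤ δ * ∫ y in (α - δ)..(α + δ), ‖g' y‖ ^ 2 := by
    intro a b hab ha hb hbδ
    have h1 : ∫ y in a..b, g' y = g b - g a :=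
      intervalIntegral.integral_eq_sub_of_hasDerivAt (fun y _ => hg y)
        (hc.intervalIntegrable _ _)
    have h2 : ‖g b - g a‖ ≤ ∫ y in a..b, ‖g' y‖ := by
      rw [← h1]
      exact intervalIntegral.norm_integral_le_integral_norm hab
    have h3 := cs_interval hc.norm hab
    have h4 : 0 ≤ ∫ y in a..b, ‖g' y‖ ^ 2 :=
      intervalIntegral.integral_nonneg hab (fun x _ => sq_nonneg _)
    have h5 : ∫ y in a..b, ‖g' y‖ ^ 2 ≤ ∫ y in (α - δ)..(α + δ), ‖g' y‖ ^ 2 :=
      intervalIntegral.integral_mono_interval ha hab hb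
        (Filter.Eventually.of_forall (fun y => sq_nonneg _)) ((hc.norm.pow 2).intervalIntegrable _ _)
    calc ‖g b - g a‖ ^ 2 ≤ (∫ y in a..b, ‖g' y‖) ^ 2 := by gcongr
      _ ≤ (b - a) * ∫ y in a..b, ‖g' y‖ ^ 2 := h3
      _ ≤ δ * ∫ y in a..b, ‖g' y‖ ^ 2 := by gcongr
      _ ≤ _ := by gcongr
  rw [abs_le] at hx
  rcases le_total x α with h | h
  · exact key x α h (by linarith) (by linarith) (by linarith)
  · rw [norm_sub_rev]
    exact key α x h (by linarith) (by linarith) (by linarith)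

/-- the mean of the local integrals -/
lemma mean_loc {u : ℝ → ℝ} (hu : Continuous u) (hp : ∀ x, u (x + 1) = u x) (δ : ℝ) :
    ∫ α in (0 : ℝ)..1, ∫ y in (α - δ)..(α + δ), u y = 2 * δ * ∫ y in (0 : ℝ)..1, u y := by
  set I : ℝ := ∫ y in (0 : ℝ)..1, u y with hI
  have hii : ∀ a b : ℝ, IntervalIntegrable u volume a b := fun a b => hu.intervalIntegrable a b
  set ψ : ℝ → ℝ := fun x => (∫ y in (0 : ℝ)..x, u y) - I * x with hψ
  have hψc : Continuous ψ := by
    apply Continuous.sub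
    · exact intervalIntegral.continuous_primitive hii 0
    · fun_prop
  have hper : Function.Periodic u 1 := hp
  have hψp : Function.Periodic ψ 1 := by
    intro x
    simp only [hψ]
    have h1 : ∫ y in (0 : ℝ)..(x + 1), u y = (∫ y in (0 : ℝ)..x, u y) + ∫ y in x..(x + 1), u y :=
      (intervalIntegral.integral_add_adjacent_intervals (hii _ _) (hii _ _)).symm
    have h2 : ∫ y in x..(x + 1), u y = I := by
      rw [hper.intervalIntegral_add_eq x 0, zero_add]
    rw [h1, h2]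
    ring
  have h1 : ∀ α : ℝ, ∫ y in (α - δ)..(α + δ), u y = ψ (α + δ) - ψ (α - δ) + 2 * δ * I := by
    intro α
    simp only [hψ]
    have : ∫ y in (α - δ)..(α + δ), u y = (∫ y in (0 : ℝ)..(α + δ), u y) -
        ∫ y in (0 : ℝ)..(α - δ), u y :=
      (intervalIntegral.integral_interval_sub_left (hii _ _) (hii _ _)).symm
    rw [this]
    ring
  simp_rw [h1]
  have hs : ∀ s : ℝ, ∫ α in (0 : ℝ)..1, ψ (α + s) = ∫ α in (0 : ℝ)..1, ψ α := by
    intro s
    rw [intervalIntegral.integral_comp_add_right (fun x => ψ x) s]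
    have := hψp.intervalIntegral_add_eq s 0
    rw [zero_add] at this
    rw [zero_add, add_comm 1 s, this]
  rw [intervalIntegral.integral_add, intervalIntegral.integral_sub, intervalIntegral.integral_const]
  · have h2 := hs δ
    have h3 := hs (-δ)
    simp only [← sub_eq_add_neg] at h3
    rw [h2, h3]
    simp
  · exact (hψc.comp (continuous_id.add continuous_const)).intervalIntegrable _ _
  · exact (hψc.comp (continuous_id.sub continuous_const)).intervalIntegrable _ _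
  · exact ((hψc.comp (continuous_id.add continuous_const)).sub
      (hψc.comp (continuous_id.sub continuous_const))).intervalIntegrable _ _
  · exact continuous_const.intervalIntegrable _ _

/-- shifted coefficients -/
noncomputable def cc (w : ℕ → ℝ) (n0 : ℕ) (n : ℤ) : ℂ := (w (n + n0).toNat : ℂ)

/-- shifted frequencies -/
def AA (A : Finset ℕ) (n0 : ℕ) : Finset ℤ := A.image (fun p : ℕ => (p : ℤ) - n0)

lemma sum_AA (A : Finset ℕ) (n0 : ℕ) {β : Type*} [AddCommMonoid β] (f : ℤ → β) :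
    ∑ n ∈ AA A n0, f n = ∑ p ∈ A, f ((p : ℤ) - n0) := by
  unfold AA
  rw [Finset.sum_image]
  intro a _ b _ h
  simp only at h
  omega

lemma norm_F (A : Finset ℕ) (w : ℕ → ℝ) (n0 : ℕ) (x : ℝ) :
    ‖F (cc w n0) (AA A n0) x‖ = ‖S A w x‖ := by
  have h1 : F (cc w n0) (AA A n0) x =
      Complex.exp (((-(2 * Real.pi * n0 * x) : ℝ) : ℂ) * Complex.I) * S A w x := by
    unfold F S
    rw [sum_AA, Finset.mul_sum]
    refine Finset.sum_congr rfl fun p _ => ?_
    unfold cc
    have e : ((p : ℤ) - (n0 : ℤ) + (n0 : ℤ)).toNat = p := by simp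
    rw [e, mul_left_comm, ← Complex.exp_add]
    congr 2
    push_cast
    ring
  rw [h1, norm_mul, Complex.norm_exp_ofReal_mul_I, one_mul]

lemma parseval (A : Finset ℕ) (w : ℕ → ℝ) :
    ∫ x in (0 : ℝ)..1, ‖S A w x‖ ^ 2 = ∑ p ∈ A, w p ^ 2 := by
  simp_rw [← norm_F A w 0]
  rw [parsevalF, sum_AA]
  refine Finset.sum_congr rfl fun p _ => ?_
  unfold cc
  simp

lemma continuous_S (A : Finset ℕ) (w : ℕ → ℝ) : Continuous (S A w) := by
  unfold S
  fun_prop

lemma periodic_S (A : Finset ℕ) (w : ℕ → ℝ) : Function.Periodic (S A w) 1 := by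
  intro x
  unfold S
  refine Finset.sum_congr rfl fun p _ => ?_
  congr 1
  have : Complex.exp (2 * Real.pi * Complex.I * p) = 1 := by
    rw [Complex.exp_eq_one_iff]
    exact ⟨p, by push_cast; ring⟩
  rw [show (2 * Real.pi * Complex.I * (p : ℂ) * ((x + 1 : ℝ) : ℂ)) =
    2 * Real.pi * Complex.I * p * x + 2 * Real.pi * Complex.I * p by push_cast; ring,
    Complex.exp_add, this, mul_one]

lemma periodic_F (c : ℤ → ℂ) (T : Finset ℤ) : Function.Periodic (F c T) 1 := by
  intro x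
  unfold F
  refine Finset.sum_congr rfl fun n _ => ?_
  congr 1
  have : Complex.exp (2 * Real.pi * Complex.I * n) = 1 := by
    rw [Complex.exp_eq_one_iff]
    exact ⟨n, by ring⟩
  rw [show (2 * Real.pi * Complex.I * (n : ℂ) * ((x + 1 : ℝ) : ℂ)) =
    2 * Real.pi * Complex.I * n * x + 2 * Real.pi * Complex.I * n by push_cast; ring,
    Complex.exp_add, this, mul_one]

/-- the mean square of the derivative -/
lemma deriv_mean (A : Finset ℕ) (w : ℕ → ℝ) (n0 : ℕ) (L : ℝ) (hL : ∀ p ∈ A, |(p : ℝ) - n0| ≤ L) :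
    ∫ x in (0 : ℝ)..1, ‖F (fun n => cc w n0 n * (2 * Real.pi * Complex.I * n)) (AA A n0) x‖ ^ 2 ≤
      4 * Real.pi ^ 2 * L ^ 2 * ∑ p ∈ A, w p ^ 2 := by
  rw [parsevalF, sum_AA, Finset.mul_sum]
  refine Finset.sum_le_sum fun p hp => ?_
  have h1 : ‖cc w n0 ((p : ℤ) - n0) * (2 * Real.pi * Complex.I * (((p : ℤ) - n0 : ℤ) : ℂ))‖ =
      |w p| * (2 * Real.pi * |(p : ℝ) - n0|) := by
    unfold cc
    have e : ((p : ℤ) - (n0 : ℤ) + (n0 : ℤ)).toNat = p := by simp
    rw [e, norm_mul, Complex.norm_real, Real.norm_eq_abs]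
    congr 1
    rw [norm_mul, norm_mul, norm_mul, Complex.norm_I, Complex.norm_real, Real.norm_eq_abs,
      abs_of_pos Real.pi_pos, mul_one]
    congr 1
    · simp
    · have : ((((p : ℤ) - n0 : ℤ) : ℂ)) = (((p : ℝ) - n0 : ℝ) : ℂ) := by push_cast; ring
      rw [this, Complex.norm_real, Real.norm_eq_abs]
  have h2 := hL p hp
  have h3 : |(p : ℝ) - n0| ^ 2 ≤ L ^ 2 := by
    have := abs_nonneg ((p : ℝ) - n0)
    gcongr
  simp only [Int.cast_sub, Int.cast_natCast] at h1 ⊢
  rw [h1, mul_pow, mul_pow, sq_abs]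
  have h4 : 0 ≤ w p ^ 2 := sq_nonneg _
  have h5 : 0 < Real.pi ^ 2 := by positivity
  nlinarith [mul_le_mul_of_nonneg_left h3 (mul_nonneg h4 h5.le)]

end Pool.Agent.Lib.MP_e2d58b_nt.VR
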