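import Pool.Agent.Lib.MP_e2d58b_nt.VR.Loc

/-!
# The mass on the minor arcs
-/

set_option autoImplicit false

namespace Pool.Agent.Lib.MP_e2d58b_nt.VR

open Finset MeasureTheory intervalIntegral
open Pool.Agent.Lib.MP_cb27ba_nt.H71 (F hasDerivAt_F continuous_F parsevalF)

/-- the major arcs -/
def Maj (Q R0 : ℕ) : Set ℝ := {α | ¬ Minor Q R0 α}

lemma mem_Maj {Q R0 : ℕ} {α : ℝ} : α ∈ Maj Q R0 ↔
    ∃ r : ℕ, 1 ≤ r ∧ r ≤ R0 ∧ ∃ b : ℤ, |α - (b : ℝ) / (r : ℝ)| ≤ rad Q := by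
  unfold Maj Minor
  simp only [Set.mem_ofPred_eq]
  push Not
  rfl

lemma measurable_Maj (Q R0 : ℕ) : MeasurableSet (Maj Q R0) := by
  have h : Maj Q R0 = ⋃ r : ℕ, ⋃ b : ℤ, {α : ℝ | (1 ≤ r ∧ r ≤ R0) ∧
      |α - (b : ℝ) / (r : ℝ)| ≤ rad Q} := by
    ext α
    rw [mem_Maj]
    simp only [Set.mem_iUnion, Set.mem_ofPred_eq]
    constructor
    · rintro ⟨r, h1, h2, b, hb⟩; exact ⟨r, b, ⟨h1, h2⟩, hb⟩
    · rintro ⟨r, b, ⟨h1, h2⟩, hb⟩; exact ⟨r, h1, h2, b, hb⟩
  rw [h]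
  refine MeasurableSet.iUnion fun r => MeasurableSet.iUnion fun b => ?_
  by_cases hr : 1 ≤ r ∧ r ≤ R0
  · have : {α : ℝ | (1 ≤ r ∧ r ≤ R0) ∧ |α - (b : ℝ) / (r : ℝ)| ≤ rad Q} =
        {α : ℝ | |α - (b : ℝ) / (r : ℝ)| ≤ rad Q} := by
      ext α; simp [hr]
    rw [this]
    exact (isClosed_le (by fun_prop) continuous_const).measurableSet
  · have : {α : ℝ | (1 ≤ r ∧ r ≤ R0) ∧ |α - (b : ℝ) / (r : ℝ)| ≤ rad Q} = ∅ := by
      ext α; simp [hr]
    rw [this]
    exact MeasurableSet.empty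

lemma Maj_add_one {Q R0 : ℕ} {α : ℝ} : α + 1 ∈ Maj Q R0 ↔ α ∈ Maj Q R0 := by
  rw [mem_Maj, mem_Maj]
  constructor
  · rintro ⟨r, h1, h2, b, hb⟩
    refine ⟨r, h1, h2, b - r, ?_⟩
    have hr : (r : ℝ) ≠ 0 := by
      have : 0 < r := by omega
      exact_mod_cast this.ne'
    have e : α - ((b - r : ℤ) : ℝ) / (r : ℝ) = α + 1 - (b : ℝ) / r := by
      push_cast
      field_simp
      ring
    rw [e]
    exact hb
  · rintro ⟨r, h1, h2, b, hb⟩
    refine ⟨r, h1, h2, b + r, ?_⟩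
    have hr : (r : ℝ) ≠ 0 := by
      have : 0 < r := by omega
      exact_mod_cast this.ne'
    have e : α + 1 - ((b + r : ℤ) : ℝ) / (r : ℝ) = α - (b : ℝ) / r := by
      push_cast
      field_simp
      ring
    rw [e]
    exact hb

lemma ii_ind {u : ℝ → ℝ} (hu : Continuous u) {s : Set ℝ} (hs : MeasurableSet s) (a b : ℝ) :
    IntervalIntegrable (s.indicator u) volume a b :=
  ⟨(hu.intervalIntegrable a b).1.indicator hs, (hu.intervalIntegrable a b).2.indicator hs⟩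

lemma ii_sum {ι : Type*} (s : Finset ι) {f : ι → ℝ → ℝ} {a b : ℝ}
    (h : ∀ i ∈ s, IntervalIntegrable (f i) volume a b) :
    IntervalIntegrable (fun x => ∑ i ∈ s, f i x) volume a b := by
  have h1 := IntervalIntegrable.sum s h
  have e : (fun x => ∑ i ∈ s, f i x) = ∑ i ∈ s, f i := by
    ext x; rw [Finset.sum_apply]
  rw [e]
  exact h1

/-- the mass on the major arcs -/
noncomputable def mass (A : Finset ℕ) (w : ℕ → ℝ) (Q R0 : ℕ) : ℝ :=
  ∫ α in (0 : ℝ)..1, (Maj Q R0).indicator (fun α => ‖S A w α‖ ^ 2) α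

/-- the shifts -/
def Lam (R0 W : ℕ) : Finset ((_ : ℕ) × ℕ) :=
  ((Ioc R0 W).filter Nat.Prime).sigma (fun l => (range l).filter (fun c => c.Coprime l))

/-- the translates of the major arcs are disjoint -/
lemma disj (Q R0 W : ℕ) (hsep : 2 * rad Q * ((R0 * W : ℕ) : ℝ) ^ 2 < 1) (α : ℝ)
    {x y : (_ : ℕ) × ℕ} (hx : x ∈ Lam R0 W) (hy : y ∈ Lam R0 W)
    (h1 : α - (x.2 : ℝ) / (x.1 : ℝ) ∈ Maj Q R0) (h2 : α - (y.2 : ℝ) / (y.1 : ℝ) ∈ Maj Q R0) :
    x = y := by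
  obtain ⟨l, c⟩ := x
  obtain ⟨l', c'⟩ := y
  unfold Lam at hx hy
  rw [mem_sigma, mem_filter, mem_filter, mem_Ioc, mem_range] at hx hy
  obtain ⟨⟨⟨hl1, hl2⟩, hlp⟩, hc1, hc2⟩ := hx
  obtain ⟨⟨⟨hl1', hl2'⟩, hlp'⟩, hc1', hc2'⟩ := hy
  rw [mem_Maj] at h1 h2
  obtain ⟨r, hr1, hr2, b, hb⟩ := h1
  obtain ⟨r', hr1', hr2', b', hb'⟩ := h2
  simp only at hl1 hl2 hlp hc1 hc2 hl1' hl2' hlp' hc1' hc2' hb hb'
  have hl0 : (0 : ℝ) < l := by exact_mod_cast hlp.pos
  have hl0' : (0 : ℝ) < l' := by exact_mod_cast hlp'.pos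
  have hr0 : (0 : ℝ) < r := by exact_mod_cast hr1
  have hr0' : (0 : ℝ) < r' := by exact_mod_cast hr1'
  -- the integer relation
  have key : (c : ℤ) * r * l' * r' + b * l * l' * r' = c' * l * r * r' + b' * l * r * l' := by
    by_contra hne
    have h3 : (1 : ℝ) ≤ |(((c : ℤ) * r * l' * r' + b * l * l' * r' -
        (c' * l * r * r' + b' * l * r * l') : ℤ) : ℝ)| := by
      rw [← Int.cast_abs]
      exact_mod_cast Int.one_le_abs (sub_ne_zero.2 hne)
    have e : ((((c : ℤ) * r * l' * r' + b * l * l' * r' -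
        (c' * l * r * r' + b' * l * r * l') : ℤ) : ℝ)) =
        ((α - (c' : ℝ) / l' - (b' : ℝ) / r') - (α - (c : ℝ) / l - (b : ℝ) / r)) *
          (l * r * l' * r') := by
      push_cast
      field_simp
      ring
    rw [e, abs_mul, abs_of_pos (by positivity : (0 : ℝ) < l * r * l' * r')] at h3
    have h4 : |(α - (c' : ℝ) / l' - (b' : ℝ) / r') - (α - (c : ℝ) / l - (b : ℝ) / r)| ≤
        2 * rad Q := by
      refine (abs_sub _ _).trans ?_
      linarith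
    have h5 : (l : ℝ) * r * l' * r' ≤ ((R0 * W : ℕ) : ℝ) ^ 2 := by
      have : l * r * l' * r' ≤ (R0 * W) ^ 2 := by
        calc l * r * l' * r' = (r * l) * (r' * l') := by ring
          _ ≤ (R0 * W) * (R0 * W) := Nat.mul_le_mul (Nat.mul_le_mul hr2 hl2)
              (Nat.mul_le_mul hr2' hl2')
          _ = _ := by ring
      exact_mod_cast this
    have h6 : (1 : ℝ) ≤ 2 * rad Q * ((R0 * W : ℕ) : ℝ) ^ 2 :=
      h3.trans (mul_le_mul h4 h5 (by positivity) (by have := rad_pos Q; positivity))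
    linarith
  -- divisibility
  have hnd : ∀ (p k : ℕ), p.Prime → 1 ≤ k → k ≤ R0 → R0 < p → ¬ (p : ℤ) ∣ (k : ℤ) := by
    intro p k _ h3 h4 h5 h6
    have h7 : p ∣ k := by exact_mod_cast h6
    have := Nat.le_of_dvd (by omega) h7
    omega
  have hlZ : Prime (l : ℤ) := Nat.prime_iff_prime_int.1 hlp
  have hlr := hnd l r hlp hr1 hr2 hl1
  have hlr' := hnd l r' hlp hr1' hr2' hl1
  by_cases hll : l = l'
  · subst hll
    have h3 : (l : ℤ) ∣ ((c : ℤ) - c') * r * r' := by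
      have h4 : (l : ℤ) * (((c : ℤ) - c') * r * r') = l * (l * (b' * r - b * r')) := by
        linear_combination key
      have h5 := mul_left_cancel₀ (by exact_mod_cast hlp.ne_zero : (l : ℤ) ≠ 0) h4
      exact ⟨_, h5⟩
    rcases hlZ.dvd_or_dvd h3 with h4 | h4
    · rcases hlZ.dvd_or_dvd h4 with h5 | h5
      · have h6 : (c : ℤ) = c' := by
          have h7 := Int.eq_zero_of_abs_lt_dvd h5 (by rw [abs_lt]; constructor <;> omega)
          omega
        have h8 : c = c' := by exact_mod_cast h6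
        rw [h8]
      · exact absurd h5 hlr
    · exact absurd h4 hlr'
  · exfalso
    have h3 : (l : ℤ) ∣ (c : ℤ) * r * l' * r' := by
      refine ⟨c' * r * r' + b' * r * l' - b * l' * r', ?_⟩
      linear_combination key
    rcases hlZ.dvd_or_dvd h3 with h4 | h4
    · rcases hlZ.dvd_or_dvd h4 with h5 | h5
      · rcases hlZ.dvd_or_dvd h5 with h6 | h6
        · have h7 : l ∣ c := by exact_mod_cast h6
          have h8 : l ∣ 1 := by
            have := Nat.dvd_gcd h7 (dvd_refl l)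
            rwa [hc2.gcd_eq_one] at this
          exact hlp.one_lt.ne' (Nat.dvd_one.1 h8)
        · exact hlr h6
      · have h7 : l ∣ l' := by exact_mod_cast h5
        exact hll ((Nat.prime_dvd_prime_iff_eq hlp hlp').1 h7)
    · exact hlr' h4

/-- the mass of the major arcs is small -/
theorem mass_bound (A : Finset ℕ) (w : ℕ → ℝ) (Q R0 W : ℕ)
    (hcop : ∀ l : ℕ, l.Prime → l ≤ W → ∀ p ∈ A, p.Coprime l)
    (hsep : 2 * rad Q * ((R0 * W : ℕ) : ℝ) ^ 2 < 1) :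
    (∑ l ∈ (Ioc R0 W).filter Nat.Prime, 1 / ((l : ℝ) - 1)) * mass A w Q R0 ≤
      ∑ p ∈ A, w p ^ 2 := by
  classical
  have hSc : Continuous (fun α => ‖S A w α‖ ^ 2) := (continuous_S A w).norm.pow 2
  have hSp : ∀ α, ‖S A w (α + 1)‖ ^ 2 = ‖S A w α‖ ^ 2 := fun α => by rw [periodic_S A w α]
  set H : ℝ → ℝ → ℝ := fun x α => ({α : ℝ | α - x ∈ Maj Q R0} : Set ℝ).indicator
    (fun α => ‖S A w α‖ ^ 2) α with hH
  have hmeas : ∀ x : ℝ, MeasurableSet ({α : ℝ | α - x ∈ Maj Q R0} : Set ℝ) := fun x =>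
    measurable_id.sub_const x (measurable_Maj Q R0)
  have hHi : ∀ x a b : ℝ, IntervalIntegrable (H x) volume a b := fun x a b => ii_ind hSc (hmeas x) a b
  have hHp : ∀ x : ℝ, Function.Periodic (H x) 1 := by
    intro x α
    simp only [hH, Set.indicator_apply, Set.mem_ofPred_eq]
    have hiff : α + 1 - x ∈ Maj Q R0 ↔ α - x ∈ Maj Q R0 := by
      rw [show α + 1 - x = (α - x) + 1 by ring]
      exact Maj_add_one
    by_cases h : α - x ∈ Maj Q R0
    · rw [if_pos h, if_pos (hiff.2 h), hSp]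
    · rw [if_neg h, if_neg (fun h' => h (hiff.1 h'))]
  -- one prime
  have h1 : ∀ l ∈ (Ioc R0 W).filter Nat.Prime, (1 / ((l : ℝ) - 1)) * mass A w Q R0 ≤
      ∑ c ∈ (range l).filter (fun c => c.Coprime l), ∫ α in (0 : ℝ)..1, H ((c : ℝ) / l) α := by
    intro l hl
    rw [mem_filter, mem_Ioc] at hl
    have hlp := hl.2
    have hl1 : (1 : ℝ) < l := by exact_mod_cast hlp.one_lt
    have hφ : (l.totient : ℝ) = (l : ℝ) - 1 := by
      rw [Nat.totient_prime hlp, Nat.cast_sub hlp.one_lt.le]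
      simp
    have h2 : ∀ c : ℕ, ∫ α in (0 : ℝ)..1, H ((c : ℝ) / l) α =
        ∫ α in (0 : ℝ)..1, H ((c : ℝ) / l) (α + (c : ℝ) / l) := by
      intro c
      rw [intervalIntegral.integral_comp_add_right (fun x => H ((c : ℝ) / l) x)]
      have := (hHp ((c : ℝ) / l)).intervalIntegral_add_eq ((c : ℝ) / l) 0
      rw [zero_add] at this
      rw [zero_add, add_comm (1 : ℝ), this]
    have h3 : ∀ c : ℕ, IntervalIntegrable (fun α => H ((c : ℝ) / l) (α + (c : ℝ) / l)) volume 0 1 := by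
      intro c
      have h4 := (hHi ((c : ℝ) / l) (0 + (c : ℝ) / l) (1 + (c : ℝ) / l)).comp_add_right ((c : ℝ) / l)
      simpa using h4
    rw [Finset.sum_congr rfl (fun c _ => h2 c), ← intervalIntegral.integral_finsetSum
      (fun c _ => h3 c)]
    unfold mass
    rw [← intervalIntegral.integral_const_mul]
    refine intervalIntegral.integral_mono_on zero_le_one
      ((ii_ind hSc (measurable_Maj Q R0) 0 1).const_mul _) ?_ ?_
    · exact ii_sum _ (fun c _ => h3 c)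
    · intro α _
      have h5 : ∀ c : ℕ, H ((c : ℝ) / l) (α + (c : ℝ) / l) =
          (Maj Q R0).indicator (fun _ => ‖S A w (α + (c : ℝ) / l)‖ ^ 2) α := by
        intro c
        simp only [hH, Set.indicator_apply, Set.mem_ofPred_eq]
        have e : α + (c : ℝ) / l - (c : ℝ) / l = α := by ring
        by_cases h : α ∈ Maj Q R0
        · rw [if_pos h, if_pos (by rw [e]; exact h)]
        · rw [if_neg h, if_neg (by rw [e]; exact h)]
      rw [Finset.sum_congr rfl (fun c _ => h5 c)]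
      by_cases h6 : α ∈ Maj Q R0
      · simp only [Set.indicator_of_mem h6]
        have h7 := ram A w l hlp.prime.squarefree (hcop l hlp hl.1.2) α
        rw [hφ] at h7
        rw [one_div_mul_eq_div, div_le_iff₀ (by linarith)]
        linarith
      · simp only [Set.indicator_of_notMem h6]
        simp
  rw [Finset.sum_mul]
  refine (Finset.sum_le_sum h1).trans ?_
  rw [← Finset.sum_sigma ((Ioc R0 W).filter Nat.Prime)
    (fun l => (range l).filter (fun c => c.Coprime l))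
    (fun x => ∫ α in (0 : ℝ)..1, H ((x.2 : ℝ) / x.1) α)]
  change ∑ x ∈ Lam R0 W, ∫ α in (0 : ℝ)..1, H ((x.2 : ℝ) / x.1) α ≤ _
  rw [← intervalIntegral.integral_finsetSum (fun x _ => hHi _ _ _), ← parseval A w]
  refine intervalIntegral.integral_mono_on zero_le_one
    (ii_sum _ (fun x _ => hHi _ _ _)) (hSc.intervalIntegrable _ _) ?_
  intro α _
  simp only [hH, Set.indicator_apply, Set.mem_ofPred_eq]
  rw [← Finset.sum_filter, Finset.sum_const, nsmul_eq_mul]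
  have h2 : ((Lam R0 W).filter (fun x => α - (x.2 : ℝ) / (x.1 : ℝ) ∈ Maj Q R0)).card ≤ 1 := by
    rw [Finset.card_le_one]
    intro x hx y hy
    rw [mem_filter] at hx hy
    exact disj Q R0 W hsep α hx.1 hy.1 hx.2 hy.2
  have h3 : ((((Lam R0 W).filter (fun x => α - (x.2 : ℝ) / (x.1 : ℝ) ∈ Maj Q R0)).card : ℕ) : ℝ) ≤ 1 := by
    exact_mod_cast h2
  have h4 : 0 ≤ ‖S A w α‖ ^ 2 := by positivity
  nlinarith

/-- the main inequality -/
theorem main_ineq (A : Finset ℕ) (w : ℕ → ℝ) (n0 : ℕ) (L : ℝ) (hL : ∀ p ∈ A, |(p : ℝ) - n0| ≤ L)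
    (Q R0 : ℕ) (κ : ℝ) (hκ : 0 < κ) (hκ1 : κ ≤ 1) (hQ : 16 ≤ Q) (hR : 12 / κ ≤ (R0 : ℝ)) :
    ∑ p ∈ A, w p ^ 2 ≤ (192 / (Q : ℝ) ^ 2) * IS A w Q R0 +
      16 * Real.pi ^ 2 * (2 * κ / Q * L) ^ 2 * ∑ p ∈ A, w p ^ 2 + mass A w Q R0 := by
  classical
  have hQ0 : (0 : ℝ) < Q := by
    have : 0 < Q := by omega
    exact_mod_cast this
  set δ : ℝ := 2 * κ / Q with hδ
  have hδ0 : 0 < δ := by positivity
  set g : ℝ → ℂ := F (cc w n0) (AA A n0) with hg
  set g' : ℝ → ℂ := F (fun n => cc w n0 n * (2 * Real.pi * Complex.I * n)) (AA A n0) with hg'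
  have hder : ∀ x, HasDerivAt g (g' x) x := fun x => hasDerivAt_F _ _ x
  have hgc' : Continuous g' := continuous_F _ _
  have hnorm : ∀ x, ‖g x‖ = ‖S A w x‖ := fun x => norm_F A w n0 x
  have hSc : Continuous (fun α => ‖S A w α‖ ^ 2) := (continuous_S A w).norm.pow 2
  set D : ℝ → ℝ := fun α => ∫ y in (α - δ)..(α + δ), ‖g' y‖ ^ 2 with hD
  have huc : Continuous (fun y => ‖g' y‖ ^ 2) := hgc'.norm.pow 2
  have hup : ∀ x, ‖g' (x + 1)‖ ^ 2 = ‖g' x‖ ^ 2 := fun x => by rw [hg', periodic_F _ _ x]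
  have hDc : Continuous D := by
    have h1 : ∀ α : ℝ, D α = (∫ y in (0 : ℝ)..(α + δ), ‖g' y‖ ^ 2) -
        ∫ y in (0 : ℝ)..(α - δ), ‖g' y‖ ^ 2 := fun α =>
      (intervalIntegral.integral_interval_sub_left (huc.intervalIntegrable _ _)
        (huc.intervalIntegrable _ _)).symm
    have h2 : D = fun α => (∫ y in (0 : ℝ)..(α + δ), ‖g' y‖ ^ 2) -
        ∫ y in (0 : ℝ)..(α - δ), ‖g' y‖ ^ 2 := funext h1
    rw [h2]
    have h3 : Continuous (fun x : ℝ => ∫ y in (0 : ℝ)..x, ‖g' y‖ ^ 2) :=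
      intervalIntegral.continuous_primitive (fun a b => huc.intervalIntegrable a b) 0
    exact (h3.comp (continuous_id.add continuous_const)).sub
      (h3.comp (continuous_id.sub continuous_const))
  have hD0 : ∀ α, 0 ≤ D α := fun α =>
    intervalIntegral.integral_nonneg (by linarith) (fun x _ => sq_nonneg _)
  -- pointwise
  set B : (_ : ℕ) × ℕ → Set ℝ := fun x => {α : ℝ | |α - (x.2 : ℝ) / (x.1 : ℝ)| ≤ δ} with hB
  have hBm : ∀ x, MeasurableSet (B x) := fun x =>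
    (isClosed_le (by fun_prop) continuous_const).measurableSet
  set K : ℝ := 48 / (κ * Q) with hK
  have hK0 : 0 < K := by positivity
  have hpt : ∀ α ∈ Set.Icc (0 : ℝ) 1, ‖S A w α‖ ^ 2 ≤
      (∑ x ∈ Idx Q R0, (B x).indicator (fun _ => K * ‖S A w ((x.2 : ℝ) / (x.1 : ℝ))‖ ^ 2) α) +
        2 * δ * D α + (Maj Q R0).indicator (fun α => ‖S A w α‖ ^ 2) α := by
    intro α hα
    have hs0 : 0 ≤ ∑ x ∈ Idx Q R0, (B x).indicator
        (fun _ => K * ‖S A w ((x.2 : ℝ) / (x.1 : ℝ))‖ ^ 2) α :=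
      Finset.sum_nonneg fun x _ => Set.indicator_nonneg (fun _ _ => by positivity) _
    have hd0 : 0 ≤ 2 * δ * D α := by have := hD0 α; positivity
    by_cases hm : α ∈ Maj Q R0
    · rw [Set.indicator_of_mem hm]
      linarith
    · rw [Set.indicator_of_notMem hm, add_zero]
      have hmin : Minor Q R0 α := by
        unfold Maj at hm
        simpa using hm
      have hc := count Q R0 κ α hκ hκ1 hQ hR hα.1 hα.2 hmin
      set J := (Idx Q R0).filter (fun x => |α - (x.2 : ℝ) / (x.1 : ℝ)| ≤ 2 * κ / Q) with hJ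
      have h1 : ∀ x ∈ J, ‖S A w α‖ ^ 2 ≤ 2 * ‖S A w ((x.2 : ℝ) / (x.1 : ℝ))‖ ^ 2 + 2 * δ * D α := by
        intro x hx
        rw [hJ, mem_filter] at hx
        have h2 := loc_ineq hder hgc' hx.2
        rw [← hδ] at h2
        rw [← hnorm, ← hnorm]
        have h3 : ‖g α‖ ≤ ‖g ((x.2 : ℝ) / (x.1 : ℝ))‖ + ‖g α - g ((x.2 : ℝ) / (x.1 : ℝ))‖ := by
          have := norm_add_le (g ((x.2 : ℝ) / (x.1 : ℝ))) (g α - g ((x.2 : ℝ) / (x.1 : ℝ)))
          simpa using this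
        have h4 : ‖g α‖ ^ 2 ≤ (‖g ((x.2 : ℝ) / (x.1 : ℝ))‖ + ‖g α - g ((x.2 : ℝ) / (x.1 : ℝ))‖) ^ 2 := by
          gcongr
        have h5 : ‖g α - g ((x.2 : ℝ) / (x.1 : ℝ))‖ ^ 2 ≤ δ * D α := h2
        nlinarith [sq_nonneg (‖g ((x.2 : ℝ) / (x.1 : ℝ))‖ - ‖g α - g ((x.2 : ℝ) / (x.1 : ℝ))‖)]
      have h2 := Finset.sum_le_sum h1
      rw [Finset.sum_const, nsmul_eq_mul, Finset.sum_add_distrib, Finset.sum_const, nsmul_eq_mul,
        ← Finset.mul_sum] at h2
      have hJ0 : (0 : ℝ) < J.card := lt_of_lt_of_le (by positivity) hc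
      have h3 : ∑ x ∈ Idx Q R0, (B x).indicator
          (fun _ => K * ‖S A w ((x.2 : ℝ) / (x.1 : ℝ))‖ ^ 2) α =
          K * ∑ x ∈ J, ‖S A w ((x.2 : ℝ) / (x.1 : ℝ))‖ ^ 2 := by
        rw [hJ, Finset.mul_sum, Finset.sum_filter]
        refine Finset.sum_congr rfl fun x _ => ?_
        simp only [Set.indicator_apply, hB, Set.mem_ofPred_eq, hδ]
      rw [h3]
      set X := ∑ x ∈ J, ‖S A w ((x.2 : ℝ) / (x.1 : ℝ))‖ ^ 2
      have hX : 0 ≤ X := Finset.sum_nonneg fun x _ => by positivity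
      -- h2 : card * s ≤ 2 X + card * (2 δ D)
      have h4 : (J.card : ℝ) * (‖S A w α‖ ^ 2 - 2 * δ * D α) ≤ 2 * X := by linarith
      have h5 : 2 * X ≤ (J.card : ℝ) * (K * X) := by
        have h6 : 2 ≤ (J.card : ℝ) * K := by
          calc (2 : ℝ) = κ * Q / 24 * K := by rw [hK]; field_simp; norm_num
            _ ≤ (J.card : ℝ) * K := by gcongr
        nlinarith
      have h6 := le_of_mul_le_mul_left (h4.trans h5) hJ0
      linarith
  -- integrate
  have hii1 : ∀ x ∈ Idx Q R0, IntervalIntegrable ((B x).indicator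
      (fun _ : ℝ => K * ‖S A w ((x.2 : ℝ) / (x.1 : ℝ))‖ ^ 2)) volume 0 1 := fun x _ =>
    ii_ind continuous_const (hBm x) 0 1
  have hiiS : IntervalIntegrable (fun α => ∑ x ∈ Idx Q R0, (B x).indicator
      (fun _ : ℝ => K * ‖S A w ((x.2 : ℝ) / (x.1 : ℝ))‖ ^ 2) α) volume 0 1 := by
    have := IntervalIntegrable.sum (μ := volume) (a := 0) (b := 1) (Idx Q R0) hii1
    have e : (fun α => ∑ x ∈ Idx Q R0, (B x).indicator
      (fun _ : ℝ => K * ‖S A w ((x.2 : ℝ) / (x.1 : ℝ))‖ ^ 2) α) = ∑ x ∈ Idx Q R0, (B x).indicator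
      (fun _ : ℝ => K * ‖S A w ((x.2 : ℝ) / (x.1 : ℝ))‖ ^ 2) := by
      ext α; rw [Finset.sum_apply]
    rw [e]; exact this
  have hii2 : IntervalIntegrable (fun α => 2 * δ * D α) volume 0 1 :=
    (hDc.const_mul _).intervalIntegrable _ _
  have hii3 := ii_ind hSc (measurable_Maj Q R0) 0 1
  have hint := intervalIntegral.integral_mono_on zero_le_one (hSc.intervalIntegrable 0 1)
    ((hiiS.add hii2).add hii3) hpt
  rw [parseval, intervalIntegral.integral_add (hiiS.add hii2) hii3,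
    intervalIntegral.integral_add hiiS hii2, intervalIntegral.integral_finsetSum hii1,
    intervalIntegral.integral_const_mul] at hint
  have hmean : ∫ α in (0 : ℝ)..1, D α = 2 * δ * ∫ y in (0 : ℝ)..1, ‖g' y‖ ^ 2 :=
    mean_loc huc hup δ
  rw [hmean] at hint
  have hdm := deriv_mean A w n0 L hL
  rw [← hg'] at hdm
  have hball : ∀ x ∈ Idx Q R0, ∫ α in (0 : ℝ)..1, (B x).indicator
      (fun _ : ℝ => K * ‖S A w ((x.2 : ℝ) / (x.1 : ℝ))‖ ^ 2) α ≤
      2 * δ * (K * ‖S A w ((x.2 : ℝ) / (x.1 : ℝ))‖ ^ 2) := by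
    intro x _
    set v : ℝ := K * ‖S A w ((x.2 : ℝ) / (x.1 : ℝ))‖ ^ 2 with hv
    have hv0 : 0 ≤ v := by positivity
    rw [intervalIntegral.integral_of_le zero_le_one]
    have hBi : IntegrableOn (fun _ : ℝ => v) (B x) volume := by
      have hBe : B x = Set.Icc ((x.2 : ℝ) / (x.1 : ℝ) - δ) ((x.2 : ℝ) / (x.1 : ℝ) + δ) := by
        ext α
        simp only [hB, Set.mem_ofPred_eq, Set.mem_Icc, abs_le]
        constructor
        · rintro ⟨h1, h2⟩; constructor <;> linarith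
        · rintro ⟨h1, h2⟩; constructor <;> linarith
      rw [hBe]
      exact continuous_const.integrableOn_Icc
    have h1 : ∫ α in Set.Ioc (0 : ℝ) 1, (B x).indicator (fun _ : ℝ => v) α ≤
        ∫ α, (B x).indicator (fun _ : ℝ => v) α := by
      apply MeasureTheory.setIntegral_le_integral
      · rw [integrable_indicator_iff (hBm x)]; exact hBi
      · exact Filter.Eventually.of_forall fun α => Set.indicator_nonneg (fun _ _ => hv0) _
    refine h1.trans (le_of_eq ?_)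
    rw [MeasureTheory.integral_indicator (hBm x), MeasureTheory.setIntegral_const, smul_eq_mul]
    congr 1
    have hBe : B x = Set.Icc ((x.2 : ℝ) / (x.1 : ℝ) - δ) ((x.2 : ℝ) / (x.1 : ℝ) + δ) := by
      ext α
      simp only [hB, Set.mem_ofPred_eq, Set.mem_Icc, abs_le]
      constructor
      · rintro ⟨h1, h2⟩; constructor <;> linarith
      · rintro ⟨h1, h2⟩; constructor <;> linarith
    rw [hBe, Measure.real, Real.volume_Icc, ENNReal.toReal_ofReal (by linarith)]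
    ring
  have hsum := Finset.sum_le_sum hball
  rw [← Finset.mul_sum, ← Finset.mul_sum, ← IS_eq] at hsum
  have e1 : 2 * δ * (K * IS A w Q R0) = (192 / (Q : ℝ) ^ 2) * IS A w Q R0 := by
    rw [hδ, hK]
    field_simp
    ring
  rw [e1] at hsum
  have h7 : 2 * δ * (2 * δ * ∫ y in (0 : ℝ)..1, ‖g' y‖ ^ 2) ≤
      16 * Real.pi ^ 2 * (δ * L) ^ 2 * ∑ p ∈ A, w p ^ 2 := by
    calc 2 * δ * (2 * δ * ∫ y in (0 : ℝ)..1, ‖g' y‖ ^ 2)
        ≤ 2 * δ * (2 * δ * (4 * Real.pi ^ 2 * L ^ 2 * ∑ p ∈ A, w p ^ 2)) := by gcongr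
      _ = _ := by ring
  unfold mass
  linarith

end Pool.Agent.Lib.MP_e2d58b_nt.VR
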