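import Pool.Agent.Lib.MP_e2d58b_nt.VR.Mass
import Pool.Agent.Lib.MP_5b6025_nt.RP.Main

/-!
# Sums of reciprocals of primes, and the abstract lower bound
-/

set_option autoImplicit false

namespace Pool.Agent.Lib.MP_e2d58b_nt.VR

open Finset

lemma block : ∃ N1 : ℕ, 2 ≤ N1 ∧ ∀ N : ℕ, N1 ≤ N →
    (5 / 12 : ℝ) ≤ ∑ l ∈ (Ioc N (N ^ 2)).filter Nat.Prime, 1 / (l : ℝ) := by
  obtain ⟨C, hC0, hC⟩ := Pool.Agent.Lib.MP5b6025.RP.MainM.mertens_rat (ε := 1 / 36) (by norm_num)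
  have hev : ∀ᶠ y : ℕ in Filter.atTop, 24 * C ≤ Real.log (y : ℝ) :=
    (Real.tendsto_log_atTop.comp tendsto_natCast_atTop_atTop).eventually_ge_atTop _
  obtain ⟨N1, hN1⟩ := Filter.eventually_atTop.1 hev
  refine ⟨max N1 2, le_max_right _ _, fun N hN => ?_⟩
  have hN2 : 2 ≤ N := le_trans (le_max_right _ _) hN
  have hlog := hN1 N (le_trans (le_max_left _ _) hN)
  have hNR : (2 : ℝ) ≤ N := by exact_mod_cast hN2
  have hlog0 : 0 < Real.log (N : ℝ) := Real.log_pos (by linarith)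
  have h1 := hC N (by omega)
  have h2 := hC (N ^ 2) (Nat.one_le_pow _ _ (by omega))
  have e1 : Real.log ((N ^ 2 : ℕ) : ℝ) = 2 * Real.log N := by
    push_cast
    rw [Real.log_pow]
    norm_num
  rw [e1] at h2
  have h1' := (abs_le.1 h1).2
  have h2' := (abs_le.1 h2).1
  have hNN : N ≤ N ^ 2 := by nlinarith
  have hsplit : (Ioc 0 (N ^ 2)).filter Nat.Prime =
      (Ioc 0 N).filter Nat.Prime ∪ (Ioc N (N ^ 2)).filter Nat.Prime := by
    rw [← Finset.filter_union, Finset.Ioc_union_Ioc_eq_Ioc (by omega) hNN]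
  have hdisj : Disjoint ((Ioc 0 N).filter Nat.Prime) ((Ioc N (N ^ 2)).filter Nat.Prime) := by
    apply Finset.disjoint_filter_filter
    rw [Finset.disjoint_left]
    intro a ha hb
    rw [mem_Ioc] at ha hb
    omega
  rw [hsplit, Finset.sum_union hdisj] at h2'
  have h3 : ∑ p ∈ (Ioc N (N ^ 2)).filter Nat.Prime, Real.log p / p ≤
      2 * Real.log N * ∑ l ∈ (Ioc N (N ^ 2)).filter Nat.Prime, 1 / (l : ℝ) := by
    rw [Finset.mul_sum]
    refine Finset.sum_le_sum fun p hp => ?_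
    rw [mem_filter, mem_Ioc] at hp
    have hp0 : (0 : ℝ) < p := by exact_mod_cast hp.2.pos
    have h4 : Real.log p ≤ 2 * Real.log N := by
      rw [← e1]
      apply Real.log_le_log hp0
      exact_mod_cast hp.1.2
    rw [mul_one_div]
    gcongr
  set s1 := ∑ p ∈ (Ioc 0 N).filter Nat.Prime, Real.log p / p
  set s2 := ∑ p ∈ (Ioc N (N ^ 2)).filter Nat.Prime, Real.log p / p
  set s3 := ∑ l ∈ (Ioc N (N ^ 2)).filter Nat.Prime, 1 / (l : ℝ)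
  have h5 : (11 / 12) * Real.log N - 2 * C ≤ s2 := by linarith
  have h6 : (5 / 6) * Real.log N ≤ 2 * Real.log N * s3 := by
    have : 2 * C ≤ (1 / 12) * Real.log N := by linarith
    linarith
  by_contra hc
  push Not at hc
  nlinarith

theorem three_blocks : ∃ N1 : ℕ, 2 ≤ N1 ∧ ∀ N : ℕ, N1 ≤ N →
    (5 / 4 : ℝ) ≤ ∑ l ∈ (Ioc N (N ^ 8)).filter Nat.Prime, 1 / ((l : ℝ) - 1) := by
  obtain ⟨N1, h2, hN⟩ := block
  refine ⟨N1, h2, fun N h => ?_⟩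
  have hN2 : 2 ≤ N := h2.trans h
  have e1 : N ≤ N ^ 2 := by nlinarith
  have e2 : N ^ 2 ≤ N ^ 4 := Nat.pow_le_pow_right (by omega) (by norm_num)
  have e3 : N ^ 4 ≤ N ^ 8 := Nat.pow_le_pow_right (by omega) (by norm_num)
  have a1 := hN N h
  have a2 := hN (N ^ 2) (h.trans e1)
  have a3 := hN (N ^ 4) (h.trans (e1.trans e2))
  rw [show (N ^ 2) ^ 2 = N ^ 4 by ring] at a2
  rw [show (N ^ 4) ^ 2 = N ^ 8 by ring] at a3
  have hdisj : ∀ a b c : ℕ, Disjoint ((Ioc a b).filter Nat.Prime) ((Ioc b c).filter Nat.Prime) := by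
    intro a b c
    apply Finset.disjoint_filter_filter
    rw [Finset.disjoint_left]
    intro x ha hb
    rw [mem_Ioc] at ha hb
    omega
  have hs : (Ioc N (N ^ 8)).filter Nat.Prime = (Ioc N (N ^ 2)).filter Nat.Prime ∪
      ((Ioc (N ^ 2) (N ^ 4)).filter Nat.Prime ∪ (Ioc (N ^ 4) (N ^ 8)).filter Nat.Prime) := by
    rw [← Finset.filter_union, ← Finset.filter_union, Finset.Ioc_union_Ioc_eq_Ioc e2 e3,
      Finset.Ioc_union_Ioc_eq_Ioc e1 (e2.trans e3)]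
  have h3 : ∑ l ∈ (Ioc N (N ^ 8)).filter Nat.Prime, 1 / (l : ℝ) =
      (∑ l ∈ (Ioc N (N ^ 2)).filter Nat.Prime, 1 / (l : ℝ)) +
      ((∑ l ∈ (Ioc (N ^ 2) (N ^ 4)).filter Nat.Prime, 1 / (l : ℝ)) +
      ∑ l ∈ (Ioc (N ^ 4) (N ^ 8)).filter Nat.Prime, 1 / (l : ℝ)) := by
    rw [hs, Finset.sum_union, Finset.sum_union (hdisj _ _ _)]
    rw [← Finset.filter_union, Finset.Ioc_union_Ioc_eq_Ioc e2 e3]
    exact hdisj _ _ _
  have h4 : ∑ l ∈ (Ioc N (N ^ 8)).filter Nat.Prime, 1 / (l : ℝ) ≤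
      ∑ l ∈ (Ioc N (N ^ 8)).filter Nat.Prime, 1 / ((l : ℝ) - 1) := by
    refine Finset.sum_le_sum fun l hl => ?_
    rw [mem_filter] at hl
    have : (1 : ℝ) < l := by exact_mod_cast hl.2.one_lt
    apply one_div_le_one_div_of_le <;> linarith
  linarith

/-- the abstract lower bound -/
theorem abs_lower : ∃ N1 : ℕ, 2 ≤ N1 ∧ ∀ (A : Finset ℕ) (w : ℕ → ℝ) (n0 : ℕ) (L : ℝ) (Q R0 : ℕ),
    (∀ p ∈ A, |(p : ℝ) - n0| ≤ L) → (∀ q ∈ Icc 1 Q, ∀ p ∈ A, p.Coprime q) →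
    16 ≤ Q → (Q : ℝ) ≤ L → N1 ≤ R0 → 2 * 10 ^ 10 * (L / Q) ^ 2 ≤ (R0 : ℝ) →
    16 * R0 ^ 18 < Q → (∑ p ∈ A, w p) ^ 2 ≤ 2 * L * ∑ p ∈ A, w p ^ 2 →
    ((Q : ℝ) / 4000) * ∑ p ∈ A, w p ^ 2 ≤
      ∑ q ∈ Icc 1 Q, (∑ p ∈ A, w p * th A w q p - (∑ p ∈ A, w p) ^ 2 / (q.totient : ℝ)) := by
  obtain ⟨N1, hN12, hN1⟩ := three_blocks
  refine ⟨N1, hN12, fun A w n0 L Q R0 hL hcop hQ hQL hR1 hR2 hR3 hθ => ?_⟩
  have hQ0 : (0 : ℝ) < Q := by
    have : 0 < Q := by omega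
    exact_mod_cast this
  have hL0 : 0 < L := lt_of_lt_of_le hQ0 hQL
  have hR0 : 2 ≤ R0 := hN12.trans hR1
  set M2 : ℝ := ∑ p ∈ A, w p ^ 2 with hM2
  have hM20 : 0 ≤ M2 := Finset.sum_nonneg fun p _ => sq_nonneg _
  set κ : ℝ := Q / (80 * L) with hκ
  have hκ0 : 0 < κ := by positivity
  have hκ1 : κ ≤ 1 := by
    rw [hκ, div_le_one (by positivity)]
    linarith
  set ρ : ℝ := L / Q with hρ
  have hρ1 : 1 ≤ ρ := by rw [hρ, le_div_iff₀ hQ0]; linarith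
  have hR : 12 / κ ≤ (R0 : ℝ) := by
    have e : 12 / κ = 960 * ρ := by
      rw [hκ, hρ]
      field_simp
      norm_num
    rw [e]
    nlinarith
  have h1 := main_ineq A w n0 L hL Q R0 κ hκ0 hκ1 hQ hR
  have e1 : 2 * κ / Q * L = 1 / 40 := by
    rw [hκ]
    field_simp
    norm_num
  rw [e1] at h1
  have hpi : Real.pi ^ 2 ≤ 10 := by
    have := Real.pi_lt_d2
    have := Real.pi_pos
    nlinarith
  have h2 : 16 * Real.pi ^ 2 * (1 / 40) ^ 2 * M2 ≤ (1 / 10) * M2 := by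
    have : 16 * Real.pi ^ 2 * (1 / 40) ^ 2 ≤ 1 / 10 := by nlinarith
    exact mul_le_mul_of_nonneg_right this hM20
  -- the mass
  have hsep : 2 * rad Q * ((R0 * R0 ^ 8 : ℕ) : ℝ) ^ 2 < 1 := by
    have ha := rad_le Q (by omega)
    have hb : ((16 * R0 ^ 18 : ℕ) : ℝ) < (Q : ℝ) := by exact_mod_cast hR3
    push_cast at hb ⊢
    have hc : ((R0 : ℝ) * (R0 : ℝ) ^ 8) ^ 2 = (R0 : ℝ) ^ 18 := by ring
    rw [hc]
    have hd : (0 : ℝ) < (R0 : ℝ) ^ 18 := by positivity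
    calc 2 * rad Q * (R0 : ℝ) ^ 18 ≤ 2 * (8 / Q) * (R0 : ℝ) ^ 18 := by gcongr
      _ = (16 * (R0 : ℝ) ^ 18) / Q := by ring
      _ < 1 := by rw [div_lt_one hQ0]; exact hb
  have hW : R0 ^ 8 ≤ Q := by
    have : R0 ^ 8 ≤ R0 ^ 18 := Nat.pow_le_pow_right (by omega) (by norm_num)
    omega
  have h3 := mass_bound A w Q R0 (R0 ^ 8) (by
    intro l hl hlW p hp
    exact hcop l (by rw [mem_Icc]; exact ⟨hl.one_lt.le, hlW.trans hW⟩) p hp) hsep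
  have h4 := hN1 R0 hR1
  set mm := mass A w Q R0 with hmm
  have hm0 : 0 ≤ mm := by
    rw [hmm]
    unfold mass
    exact intervalIntegral.integral_nonneg zero_le_one
      (fun x _ => Set.indicator_nonneg (fun _ _ => by positivity) _)
  have h5 : (5 / 4) * mm ≤ M2 := (mul_le_mul_of_nonneg_right h4 hm0).trans h3
  have h6 := var_total A w Q R0 (by omega) (by omega) hcop
  set IS0 := IS A w Q R0
  have h7 : (1 / 10) * M2 ≤ 192 / (Q : ℝ) ^ 2 * IS0 := by linarith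
  have h8 : (Q : ℝ) * M2 / 1920 ≤ 1 / Q * IS0 := by
    have : (Q : ℝ) * M2 / 1920 = ((Q : ℝ) / 192) * ((1 / 10) * M2) := by ring
    rw [this]
    calc ((Q : ℝ) / 192) * ((1 / 10) * M2) ≤ ((Q : ℝ) / 192) * (192 / (Q : ℝ) ^ 2 * IS0) := by
          gcongr
      _ = 1 / Q * IS0 := by field_simp
  -- the error
  have hsq : 128000 * ρ ≤ Real.sqrt R0 := by
    apply Real.le_sqrt_of_sq_le
    nlinarith
  have hsq0 : 0 < Real.sqrt R0 := by
    apply Real.sqrt_pos.2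
    have : 0 < R0 := by omega
    exact_mod_cast this
  have h9 : (∑ p ∈ A, w p) ^ 2 * (16 / Real.sqrt R0) ≤ (Q : ℝ) * M2 / 4000 := by
    calc (∑ p ∈ A, w p) ^ 2 * (16 / Real.sqrt R0) ≤ (2 * L * M2) * (16 / (128000 * ρ)) := by
          gcongr
      _ = (Q : ℝ) * M2 / 4000 := by
          rw [hρ]
          field_simp
          ring
  have h10 : (Q : ℝ) / 4000 * M2 ≤ (Q : ℝ) * M2 / 1920 - (Q : ℝ) * M2 / 4000 := by
    have : 0 ≤ (Q : ℝ) * M2 := by positivity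
    linarith
  linarith

end Pool.Agent.Lib.MP_e2d58b_nt.VR
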