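import Pool.Agent.Lib.MP_e2d58b_nt.VR.Farey

/-!
# The sums over residue classes and the exponential sum
-/

set_option autoImplicit false

namespace Pool.Agent.Lib.MP_e2d58b_nt.VR

open Finset

/-- the weighted count in a residue class -/
noncomputable def th (A : Finset ℕ) (w : ℕ → ℝ) (q a : ℕ) : ℝ :=
  ∑ p ∈ A.filter (fun p => p ≡ a [MOD q]), w p

lemma th_congr (A : Finset ℕ) (w : ℕ → ℝ) {q a b : ℕ} (h : a ≡ b [MOD q]) :
    th A w q a = th A w q b := by
  unfold th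
  apply Finset.sum_congr _ (fun _ _ => rfl)
  apply Finset.filter_congr
  intro p _
  exact ⟨fun h1 => h1.trans h, fun h1 => h1.trans h.symm⟩

lemma sum_class (A : Finset ℕ) (g : ℕ → ℝ) (q : ℕ) (s : Finset ℕ)
    (hs : ∀ p ∈ A, ∃ a ∈ s, p ≡ a [MOD q] ∧ ∀ b ∈ s, p ≡ b [MOD q] → b = a) :
    ∑ a ∈ s, ∑ p ∈ A.filter (fun p => p ≡ a [MOD q]), g p = ∑ p ∈ A, g p := by
  simp_rw [Finset.sum_filter]
  rw [Finset.sum_comm]
  refine Finset.sum_congr rfl fun p hp => ?_
  obtain ⟨a, ha, h1, h2⟩ := hs p hp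
  rw [Finset.sum_eq_single a]
  · rw [if_pos h1]
  · intro b hb hne
    rw [if_neg]
    intro h3
    exact hne (h2 b hb h3)
  · intro h; exact absurd ha h

lemma sum_th (A : Finset ℕ) (w : ℕ → ℝ) (q : ℕ) (s : Finset ℕ)
    (hs : ∀ p ∈ A, ∃ a ∈ s, p ≡ a [MOD q] ∧ ∀ b ∈ s, p ≡ b [MOD q] → b = a) :
    ∑ a ∈ s, th A w q a = ∑ p ∈ A, w p :=
  sum_class A w q s hs

lemma sum_th_sq (A : Finset ℕ) (w : ℕ → ℝ) (q : ℕ) (s : Finset ℕ)
    (hs : ∀ p ∈ A, ∃ a ∈ s, p ≡ a [MOD q] ∧ ∀ b ∈ s, p ≡ b [MOD q] → b = a) :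
    ∑ a ∈ s, th A w q a ^ 2 = ∑ p ∈ A, w p * th A w q p := by
  rw [← sum_class A (fun p => w p * th A w q p) q s hs]
  refine Finset.sum_congr rfl fun a _ => ?_
  have h1 : ∀ p ∈ A.filter (fun p => p ≡ a [MOD q]), w p * th A w q p = w p * th A w q a := by
    intro p hp
    rw [mem_filter] at hp
    rw [th_congr A w hp.2]
  rw [Finset.sum_congr rfl h1, ← Finset.sum_mul]
  change _ = th A w q a * _
  ring

/-- complete systems of residues -/
lemma sys_range (A : Finset ℕ) (q : ℕ) (hq : 0 < q) :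
    ∀ p ∈ A, ∃ a ∈ range q, p ≡ a [MOD q] ∧ ∀ b ∈ range q, p ≡ b [MOD q] → b = a := by
  intro p _
  refine ⟨p % q, mem_range.2 (Nat.mod_lt _ hq), (Nat.mod_modEq p q).symm, ?_⟩
  intro b hb h
  rw [mem_range] at hb
  have : b % q = p % q := h.symm
  rw [← this, Nat.mod_eq_of_lt hb]

lemma sys_cop (A : Finset ℕ) (q : ℕ) (hq : 0 < q) (hA : ∀ p ∈ A, p.Coprime q) :
    ∀ p ∈ A, ∃ a ∈ (Icc 1 q).filter (fun a => Nat.Coprime a q), p ≡ a [MOD q] ∧
      ∀ b ∈ (Icc 1 q).filter (fun a => Nat.Coprime a q), p ≡ b [MOD q] → b = a := by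
  intro p hp
  have hc := hA p hp
  have hinj : ∀ b ∈ (Icc 1 q).filter (fun a => Nat.Coprime a q),
      ∀ c ∈ (Icc 1 q).filter (fun a => Nat.Coprime a q), b ≡ c [MOD q] → b = c := by
    intro b hb c hc h
    rw [mem_filter, mem_Icc] at hb hc
    rcases Nat.lt_or_ge b q with h1 | h1
    · rcases Nat.lt_or_ge c q with h2 | h2
      · have := h; unfold Nat.ModEq at this
        rwa [Nat.mod_eq_of_lt h1, Nat.mod_eq_of_lt h2] at this
      · have hcq : c = q := by omega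
        subst hcq
        unfold Nat.ModEq at h
        rw [Nat.mod_self, Nat.mod_eq_of_lt h1] at h
        omega
    · have hbq : b = q := by omega
      rcases Nat.lt_or_ge c q with h2 | h2
      · rw [hbq] at h
        unfold Nat.ModEq at h
        rw [Nat.mod_self, Nat.mod_eq_of_lt h2] at h
        omega
      · omega
  rcases Nat.eq_zero_or_pos (p % q) with h0 | h0
  · -- then q divides p, so q = 1
    have hd : q ∣ p := Nat.dvd_of_mod_eq_zero h0
    have hq1 : q = 1 := by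
      have := Nat.dvd_gcd hd (dvd_refl q)
      rw [hc.gcd_eq_one] at this
      exact Nat.dvd_one.1 this
    subst hq1
    refine ⟨1, by simp, Nat.modEq_one, ?_⟩
    intro b hb _
    exact hinj b hb 1 (by simp) Nat.modEq_one
  · have hm : p % q ∈ (Icc 1 q).filter (fun a => Nat.Coprime a q) := by
      rw [mem_filter, mem_Icc]
      refine ⟨⟨h0, (Nat.mod_lt _ hq).le⟩, ?_⟩
      have h1 : (p % q).gcd q = p.gcd q := (Nat.mod_modEq p q).gcd_eq
      rw [Nat.Coprime, h1]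
      exact hc
    refine ⟨p % q, hm, (Nat.mod_modEq p q).symm, ?_⟩
    intro b hb h
    exact hinj b hb _ hm (h.symm.trans (Nat.mod_modEq p q).symm)

lemma card_cop (q : ℕ) :
    ((Icc 1 q).filter (fun a => Nat.Coprime a q)).card = q.totient := by
  have h := Nat.filter_coprime_Ico_eq_totient q 1
  rw [← h]
  congr 1
  ext a
  simp only [mem_filter, mem_Icc, mem_Ico, Nat.coprime_comm]
  constructor
  · rintro ⟨h1, h2⟩; exact ⟨by omega, h2⟩
  · rintro ⟨h1, h2⟩; exact ⟨by omega, h2⟩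

/-- the mean square over the fractions with denominator `q` -/
lemma sum_norm_sq (A : Finset ℕ) (w : ℕ → ℝ) (q : ℕ) (hq : 0 < q) :
    ∑ b ∈ range q, ‖S A w ((b : ℝ) / (q : ℝ))‖ ^ 2 = q * ∑ p ∈ A, w p * th A w q p := by
  have key : ((∑ b ∈ range q, ‖S A w ((b : ℝ) / (q : ℝ))‖ ^ 2 : ℝ) : ℂ)
      = ((q * ∑ p ∈ A, w p * th A w q p : ℝ) : ℂ) := by
    have h1 : ∀ x : ℝ, (((‖S A w x‖ ^ 2 : ℝ)) : ℂ)
        = ∑ n ∈ A, ∑ m ∈ A, (w n : ℂ) * (w m : ℂ) *
          Complex.exp (2 * Real.pi * Complex.I * (((n : ℤ) - (m : ℤ) : ℤ) : ℂ) * x) := by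
      intro x
      push_cast
      rw [← Complex.mul_conj']
      unfold S
      rw [map_sum, Finset.sum_mul_sum]
      refine Finset.sum_congr rfl (fun n _ => Finset.sum_congr rfl (fun m _ => ?_))
      rw [map_mul, ← Complex.exp_conj]
      have : (starRingEnd ℂ) (2 * Real.pi * Complex.I * m * x)
          = -(2 * Real.pi * Complex.I * m * x) := by
        have h2 : (starRingEnd ℂ) 2 = 2 := map_ofNat _ 2
        simp [Complex.conj_ofReal, h2]
      rw [this, Complex.exp_neg, Complex.conj_ofReal]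
      have h2 : Complex.exp (2 * Real.pi * Complex.I * ((n : ℂ) - m) * x)
          = Complex.exp (2 * Real.pi * Complex.I * n * x) *
            (Complex.exp (2 * Real.pi * Complex.I * m * x))⁻¹ := by
        rw [← Complex.exp_neg, ← Complex.exp_add]
        congr 1
        ring
      rw [h2]
      ring
    push_cast
    have h3 : ∀ b ∈ range q, ((‖S A w ((b : ℝ) / (q : ℝ))‖ : ℂ)) ^ 2 =
        ∑ n ∈ A, ∑ m ∈ A, (w n : ℂ) * (w m : ℂ) *
          Complex.exp (2 * Real.pi * Complex.I * (((n : ℤ) - (m : ℤ) : ℤ) : ℂ) *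
            (((b : ℝ) / (q : ℝ) : ℝ) : ℂ)) := by
      intro b _
      rw [← h1]
      push_cast
      rfl
    rw [Finset.sum_congr rfl h3, Finset.sum_comm, Finset.mul_sum]
    refine Finset.sum_congr rfl fun n hn => ?_
    rw [Finset.sum_comm]
    unfold th
    push_cast
    rw [Finset.sum_filter, Finset.mul_sum, Finset.mul_sum]
    refine Finset.sum_congr rfl fun m hm => ?_
    have h7 := geom_zero q hq ((n : ℤ) - (m : ℤ))
    push_cast at h7
    rw [← Finset.mul_sum, h7]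
    have h5 : ((q : ℤ) ∣ (n : ℤ) - (m : ℤ)) ↔ m ≡ n [MOD q] := by
      rw [Nat.modEq_iff_dvd]
    by_cases h6 : m ≡ n [MOD q]
    · rw [if_pos (h5.2 h6), if_pos h6]; ring
    · rw [if_neg (fun h => h6 (h5.1 h)), if_neg h6]; ring
  exact_mod_cast key

end Pool.Agent.Lib.MP_e2d58b_nt.VR
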