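import Pool.Agent.Lib.MP_e2d58b_nt.VR.Fin

/-!
# Prime moduli in a dyadic interval
-/

set_option autoImplicit false

namespace Pool.Agent.Lib.MP_e2d58b_nt.VR

open Finset

/-- the prime moduli in `(Q/2, Q]` -/
noncomputable def PM (Q : ℝ) : Finset ℕ :=
  (Icc 1 ⌊Q⌋₊).filter (fun q : ℕ => q.Prime ∧ Q / 2 < (q : ℝ))

lemma sum_PM (Q : ℝ) (hQ : 4 < Q) :
    ∑ q ∈ PM Q, 1 / (q.totient : ℝ) ≤ 4 * Real.log 4 / Real.log (Q / 2) := by
  have hQ0 : 0 < Q := by linarith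
  have hlog : 0 < Real.log (Q / 2) := Real.log_pos (by linarith)
  have h1 : ∀ q ∈ PM Q, 1 / (q.totient : ℝ) ≤ (4 / (Q * Real.log (Q / 2))) * Real.log q := by
    intro q hq
    unfold PM at hq
    rw [mem_filter, mem_Icc] at hq
    obtain ⟨⟨-, -⟩, hp, h2⟩ := hq
    have hq0 : (0 : ℝ) < q := by exact_mod_cast hp.pos
    have hφ : (q.totient : ℝ) = (q : ℝ) - 1 := by
      rw [Nat.totient_prime hp, Nat.cast_sub hp.one_lt.le]
      simp
    have h3 : Q / 4 ≤ (q : ℝ) - 1 := by linarith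
    have h4 : Real.log (Q / 2) ≤ Real.log q := Real.log_le_log (by linarith) h2.le
    rw [hφ]
    calc 1 / ((q : ℝ) - 1) ≤ 1 / (Q / 4) := by
          apply one_div_le_one_div_of_le (by linarith) h3
      _ = (4 / (Q * Real.log (Q / 2))) * Real.log (Q / 2) := by field_simp
      _ ≤ (4 / (Q * Real.log (Q / 2))) * Real.log q := by gcongr
  refine (Finset.sum_le_sum h1).trans ?_
  rw [← Finset.mul_sum]
  have h2 : ∑ q ∈ PM Q, Real.log q ≤ Real.log 4 * Q := by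
    refine le_trans ?_ (Chebyshev.theta_le_log4_mul_x hQ0.le)
    rw [Chebyshev.theta_eq_sum_Icc]
    apply Finset.sum_le_sum_of_subset_of_nonneg
    · intro q hq
      unfold PM at hq
      rw [mem_filter, mem_Icc] at hq
      rw [mem_filter, mem_Icc]
      exact ⟨⟨Nat.zero_le _, hq.1.2⟩, hq.2.1⟩
    · intro q _ _
      exact Real.log_natCast_nonneg q
  calc 4 / (Q * Real.log (Q / 2)) * ∑ q ∈ PM Q, Real.log q
      ≤ 4 / (Q * Real.log (Q / 2)) * (Real.log 4 * Q) := by gcongr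
    _ = 4 * Real.log 4 / Real.log (Q / 2) := by field_simp

theorem prime_moduli (η : ℝ) (hη : 0 < η) : ∃ C X0 : ℝ, 1 ≤ C ∧ 3 ≤ X0 ∧ ∀ X Y Q : ℝ, X0 ≤ X →
    X ^ η ≤ Y → Y ≤ X → Y / (Real.log X) ^ 2 ≤ Q → Q ≤ Y →
    ∑ q ∈ PM Q, ∑ a ∈ (Icc 1 q).filter (fun a => Nat.Coprime a q),
      (th (PR X Y) lw q a - Y / (q.totient : ℝ)) ^ 2 ≤ C * (Y * Q * Real.log X) := by
  obtain ⟨C, X1, hC1, hX1, hup⟩ := upper η hη
  obtain ⟨B, X2, hB1, hX2, hB⟩ := bt_th η hη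
  -- powers of log X are small
  have ho := (isLittleO_log_rpow_rpow_atTop 5 (show 0 < η / 2 by positivity)).bound
    (show (0 : ℝ) < 1 by norm_num)
  obtain ⟨X3, hX3⟩ := Filter.eventually_atTop.1 ho
  set X4 : ℝ := Real.exp (8 : ℝ) with hX4
  refine ⟨C + 32 * B ^ 2 / η, max (max X1 X2) (max X3 X4), by
    have : 0 ≤ 32 * B ^ 2 / η := by positivity
    linarith, le_trans hX1 (le_trans (le_max_left _ _) (le_max_left _ _)),
    fun X Y Q hX hY hYX hQl hQY => ?_⟩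
  have ha : X1 ≤ X := le_trans (le_trans (le_max_left _ _) (le_max_left _ _)) hX
  have hb : X2 ≤ X := le_trans (le_trans (le_max_right _ _) (le_max_left _ _)) hX
  have hc : X3 ≤ X := le_trans (le_trans (le_max_left _ _) (le_max_right _ _)) hX
  have hd : X4 ≤ X := le_trans (le_trans (le_max_right _ _) (le_max_right _ _)) hX
  have hXpos : 0 < X := by linarith
  have hl8 : 8 ≤ Real.log X := by
    have := Real.log_le_log (Real.exp_pos 8) hd
    rwa [Real.log_exp] at this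
  have hl0 : 0 < Real.log X := by linarith
  have hY1 : 1 ≤ Y := le_trans (Real.one_le_rpow (by linarith) hη.le) hY
  have hY0 : 0 < Y := by linarith
  have hlogXY : η * Real.log X ≤ Real.log Y := by
    have h1 := Real.log_le_log (by positivity) hY
    rwa [Real.log_rpow hXpos] at h1
  set l : ℝ := Real.log X with hl
  have hl5 : l ^ 5 ≤ Y ^ ((1 : ℝ) / 2) := by
    have h1 := hX3 X hc
    rw [one_mul, Real.norm_of_nonneg (by positivity), Real.norm_of_nonneg (by positivity)] at h1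
    have h2 : (Real.log X) ^ (5 : ℝ) = l ^ 5 := by
      rw [← hl]; exact_mod_cast Real.rpow_natCast l 5
    rw [h2] at h1
    refine h1.trans ?_
    calc X ^ (η / 2) = (X ^ η) ^ ((1 : ℝ) / 2) := by
          rw [← Real.rpow_mul hXpos.le]; congr 1; ring
      _ ≤ Y ^ ((1 : ℝ) / 2) := Real.rpow_le_rpow (by positivity) hY (by norm_num)
  have hYQ : Y ≤ l ^ 2 * Q := by
    rw [div_le_iff₀ (by positivity)] at hQl
    linarith
  have hQ0 : 0 < Q := by
    by_contra h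
    push Not at h
    have : l ^ 2 * Q ≤ 0 := mul_nonpos_of_nonneg_of_nonpos (by positivity) h
    linarith
  have hYhalf : Y ^ ((1 : ℝ) / 2) * Y ^ ((1 : ℝ) / 2) = Y := by
    rw [← Real.rpow_add hY0]; norm_num
  have hYh0 : 0 < Y ^ ((1 : ℝ) / 2) := by positivity
  -- `Q ≥ l^3 √Y`
  have hQbig : l ^ 3 * Y ^ ((1 : ℝ) / 2) ≤ Q := by
    have h1 : l ^ 2 * (l ^ 3 * Y ^ ((1 : ℝ) / 2)) ≤ l ^ 2 * Q := by
      calc l ^ 2 * (l ^ 3 * Y ^ ((1 : ℝ) / 2)) = l ^ 5 * Y ^ ((1 : ℝ) / 2) := by ring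
        _ ≤ Y ^ ((1 : ℝ) / 2) * Y ^ ((1 : ℝ) / 2) := by gcongr
        _ = Y := hYhalf
        _ ≤ l ^ 2 * Q := hYQ
    exact le_of_mul_le_mul_left h1 (by positivity)
  have hl3 : 512 ≤ l ^ 3 := by
    calc (512 : ℝ) = 8 ^ 3 := by norm_num
      _ ≤ l ^ 3 := by gcongr
  have hYh1 : 1 ≤ Y ^ ((1 : ℝ) / 2) := Real.one_le_rpow hY1 (by norm_num)
  have hYh5 : l ^ 5 ≤ Y ^ ((1 : ℝ) / 2) := hl5
  have hl51 : 8 ≤ l ^ 5 := by
    calc (8 : ℝ) ≤ 8 ^ 5 := by norm_num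
      _ ≤ l ^ 5 := by gcongr
  have hQhalf : Y ^ ((1 : ℝ) / 2) ≤ Q / 2 := by nlinarith
  have hQ4 : 4 < Q := by linarith
  have hQ1 : 1 ≤ Q := by linarith
  -- z
  set z : ℝ := Y / Q * l with hz
  have hzQ : z ≤ Q / 2 := by
    have h1 : Y / Q ≤ l ^ 2 := by rw [div_le_iff₀ hQ0]; exact hYQ
    have h2 : z ≤ l ^ 3 := by
      calc z = Y / Q * l := hz
        _ ≤ l ^ 2 * l := by gcongr
        _ = l ^ 3 := by ring
    have h3 : 2 * l ^ 3 ≤ Q := by
      have : (2 : ℝ) ≤ Y ^ ((1 : ℝ) / 2) := by linarith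
      nlinarith
    linarith
  obtain ⟨-, -, h3⟩ := hup X Y Q ha hY hYX hQ1 hQY
  have h4 := h3 z le_rfl (PM Q) (Finset.filter_subset _ _) (by
    intro q hq p hp hpq
    unfold PM at hq
    rw [mem_filter] at hq
    have : p = q := (Nat.prime_dvd_prime_iff_eq hp hq.2.1).1 hpq
    rw [this]
    linarith [hq.2.2])
  set A := PR X Y with hA
  set θ : ℝ := ∑ p ∈ A, lw p with hθ
  have hθ0 : 0 ≤ θ := Finset.sum_nonneg fun p _ => lw_nonneg p
  have hθB := hB X Y hb hY hYX 1 le_rfl (by simpa using hY1) 1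
  rw [th_one] at hθB
  simp only [Nat.totient_one, Nat.cast_one, div_one] at hθB
  have hcop := cop hYX ⌊Q⌋₊ ((Nat.floor_le hQ0.le).trans hQY)
  have h5 : ∀ q ∈ PM Q, ∑ a ∈ (Icc 1 q).filter (fun a => Nat.Coprime a q),
      (th A lw q a - Y / (q.totient : ℝ)) ^ 2 =
      ∑ a ∈ (Icc 1 q).filter (fun a => Nat.Coprime a q), (th A lw q a - θ / (q.totient : ℝ)) ^ 2 +
      (θ - Y) ^ 2 * (1 / (q.totient : ℝ)) := by
    intro q hq
    unfold PM at hq
    rw [mem_filter] at hq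
    have hq0 : 0 < q := hq.2.1.pos
    rw [local_expand A lw Y q hq0 (hcop q hq.1), local_expand A lw θ q hq0 (hcop q hq.1), ← hθ,
      sub_self]
    ring
  rw [Finset.sum_congr rfl h5, Finset.sum_add_distrib, ← Finset.mul_sum]
  have h6 := sum_PM Q hQ4
  have hlogQ : η / 2 * l ≤ Real.log (Q / 2) := by
    have h7 := Real.log_le_log hYh0 hQhalf
    rw [Real.log_rpow hY0] at h7
    linarith
  have hlog4 : Real.log 4 ≤ 4 := by
    have := Real.log_le_sub_one_of_pos (show (0 : ℝ) < 4 by norm_num)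
    linarith
  have h7 : ∑ q ∈ PM Q, 1 / (q.totient : ℝ) ≤ 32 / (η * l) := by
    refine h6.trans ?_
    have : 0 < η / 2 * l := by positivity
    calc 4 * Real.log 4 / Real.log (Q / 2) ≤ 4 * 4 / (η / 2 * l) := by
          have hh : 0 ≤ Real.log 4 := Real.log_nonneg (by norm_num)
          gcongr
      _ = 32 / (η * l) := by field_simp; norm_num
  have h8 : (θ - Y) ^ 2 ≤ B ^ 2 * Y ^ 2 := by
    rw [← mul_pow]
    apply sq_le_sq'
    · nlinarith
    · nlinarith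
  have h9 : (θ - Y) ^ 2 * ∑ q ∈ PM Q, 1 / (q.totient : ℝ) ≤ (32 * B ^ 2 / η) * (Y * Q * l) := by
    have h10 : 0 ≤ ∑ q ∈ PM Q, 1 / (q.totient : ℝ) := Finset.sum_nonneg fun q _ => by positivity
    calc (θ - Y) ^ 2 * ∑ q ∈ PM Q, 1 / (q.totient : ℝ)
        ≤ (B ^ 2 * Y ^ 2) * (32 / (η * l)) := by gcongr
      _ = (32 * B ^ 2 / η) * (Y * Y / l) := by field_simp
      _ ≤ (32 * B ^ 2 / η) * (Y * Q * l) := by
          apply mul_le_mul_of_nonneg_left _ (by positivity)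
          rw [div_le_iff₀ hl0]
          calc Y * Y ≤ Y * (l ^ 2 * Q) := by gcongr
            _ = Y * Q * l * l := by ring
  calc _ ≤ C * (Y * Q * l) + (32 * B ^ 2 / η) * (Y * Q * l) := add_le_add h4 h9
    _ = (C + 32 * B ^ 2 / η) * (Y * Q * l) := by ring

end Pool.Agent.Lib.MP_e2d58b_nt.VR
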