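import Pool.Agent.Lib.MP_e2d58b_nt.VR.Ident

/-!
# The two-sided formula, abstract form; moduli without small prime factors
-/

set_option autoImplicit false

namespace Pool.Agent.Lib.MP_e2d58b_nt.VR

open Finset

/-- the variance -/
noncomputable def V (A : Finset ℕ) (w : ℕ → ℝ) (y : ℝ) (Q : ℕ) : ℝ :=
  ∑ q ∈ Icc 1 Q, ∑ a ∈ (Icc 1 q).filter (fun a => Nat.Coprime a q),
    (th A w q a - y / (q.totient : ℝ)) ^ 2

/-- the part of the small denominators -/
noncomputable def Mj (A : Finset ℕ) (w : ℕ → ℝ) (y : ℝ) (R : ℕ) : ℝ :=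
  ∑ r ∈ Icc 1 R, (1 / (r : ℝ)) * E A w y r

lemma Mj_nonneg (A : Finset ℕ) (w : ℕ → ℝ) (y : ℝ) (R : ℕ) : 0 ≤ Mj A w y R :=
  Finset.sum_nonneg fun r _ => mul_nonneg (by positivity) (E_nonneg A w y r)

theorem V_le (A : Finset ℕ) (w : ℕ → ℝ) (y : ℝ) (n0 : ℕ) (L : ℝ) (hL0 : 0 < L)
    (hL : ∀ p ∈ A, |(p : ℝ) - n0| ≤ L)
    (hθ : (∑ p ∈ A, w p) ^ 2 ≤ 2 * L * ∑ p ∈ A, w p ^ 2) (R0 Q : ℕ) (hR0 : 0 < R0) (hQ : 0 < Q)
    (hA : ∀ q ∈ Icc 1 Q, ∀ p ∈ A, p.Coprime q) :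
    V A w y Q ≤ 9 * (1 + Real.log Q) * Mj A w y R0 +
      (4 * Q + (16 * L / R0) * (1 + Real.log Q)) * ∑ p ∈ A, w p ^ 2 := by
  unfold V
  rw [ident A w y Q hA]
  have hR0' : (1 : ℝ) ≤ R0 := by exact_mod_cast hR0
  set θ : ℝ := ∑ p ∈ A, w p with hθd
  set M := Mj A w y R0 with hM
  have hM0 : 0 ≤ M := Mj_nonneg A w y R0
  have hone : (θ - y) ^ 2 ≤ M := by
    rw [← E_one A w y, hM]
    unfold Mj
    have h := Finset.single_le_sum (f := fun r : ℕ => (1 / (r : ℝ)) * E A w y r)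
      (fun r _ => mul_nonneg (by positivity) (E_nonneg A w y r))
      (show 1 ∈ Icc 1 R0 by rw [mem_Icc]; omega)
    simpa using h
  have h1 : ∀ m ∈ Icc 1 Q, (1 / (m : ℝ)) * ∑ r ∈ Icc 1 (Q / m), (1 / (r : ℝ)) * E A w y r ≤
      9 * M * (1 / (m : ℝ)) + (1 / (m : ℝ)) * ∑ r ∈ Ioc R0 (Q / m), (1 / (r : ℝ)) * T A w r := by
    intro m hm
    rw [mem_Icc] at hm
    have hm0 : (0 : ℝ) < m := by
      have : 0 < m := by omega
      exact_mod_cast this
    have hsub : Icc 1 (Q / m) ⊆ Icc 1 R0 ∪ Ioc R0 (Q / m) := by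
      intro x hx
      rw [mem_Icc] at hx
      rw [mem_union, mem_Icc, mem_Ioc]
      omega
    have hdis : Disjoint (Icc 1 R0) (Ioc R0 (Q / m)) := by
      rw [Finset.disjoint_left]
      intro a ha hb
      rw [mem_Icc] at ha
      rw [mem_Ioc] at hb
      omega
    have h2 : ∑ r ∈ Icc 1 (Q / m), (1 / (r : ℝ)) * E A w y r ≤
        M + ∑ r ∈ Ioc R0 (Q / m), (1 / (r : ℝ)) * E A w y r := by
      rw [hM]
      unfold Mj
      rw [← Finset.sum_union hdis]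
      exact Finset.sum_le_sum_of_subset_of_nonneg hsub
        (fun r _ _ => mul_nonneg (by positivity) (E_nonneg A w y r))
    have h3 : ∑ r ∈ Ioc R0 (Q / m), (1 / (r : ℝ)) * E A w y r ≤
        ∑ r ∈ Ioc R0 (Q / m), (1 / (r : ℝ)) * T A w r +
        4 * M * ∑ r ∈ Ioc R0 (Q / m), 1 / ((r : ℝ) * Real.sqrt r) := by
      rw [Finset.mul_sum, ← Finset.sum_add_distrib]
      refine Finset.sum_le_sum fun r hr => ?_
      rw [mem_Ioc] at hr
      have hr0 : 0 < r := by omega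
      have hr0' : (0 : ℝ) < r := by exact_mod_cast hr0
      have hrQ : r ≤ Q := hr.2.trans (Nat.div_le_self Q m)
      have h4 := E_le A w y r hr0 (hA r (by rw [mem_Icc]; omega))
      have hs0 : 0 < Real.sqrt (r : ℝ) := Real.sqrt_pos.2 hr0'
      have hc := totient_ge r hr0
      have hd : 1 / (r.totient : ℝ) ≤ 4 / Real.sqrt r := by
        rw [div_le_div_iff₀ (by linarith) hs0]
        linarith
      calc (1 / (r : ℝ)) * E A w y r
          ≤ (1 / (r : ℝ)) * (T A w r + (4 / Real.sqrt r) * M) := by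
            apply mul_le_mul_of_nonneg_left _ (by positivity)
            refine h4.trans ?_
            gcongr
        _ = _ := by
            field_simp
    have h5 : ∑ r ∈ Ioc R0 (Q / m), 1 / ((r : ℝ) * Real.sqrt r) ≤ 2 := by
      have h6 : ∑ r ∈ Ioc R0 (Q / m), 1 / ((r : ℝ) * Real.sqrt r) ≤
          ∑ r ∈ Ioc R0 (R0 + Q), 1 / ((r : ℝ) * Real.sqrt r) := by
        apply Finset.sum_le_sum_of_subset_of_nonneg
        · intro x hx
          rw [mem_Ioc] at hx ⊢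
          have := Nat.div_le_self Q m
          omega
        · intro x _ _
          positivity
      have h7 := tail_sum R0 Q hR0
      have h8 : 0 ≤ 2 / Real.sqrt ((R0 + Q : ℕ) : ℝ) := by positivity
      have h9 : 2 / Real.sqrt (R0 : ℝ) ≤ 2 := by
        rw [div_le_iff₀ (Real.sqrt_pos.2 (by linarith))]
        have : 1 ≤ Real.sqrt (R0 : ℝ) := by
          rw [Real.one_le_sqrt]; exact hR0'
        linarith
      linarith
    have h6 : 4 * M * ∑ r ∈ Ioc R0 (Q / m), 1 / ((r : ℝ) * Real.sqrt r) ≤ 4 * M * 2 := by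
      gcongr
    have h7 : ∑ r ∈ Icc 1 (Q / m), (1 / (r : ℝ)) * E A w y r ≤
        9 * M + ∑ r ∈ Ioc R0 (Q / m), (1 / (r : ℝ)) * T A w r := by linarith
    calc (1 / (m : ℝ)) * ∑ r ∈ Icc 1 (Q / m), (1 / (r : ℝ)) * E A w y r
        ≤ (1 / (m : ℝ)) * (9 * M + ∑ r ∈ Ioc R0 (Q / m), (1 / (r : ℝ)) * T A w r) := by gcongr
      _ = _ := by ring
  refine (Finset.sum_le_sum h1).trans ?_
  rw [Finset.sum_add_distrib, ← Finset.mul_sum]
  have h2 := harm_le Q hQ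
  have h3 := large_den A w n0 L hL0 hL hθ R0 Q hR0 hQ
  have h4 : 9 * M * ∑ m ∈ Icc 1 Q, 1 / (m : ℝ) ≤ 9 * M * (1 + Real.log Q) := by gcongr
  linarith

theorem V_ge (A : Finset ℕ) (w : ℕ → ℝ) (y : ℝ) (R0 Q : ℕ) (hR0 : 0 < R0) (hQ : 0 < Q)
    (hA : ∀ q ∈ Icc 1 Q, ∀ p ∈ A, p.Coprime q) :
    Real.log ((Q : ℝ) / R0) * Mj A w y R0 ≤ V A w y Q := by
  unfold V
  rw [ident A w y Q hA]
  have hR0' : (0 : ℝ) < R0 := by exact_mod_cast hR0
  have hQ' : (0 : ℝ) < Q := by exact_mod_cast hQ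
  have h1 : ∑ m ∈ Icc 1 (Q / R0), (1 / (m : ℝ)) * Mj A w y R0 ≤
      ∑ m ∈ Icc 1 Q, (1 / (m : ℝ)) * ∑ r ∈ Icc 1 (Q / m), (1 / (r : ℝ)) * E A w y r := by
    have h2 : ∑ m ∈ Icc 1 (Q / R0), (1 / (m : ℝ)) * Mj A w y R0 ≤
        ∑ m ∈ Icc 1 (Q / R0), (1 / (m : ℝ)) * ∑ r ∈ Icc 1 (Q / m), (1 / (r : ℝ)) * E A w y r := by
      refine Finset.sum_le_sum fun m hm => ?_
      rw [mem_Icc] at hm
      apply mul_le_mul_of_nonneg_left _ (by positivity)
      unfold Mj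
      apply Finset.sum_le_sum_of_subset_of_nonneg
      · intro x hx
        rw [mem_Icc] at hx ⊢
        refine ⟨hx.1, hx.2.trans ?_⟩
        rw [Nat.le_div_iff_mul_le (by omega)]
        have := Nat.div_mul_le_self Q R0
        calc R0 * m ≤ R0 * (Q / R0) := Nat.mul_le_mul_left _ hm.2
          _ ≤ Q := by rw [mul_comm]; exact this
      · intro r _ _
        exact mul_nonneg (by positivity) (E_nonneg A w y r)
    refine h2.trans ?_
    apply Finset.sum_le_sum_of_subset_of_nonneg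
    · intro x hx
      rw [mem_Icc] at hx ⊢
      exact ⟨hx.1, hx.2.trans (Nat.div_le_self _ _)⟩
    · intro m _ _
      refine mul_nonneg (by positivity) (Finset.sum_nonneg fun r _ => ?_)
      exact mul_nonneg (by positivity) (E_nonneg A w y r)
  refine le_trans ?_ h1
  rw [← Finset.sum_mul]
  apply mul_le_mul_of_nonneg_right _ (Mj_nonneg A w y R0)
  refine le_trans ?_ (harm_ge (Q / R0))
  apply Real.log_le_log (by positivity)
  rw [div_le_iff₀ hR0']
  have : Q < R0 * (Q / R0 + 1) := by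
    have := Nat.lt_mul_div_succ Q hR0
    exact this
  have h3 : (Q : ℝ) < R0 * (((Q / R0 : ℕ) : ℝ) + 1) := by exact_mod_cast this
  linarith

/-- moduli without small prime factors, centred at the true mean -/
theorem rough (A : Finset ℕ) (w : ℕ → ℝ) (n0 : ℕ) (L : ℝ) (hL0 : 0 < L)
    (hL : ∀ p ∈ A, |(p : ℝ) - n0| ≤ L)
    (hθ : (∑ p ∈ A, w p) ^ 2 ≤ 2 * L * ∑ p ∈ A, w p ^ 2) (z Q : ℕ) (hz : 0 < z) (hQ : 0 < Q)
    (hA : ∀ q ∈ Icc 1 Q, ∀ p ∈ A, p.Coprime q) (QQ : Finset ℕ) (hQQ : QQ ⊆ Icc 1 Q)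
    (hrough : ∀ q ∈ QQ, ∀ p : ℕ, p.Prime → p ∣ q → z < p) :
    ∑ q ∈ QQ, ∑ a ∈ (Icc 1 q).filter (fun a => Nat.Coprime a q),
      (th A w q a - (∑ p ∈ A, w p) / (q.totient : ℝ)) ^ 2 ≤
      (4 * Q + (16 * L / z) * (1 + Real.log Q)) * ∑ p ∈ A, w p ^ 2 := by
  set θ : ℝ := ∑ p ∈ A, w p with hθd
  have h1 : ∀ q ∈ QQ, ∑ a ∈ (Icc 1 q).filter (fun a => Nat.Coprime a q),
      (th A w q a - θ / (q.totient : ℝ)) ^ 2 ≤
      ∑ r ∈ q.divisors, (if z < r then (1 / ((q / r : ℕ) : ℝ)) * ((1 / (r : ℝ)) * T A w r) else 0) := by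
    intro q hq
    have hq1 := mem_Icc.1 (hQQ hq)
    rw [local_ident A w θ q (by omega) (hA q (hQQ hq)), Finset.mul_sum]
    refine Finset.sum_le_sum fun r hr => ?_
    rw [Nat.mem_divisors] at hr
    obtain ⟨d, hd⟩ := hr.1
    have hr0 : 0 < r := Nat.pos_of_ne_zero (by rintro rfl; simp at hd; omega)
    have hrQ : r ≤ Q := (Nat.le_of_dvd (by omega) hr.1).trans hq1.2
    rcases Nat.lt_or_ge 1 r with h2 | h2
    · have hzr : z < r := by
        obtain ⟨p, hp, hpr⟩ := Nat.exists_prime_and_dvd (show r ≠ 1 by omega)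
        have h3 := hrough q hq p hp (hpr.trans hr.1)
        exact h3.trans_le (Nat.le_of_dvd hr0 hpr)
      rw [if_pos hzr]
      have h3 : E A w θ r ≤ T A w r := by
        have := E_le A w θ r hr0 (hA r (by rw [mem_Icc]; omega))
        rw [← hθd, sub_self] at this
        simpa using this
      have e : (1 / ((q / r : ℕ) : ℝ)) * ((1 / (r : ℝ)) * T A w r) = (1 / (q : ℝ)) * T A w r := by
        rw [hd, Nat.mul_div_cancel_left d hr0]
        push_cast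
        rw [← mul_assoc]
        congr 1
        rw [one_div_mul_one_div, mul_comm (d : ℝ)]
      rw [e]
      gcongr
    · have h3 : r = 1 := by omega
      subst h3
      rw [E_one A w θ, ← hθd, sub_self]
      have : (0 : ℝ) ≤ (if z < 1 then (1 / ((q / 1 : ℕ) : ℝ)) * ((1 / ((1 : ℕ) : ℝ)) * T A w 1) else 0) := by
        split_ifs
        · have := T_nonneg A w 1
          positivity
        · exact le_rfl
      simpa using this
  refine (Finset.sum_le_sum h1).trans ?_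
  have hnn : ∀ r m : ℕ, (0 : ℝ) ≤ (if z < r then (1 / (m : ℝ)) * ((1 / (r : ℝ)) * T A w r) else 0) := by
    intro r m
    split_ifs
    · have := T_nonneg A w r
      positivity
    · exact le_rfl
  have h2 : ∑ q ∈ QQ, ∑ r ∈ q.divisors, (if z < r then (1 / ((q / r : ℕ) : ℝ)) *
      ((1 / (r : ℝ)) * T A w r) else 0) ≤ ∑ q ∈ Icc 1 Q, ∑ r ∈ q.divisors,
      (if z < r then (1 / ((q / r : ℕ) : ℝ)) * ((1 / (r : ℝ)) * T A w r) else 0) :=
    Finset.sum_le_sum_of_subset_of_nonneg hQQ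
      (fun q _ _ => Finset.sum_nonneg fun r _ => hnn r (q / r))
  refine h2.trans ?_
  rw [sum_hyp Q (fun r m => if z < r then (1 / (m : ℝ)) * ((1 / (r : ℝ)) * T A w r) else 0)]
  refine le_trans (le_of_eq ?_) (large_den A w n0 L hL0 hL hθ z Q hz hQ)
  refine Finset.sum_congr rfl fun m _ => ?_
  rw [← Finset.sum_filter, Finset.mul_sum]
  apply Finset.sum_congr _ (fun _ _ => rfl)
  ext x
  rw [mem_filter, mem_Icc, mem_Ioc]
  omega

end Pool.Agent.Lib.MP_e2d58b_nt.VR
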